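import Pool.Agent.H97.S6.H3R

/-!
# (H4) in the contexts: the base velocity given the exact point

The context, the generalised time and the data of the exact point which occur in theorem OCS are
functions of the exact point and of the base velocity to `q` digits, up to a bounded number of
values, if the velocities in the exact frame are known from these.
-/

set_option autoImplicit false

namespace Pool.S6N

open Finset Real
open Pool.Agent.H49.Ent Pool.Agent.H32.Dense Pool.STK Pool.KA Pool.KSAT Pool.K2S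

variable {J : ℕ}

/-- The exact point and the base velocity to `q` digits. -/
noncomputable def pq (F : Fam 3 J) (i₀ : Fin 3) (q : ℕ) (ω : F.Ω) :
    ℤ × ((Fin 3 → ℤ) × (ℕ × F.ζ)) := (⌊(2 : ℝ) ^ q * F.d ω i₀⌋, Fam.pt F ω)

/-- The exact frame is a function of the exact point, and the velocities in the exact frame are
known given the exact point and the base velocity to `q` digits. -/
structure Vis (F : Fam 3 J) (A : F.Ω → Prop) (σ : Fin 3 → Fin 3) (q V H X : ℕ) (B : ℝ)
    (a' s' t' : F.Ω → ℝ) : Prop where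
  fp : ∀ ω ω', A ω → A ω' → Fam.pt F ω = Fam.pt F ω' → a' ω = a' ω' ∧ s' ω = s' ω' ∧ t' ω = t' ω'
  bd : ∀ ω, A ω → ∀ i j, |fr σ a' s' t' ω i j| ≤ B
  v1 : ∀ ω ω', A ω → A ω' → pq F (σ 0) q ω = pq F (σ 0) q ω' →
    |mco (fr σ a' s' t' ω) (F.d ω) 1 - mco (fr σ a' s' t' ω) (F.d ω') 1| ≤ B / 2 ^ (q + V + X)
  v2 : ∀ ω ω', A ω → A ω' → pq F (σ 0) q ω = pq F (σ 0) q ω' →
    |mco (fr σ a' s' t' ω) (F.d ω) 2 - mco (fr σ a' s' t' ω) (F.d ω') 2| ≤
      B / 2 ^ (q + (V + H) + X)

section fam3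

variable {F : Fam 3 J} {A : F.Ω → Prop} {σ : Fin 3 → Fin 3} {w q V H X : ℕ} {D B : ℝ}
  {a s t a' s' t' : F.Ω → ℝ}

theorem pq_ext {i₀ : Fin 3} {ω ω' : F.Ω} (h : pq F i₀ q ω = pq F i₀ q ω') :
    ⌊(2 : ℝ) ^ q * F.d ω i₀⌋ = ⌊(2 : ℝ) ^ q * F.d ω' i₀⌋ ∧ F.X J ω = F.X J ω' ∧
      F.T ω = F.T ω' ∧ F.Z ω = F.Z ω' ∧ Fam.pt F ω = Fam.pt F ω' := by
  obtain ⟨h1, h2⟩ := Prod.ext_iff.mp h
  obtain ⟨h3, h4⟩ := Prod.ext_iff.mp h2
  obtain ⟨h5, h6⟩ := Prod.ext_iff.mp h4
  exact ⟨h1, h3, h5, h6, h2⟩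

/-- The change of the velocity in the frame. -/
theorem vel_row (σ : Fin 3 → Fin 3) (q V H : ℕ) (a s t a' s' t' : ℝ) (x : Fin 3 → ℝ) :
    2 ^ (q + (V + H)) * mco (tfr σ a' s' t') x 2 =
      2 ^ (q + (V + H)) * mco (tfr σ a s t) x 2 -
        (2 ^ (V + H) * ((t' - t) + (s' - s) * a)) * (2 ^ q * mco (tfr σ a s t) x 0) -
        (2 ^ H * (s' - s)) * (2 ^ (q + V) * mco (tfr σ a s t) x 1) := by
  rw [Box.mco_tfr2, Box.mco_tfr2, Box.mco_tfr0, Box.mco_tfr1, pow_add, pow_add, pow_add]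
  ring

theorem vel_row1 (σ : Fin 3 → Fin 3) (q V : ℕ) (a s t a' s' t' : ℝ) (x : Fin 3 → ℝ) :
    2 ^ (q + V) * mco (tfr σ a' s' t') x 1 =
      2 ^ (q + V) * mco (tfr σ a s t) x 1 -
        (2 ^ V * (a' - a)) * (2 ^ q * mco (tfr σ a s t) x 0) := by
  rw [Box.mco_tfr1, Box.mco_tfr1, Box.mco_tfr0, pow_add]
  ring

/-- The context given the exact point. -/
theorem CH_ctx_pt (hF : Frg F A w V H D a s t a' s' t')
    (hV : Vis F A σ q V H X B a' s' t') (hD : 0 ≤ D) (hB : 1 ≤ B)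
    (hQ : IsLaw (Pool.Agent.H49.Ent.cond F.p A True)) (hw : w ≤ J) (hP : q + (V + H) + w ≤ J) :
    CH (Pool.Agent.H49.Ent.cond F.p A True) (fun ω => (ctx F σ w q V H a s t ω,
        gt F a' s' t' ω)) (pq F (σ 0) q) ≤ 3 * Real.log (2 * D + 1) +
        2 * (3 * Real.log (2 * (3 * (D + D ^ 2 + 1) * (2 * (3 * B + B))) + 3)) := by
  have hA : ∀ ω, 0 < Pool.Agent.H49.Ent.cond F.p A True ω → A ω := fun ω hω =>
    of_eq_true ((cond_pos_iff F.isLaw.nonneg A True ω).1 hω).2
  have h0 := hQ.nonneg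
  obtain ⟨D', hD'⟩ : ∃ D', D' = D + D ^ 2 + 1 := ⟨_, rfl⟩
  have hD'1 : 1 ≤ D' := by rw [hD']; nlinarith only [hD, sq_nonneg D]
  have hgt : ∀ ω ω', A ω → A ω' → pq F (σ 0) q ω = pq F (σ 0) q ω' →
      gt F a' s' t' ω = gt F a' s' t' ω' := by
    intro ω ω' h1 h2 h
    obtain ⟨e1, e2, e3, e4, e5⟩ := pq_ext h
    obtain ⟨g1, g2, g3⟩ := hV.fp ω ω' h1 h2 e5
    exact Prod.ext e3 (Prod.ext g1 (Prod.ext g2 g3))
  have bd : ∀ (x : ℝ) (n u v : ℕ), |x| ≤ D' / 2 ^ n → v ≤ n + u → |x| ≤ D' * 2 ^ u / 2 ^ v := by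
    intro x n u v hx huv
    refine hx.trans ?_
    rw [div_le_div_iff₀ (by positivity) (by positivity)]
    have e1 : (2 : ℝ) ^ v ≤ 2 ^ (n + u) := pow_le_pow_right₀ (by norm_num) huv
    rw [pow_add] at e1
    have e2 : 0 ≤ D' := by linarith only [hD'1]
    nlinarith only [e1, e2, mul_le_mul_of_nonneg_left e1 e2]
  have k1 : CH (Pool.Agent.H49.Ent.cond F.p A True) (ctx F σ w q V H a s t)
      (fun ω => ((t ω, (s ω, a ω)), pq F (σ 0) q ω)) ≤
      2 * ((3 : ℕ) * Real.log (2 * ((3 : ℕ) * D' * (2 * ((3 : ℕ) * B + B))) + 3)) := by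
    refine Box.CH_mlb_of_pt (F := F) hQ hw (k := fun i => cv q V H i + w) (c := cv q V H)
      (h := fun i => ![q, q + V, q + (V + H)] i) (r := fun i => cv q V H i + w)
      (N := fr σ a' s' t') (M := fr σ a s t) (by linarith only [hB]) (by linarith only [hD'1])
      (fun ω hω => hV.bd ω (hA ω hω)) ?_ ?_ ?_ _ ?_
    · intro i
      fin_cases i
      · show q + w ≤ J
        omega
      · show q + V + w ≤ J
        omega
      · exact hP
    · intro i
      exact le_rfl
    · intro ω hω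
      have c1 := hF.ca ω (hA ω hω)
      have c2 := hF.cs ω (hA ω hω)
      have c3 := hF.ct ω (hA ω hω)
      have big : ∀ n : ℕ, D / (2 : ℝ) ^ n ≤ D' / 2 ^ n := fun n =>
        div_le_div_of_nonneg_right (by rw [hD']; nlinarith only [sq_nonneg D]) (by positivity)
      have n1 : |a ω - a' ω| ≤ D' / 2 ^ V := by
        rw [abs_sub_comm]
        exact c1.trans (big _)
      have n2 : |s ω - s' ω| ≤ D' / 2 ^ H := by
        rw [abs_sub_comm]
        exact c2.trans (big _)
      have n3 : |(t ω - t' ω) + (s ω - s' ω) * a' ω| ≤ D' / 2 ^ (V + H) := by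
        have e : (t ω - t' ω) + (s ω - s' ω) * a' ω = -((t' ω - t ω) + (s' ω - s ω) * a ω) -
            (s' ω - s ω) * (a' ω - a ω) := by ring
        rw [e]
        refine (abs_sub _ _).trans ?_
        rw [abs_neg]
        have g2 : |(s' ω - s ω) * (a' ω - a ω)| ≤ (D / 2 ^ H) * (D / 2 ^ V) := by
          rw [abs_mul]
          exact mul_le_mul c2 c1 (abs_nonneg _) (by positivity)
        have g3 : (D / 2 ^ H) * (D / 2 ^ V) = D ^ 2 / 2 ^ (V + H) := by
          rw [pow_add]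
          field_simp
        have g4 : D' / (2 : ℝ) ^ (V + H) = D / 2 ^ (V + H) + D ^ 2 / 2 ^ (V + H) +
            1 / 2 ^ (V + H) := by
          rw [hD']
          ring
        have g5 : (0 : ℝ) ≤ 1 / 2 ^ (V + H) := by positivity
        rw [g3] at g2
        rw [g4]
        linarith only [c3, g2, g5]
      refine ⟨_, Box.cg_tfr σ (a' ω) (s' ω) (t' ω) (a ω) (s ω) (t ω), ?_, ?_⟩
      · refine Box.tch_le hD'1 le_rfl le_rfl le_rfl ?_ ?_ ?_
        · refine bd _ _ _ _ n1 ?_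
          show q + V + w ≤ V + (q + w)
          omega
        · refine bd _ _ _ _ n2 ?_
          show q + (V + H) + w ≤ H + (q + V + w)
          omega
        · refine bd _ _ _ _ n3 ?_
          show q + (V + H) + w ≤ V + H + (q + w)
          omega
      · refine Box.tch_le hD'1 le_rfl le_rfl le_rfl ?_ ?_ ?_
        · refine bd _ _ _ _ n1 ?_
          show q + V ≤ V + q
          omega
        · refine bd _ _ _ _ n2 ?_
          show q + (V + H) ≤ H + (q + V)
          omega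
        · refine bd _ _ _ _ n3 ?_
          show q + (V + H) ≤ V + H + q
          omega
    · intro ω ω' hω hω' h
      obtain ⟨h1, h2⟩ := Prod.ext_iff.mp h
      obtain ⟨e1, e2, e3, e4, e5⟩ := pq_ext h2
      obtain ⟨g1, g2, g3⟩ := hV.fp ω ω' (hA ω hω) (hA ω' hω') e5
      obtain ⟨f1, f2⟩ := Prod.ext_iff.mp h1
      obtain ⟨f3, f4⟩ := Prod.ext_iff.mp f2
      simp only at f1 f3 f4
      refine ⟨e2, Prod.ext e3 e4, ?_, ?_, ?_⟩
      · show tfr σ (a' ω) (s' ω) (t' ω) = tfr σ (a' ω') (s' ω') (t' ω')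
        rw [g1, g2, g3]
      · show tfr σ (a ω) (s ω) (t ω) = tfr σ (a ω') (s ω') (t ω')
        rw [f1, f3, f4]
      · intro i
        have hB0 : 0 ≤ B := by linarith only [hB]
        fin_cases i
        · show |mco (tfr σ (a' ω) (s' ω) (t' ω)) (F.d ω) 0 -
            mco (tfr σ (a' ω) (s' ω) (t' ω)) (F.d ω') 0| ≤ B / 2 ^ q
          rw [Box.mco_tfr0, Box.mco_tfr0]
          exact (Box.near_of_floor e1).trans (div_le_div_of_nonneg_right hB (by positivity))
        · exact (hV.v1 ω ω' (hA ω hω) (hA ω' hω') h2).trans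
            (Box.div_pow_mono hB0 (show q + V ≤ q + V + X by omega))
        · exact (hV.v2 ω ω' (hA ω hω) (hA ω' hω') h2).trans
            (Box.div_pow_mono hB0 (show q + (V + H) ≤ q + (V + H) + X by omega))
  -- the frames
  have k2 : CH (Pool.Agent.H49.Ent.cond F.p A True) (fun ω => (t ω, (s ω, a ω)))
      (pq F (σ 0) q) ≤ 3 * Real.log (2 * D + 1) := by
    refine (CH_mono_cond h0 (W := fun ω => (pq F (σ 0) q ω, gt F a' s' t' ω))
      fun ω ω' hω hω' h => ?_).trans (CH_fr hF hD hQ (pq F (σ 0) q))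
    exact Prod.ext h (hgt ω ω' (hA ω hω) (hA ω' hω') h)
  have k3 := CH_le_add h0 (fun ω => (ctx F σ w q V H a s t ω, gt F a' s' t' ω))
    (fun ω => (t ω, (s ω, a ω))) (pq F (σ 0) q)
  have k4 : CH (Pool.Agent.H49.Ent.cond F.p A True) (fun ω => (ctx F σ w q V H a s t ω,
      gt F a' s' t' ω)) (fun ω => ((t ω, (s ω, a ω)), pq F (σ 0) q ω)) ≤
      CH (Pool.Agent.H49.Ent.cond F.p A True) (ctx F σ w q V H a s t)
      (fun ω => ((t ω, (s ω, a ω)), pq F (σ 0) q ω)) :=
    CH_mono_left h0 fun ω ω' hω hω' h =>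
      Prod.ext (Prod.ext_iff.mp h).1 (hgt ω ω' (hA ω hω) (hA ω' hω')
        (Prod.ext_iff.mp (Prod.ext_iff.mp h).2).2)
  rw [hD'] at k1
  push_cast at k1
  linarith only [k1, k2, k3, k4]

/-- The data of the exact point given the exact point. -/
theorem CH_data_pt (hσ : Function.Injective σ) (hF : Frg F A w V H D a s t a' s' t')
    (hV : Vis F A σ q V H X B a' s' t') (hD : 0 ≤ D) (hB : 1 ≤ B)
    (hBM : ∀ ω, A ω → ∀ i j, |fr σ a s t ω i j| ≤ B)
    (hQ : IsLaw (Pool.Agent.H49.Ent.cond F.p A True)) (hw : w ≤ J)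
    (hPX : q + (V + H) + w + X ≤ J) :
    CH (Pool.Agent.H49.Ent.cond F.p A True)
      (fun ω => (Ocs.dg2 X (Ocs.yt (fun j => yy F σ w q V H X a s t (Fin.castSucc j))
          (fun j => om F σ q V H X a s t (Fin.castSucc j)) (F.wt w)) ω,
        (Uni.dg X (Ocs.cc (fun j => om F σ q V H X a s t (Fin.castSucc j))
            (om F σ q V H X a s t 2) (SS V H a s t s' t')) ω,
          Uni.dg X (Ocs.kk (fun j => om F σ q V H X a s t (Fin.castSucc j)) (EE V a a')) ω)))
      (fun ω => ((ctx F σ w q V H a s t ω, gt F a' s' t' ω), pq F (σ 0) q ω)) ≤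
      4 * Real.log (2 * (3 * B + 4 * D + 10) + 1) := by
  have hA : ∀ ω, 0 < Pool.Agent.H49.Ent.cond F.p A True ω → A ω := fun ω hω =>
    of_eq_true ((cond_pos_iff F.isLaw.nonneg A True ω).1 hω).2
  have h0 := hQ.nonneg
  have hB0 : 0 ≤ B := by linarith only [hB]
  have hX : (0 : ℝ) < 2 ^ X := by positivity
  obtain ⟨K, hK⟩ : ∃ K, K = 3 * B + 4 * D + 10 := ⟨_, rfl⟩
  rw [← hK]
  -- integers with nearby real values
  have fl_near : ∀ x y c : ℝ, |2 ^ X * x - 2 ^ X * y| ≤ c →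
      |((⌊(2 : ℝ) ^ X * x⌋ - ⌊(2 : ℝ) ^ X * y⌋ : ℤ) : ℝ)| ≤ c + 1 := by
    intro x y c h
    exact Plk.floor_sub_lt h
  -- the positions
  have pos : ∀ j : Fin 2, CH (Pool.Agent.H49.Ent.cond F.p A True)
      (Uni.dg X (Ocs.yt (fun j => yy F σ w q V H X a s t (Fin.castSucc j))
          (fun j => om F σ q V H X a s t (Fin.castSucc j)) (F.wt w) j))
      (fun ω => ((ctx F σ w q V H a s t ω, gt F a' s' t' ω), pq F (σ 0) q ω)) ≤
      Real.log (2 * K + 1) := by
    intro j
    refine Lab.CH_int_const hQ _ _ ?_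
    intro ω ω' hω hω' h
    obtain ⟨h1, h2⟩ := Prod.ext_iff.mp h
    obtain ⟨h3, h4⟩ := Prod.ext_iff.mp h1
    simp only at h2 h3 h4
    obtain ⟨e1, e2, e3, e4, e5⟩ := pq_ext h2
    have m1 := yt_mx (F := F) (σ := σ) (w := w) (q := q) (V := V) (H := H) (X := X) (a := a)
      (s := s) (t := t) j ω
    have m2 := yt_mx (F := F) (σ := σ) (w := w) (q := q) (V := V) (H := H) (X := X) (a := a)
      (s := s) (t := t) j ω'
    have p1 := Box.pos_eq F hw (cv q V H) (fr σ a s t) ω (Fin.castSucc j)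
    have p2 := Box.pos_eq F hw (cv q V H) (fr σ a s t) ω' (Fin.castSucc j)
    have hmk := congrFun (Box.mkn_det h3 e3) (Fin.castSucc j)
    have hM := ctx_fr h3
    -- the difference of the positions
    have dx : |mco (fr σ a s t ω) (F.x ω) (Fin.castSucc j) -
        mco (fr σ a s t ω) (F.x ω') (Fin.castSucc j)| ≤ 3 * B / 2 ^ J := by
      rw [← Box.mco_sub]
      unfold mco
      refine (Finset.abs_sum_le_sum_abs _ _).trans ?_
      have g : ∀ i ∈ (Finset.univ : Finset (Fin 3)),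
          |fr σ a s t ω (Fin.castSucc j) i * (F.x ω i - F.x ω' i)| ≤ B * (1 / 2 ^ J) := by
        intro i _
        rw [abs_mul]
        exact mul_le_mul (hBM ω (hA ω hω) _ _) (Box.near_of_floor (congrFun e2 i))
          (abs_nonneg _) hB0
      refine (Finset.sum_le_sum g).trans (le_of_eq ?_)
      rw [Finset.sum_const, Finset.card_univ, Fintype.card_fin, nsmul_eq_mul]
      push_cast
      ring
    have hκ : cv q V H (Fin.castSucc j) + w + X ≤ J := by
      fin_cases j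
      · show q + w + X ≤ J
        omega
      · show q + V + w + X ≤ J
        omega
    have dx2 : |2 ^ X * (2 ^ (cv q V H (Fin.castSucc j) + w) *
        (mco (fr σ a s t ω) (F.x ω) (Fin.castSucc j) -
        mco (fr σ a s t ω) (F.x ω') (Fin.castSucc j)))| ≤ 3 * B := by
      rw [← mul_assoc, abs_mul, abs_of_pos (by positivity), ← pow_add]
      calc (2 : ℝ) ^ (X + (cv q V H (Fin.castSucc j) + w)) * _ ≤
          2 ^ J * (3 * B / 2 ^ J) := by
            refine mul_le_mul (pow_le_pow_right₀ (by norm_num) (by omega)) dx (abs_nonneg _)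
              (by positivity)
        _ = 3 * B := by field_simp
    have hK2 : 3 * B + 4 + 1 ≤ K := by rw [hK]; linarith only [hD]
    refine (fl_near _ _ (3 * B + 4) ?_).trans hK2
    rw [← mul_sub, abs_mul, abs_of_pos hX]
    have e6 : 2 ^ X * |Ocs.yt (fun j => yy F σ w q V H X a s t (Fin.castSucc j))
          (fun j => om F σ q V H X a s t (Fin.castSucc j)) (F.wt w) j ω -
        Ocs.yt (fun j => yy F σ w q V H X a s t (Fin.castSucc j))
          (fun j => om F σ q V H X a s t (Fin.castSucc j)) (F.wt w) j ω'| ≤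
        2 ^ X * (|F.mx w (cv q V H) (fr σ a s t) ω (Fin.castSucc j) -
          F.mx w (cv q V H) (fr σ a s t) ω' (Fin.castSucc j)| + (2 / 2 ^ X + 2 / 2 ^ X)) := by
      refine mul_le_mul_of_nonneg_left ?_ hX.le
      have := abs_le.1 m1
      have := abs_le.1 m2
      have := abs_le.1 (le_refl |F.mx w (cv q V H) (fr σ a s t) ω (Fin.castSucc j) -
          F.mx w (cv q V H) (fr σ a s t) ω' (Fin.castSucc j)|)
      rw [abs_le]
      constructor <;> linarith
    refine e6.trans ?_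
    have e7 : F.mx w (cv q V H) (fr σ a s t) ω (Fin.castSucc j) -
          F.mx w (cv q V H) (fr σ a s t) ω' (Fin.castSucc j) =
        2 ^ (cv q V H (Fin.castSucc j) + w) *
        (mco (fr σ a s t ω) (F.x ω) (Fin.castSucc j) -
        mco (fr σ a s t ω) (F.x ω') (Fin.castSucc j)) := by
      rw [mul_sub, p1]
      rw [← hM] at p2
      rw [p2, hmk]
      ring
    rw [e7]
    rw [abs_mul, abs_of_pos hX] at dx2
    have e8 : 2 ^ X * (|2 ^ (cv q V H (Fin.castSucc j) + w) *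
        (mco (fr σ a s t ω) (F.x ω) (Fin.castSucc j) -
        mco (fr σ a s t ω) (F.x ω') (Fin.castSucc j))| + (2 / 2 ^ X + 2 / 2 ^ X)) =
        2 ^ X * |2 ^ (cv q V H (Fin.castSucc j) + w) *
        (mco (fr σ a s t ω) (F.x ω) (Fin.castSucc j) -
        mco (fr σ a s t ω) (F.x ω') (Fin.castSucc j))| + 4 := by
      field_simp
      ring
    rw [e8]
    linarith only [dx2]
  -- the velocities
  have omd : ∀ (i : Fin 3) (ω : F.Ω), |om F σ q V H X a s t i ω -
      (2 ^ (cv q V H i) * mco (fr σ a s t ω) (F.d ω) i - F.mvl (cv q V H) (fr σ a s t) ω i)| ≤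
      1 / 2 ^ X := by
    intro i ω
    have e1 := Box.mvl_add F (cv q V H) (fr σ a s t) ω i
    have e2 : 2 ^ (cv q V H i) * mco (fr σ a s t ω) (F.d ω) i -
      F.mvl (cv q V H) (fr σ a s t) ω i = F.md (cv q V H) (fr σ a s t) ω i := by
      rw [e1]
      ring
    rw [e2]
    exact floor_div_near _ X
  have ccv : CH (Pool.Agent.H49.Ent.cond F.p A True)
      (Uni.dg X (Ocs.cc (fun j => om F σ q V H X a s t (Fin.castSucc j))
            (om F σ q V H X a s t 2) (SS V H a s t s' t')))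
      (fun ω => ((ctx F σ w q V H a s t ω, gt F a' s' t' ω), pq F (σ 0) q ω)) ≤
      Real.log (2 * (B + 2 * (1 + 2 * D) + 1) + 1) := by
    refine Lab.CH_int_const hQ _ _ ?_
    intro ω ω' hω hω' h
    obtain ⟨h1, h2⟩ := Prod.ext_iff.mp h
    obtain ⟨h3, h4⟩ := Prod.ext_iff.mp h1
    simp only at h2 h3 h4
    obtain ⟨g0, g1, g2, g3⟩ := gt_ext h4
    obtain ⟨f1, f2, f3⟩ := ctx_frm hσ h3
    have hS0 := SS_det (F := F) hσ 0 h3 h4
    have hS1 := SS_det (F := F) hσ 1 h3 h4
    have hmv := (Box.mlb_ext h3).2.2.2.1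
    have v2 := hV.v2 ω ω' (hA ω hω) (hA ω' hω') h2
    refine fl_near _ _ (B + 2 * (1 + 2 * D)) ?_
    -- the exact value
    have ex : ∀ v : F.Ω, A v → |Ocs.cc (fun j => om F σ q V H X a s t (Fin.castSucc j))
            (om F σ q V H X a s t 2) (SS V H a s t s' t') v -
        (2 ^ (q + (V + H)) * mco (fr σ a' s' t' v) (F.d v) 2 -
          (F.mvl (cv q V H) (fr σ a s t) v 2 -
            SS V H a s t s' t' 0 v * F.mvl (cv q V H) (fr σ a s t) v 0 -
            SS V H a s t s' t' 1 v * F.mvl (cv q V H) (fr σ a s t) v 1))| ≤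
        (1 + 2 * D) / 2 ^ X := by
      intro v hv
      have r := vel_row σ q V H (a v) (s v) (t v) (a' v) (s' v) (t' v) (F.d v)
      have o0 := omd 0 v
      have o1 := omd 1 v
      have o2 := omd 2 v
      have s0 := SS_le hF 0 hv
      have s1 := SS_le hF 1 hv
      have r' : 2 ^ (q + (V + H)) * mco (fr σ a' s' t' v) (F.d v) 2 =
          2 ^ (q + (V + H)) * mco (fr σ a s t v) (F.d v) 2 -
          SS V H a s t s' t' 0 v * (2 ^ q * mco (fr σ a s t v) (F.d v) 0) -
          SS V H a s t s' t' 1 v * (2 ^ (q + V) * mco (fr σ a s t v) (F.d v) 1) := r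
      have e1 : Ocs.cc (fun j => om F σ q V H X a s t (Fin.castSucc j))
            (om F σ q V H X a s t 2) (SS V H a s t s' t') v -
        (2 ^ (q + (V + H)) * mco (fr σ a' s' t' v) (F.d v) 2 -
          (F.mvl (cv q V H) (fr σ a s t) v 2 -
            SS V H a s t s' t' 0 v * F.mvl (cv q V H) (fr σ a s t) v 0 -
            SS V H a s t s' t' 1 v * F.mvl (cv q V H) (fr σ a s t) v 1)) =
          (om F σ q V H X a s t 2 v - (2 ^ (cv q V H 2) * mco (fr σ a s t v) (F.d v) 2 -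
            F.mvl (cv q V H) (fr σ a s t) v 2)) -
          SS V H a s t s' t' 0 v * (om F σ q V H X a s t 0 v -
            (2 ^ (cv q V H 0) * mco (fr σ a s t v) (F.d v) 0 -
            F.mvl (cv q V H) (fr σ a s t) v 0)) -
          SS V H a s t s' t' 1 v * (om F σ q V H X a s t 1 v -
            (2 ^ (cv q V H 1) * mco (fr σ a s t v) (F.d v) 1 -
            F.mvl (cv q V H) (fr σ a s t) v 1)) := by
        rw [r', cv0, cv1, cv2]
        unfold Ocs.cc
        rw [Fin.sum_univ_two]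
        have c0 : (Fin.castSucc (0 : Fin 2) : Fin 3) = 0 := rfl
        have c1 : (Fin.castSucc (1 : Fin 2) : Fin 3) = 1 := rfl
        simp only [c0, c1]
        ring
      rw [e1]
      refine (abs_sub _ _).trans ?_
      have g4 := abs_sub (om F σ q V H X a s t 2 v - (2 ^ (cv q V H 2) *
          mco (fr σ a s t v) (F.d v) 2 - F.mvl (cv q V H) (fr σ a s t) v 2))
        (SS V H a s t s' t' 0 v * (om F σ q V H X a s t 0 v -
            (2 ^ (cv q V H 0) * mco (fr σ a s t v) (F.d v) 0 -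
            F.mvl (cv q V H) (fr σ a s t) v 0)))
      have g5 : |SS V H a s t s' t' 0 v * (om F σ q V H X a s t 0 v -
            (2 ^ (cv q V H 0) * mco (fr σ a s t v) (F.d v) 0 -
            F.mvl (cv q V H) (fr σ a s t) v 0))| ≤ D * (1 / 2 ^ X) := by
        rw [abs_mul]
        exact mul_le_mul s0 o0 (abs_nonneg _) hD
      have g6 : |SS V H a s t s' t' 1 v * (om F σ q V H X a s t 1 v -
            (2 ^ (cv q V H 1) * mco (fr σ a s t v) (F.d v) 1 -
            F.mvl (cv q V H) (fr σ a s t) v 1))| ≤ D * (1 / 2 ^ X) := by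
        rw [abs_mul]
        exact mul_le_mul s1 o1 (abs_nonneg _) hD
      have e3 : (1 + 2 * D) / (2 : ℝ) ^ X = 1 / 2 ^ X + D * (1 / 2 ^ X) + D * (1 / 2 ^ X) := by
        ring
      rw [e3]
      linarith only [o2, g4, g5, g6]
    have x1 := ex ω (hA ω hω)
    have x2 := ex ω' (hA ω' hω')
    rw [← hS0, ← hS1, ← hmv] at x2
    have hfr : fr σ a' s' t' ω' = fr σ a' s' t' ω := by
      unfold fr
      rw [g1, g2, g3]
    rw [hfr] at x2
    have x3 : |2 ^ (q + (V + H)) * mco (fr σ a' s' t' ω) (F.d ω) 2 -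
        2 ^ (q + (V + H)) * mco (fr σ a' s' t' ω) (F.d ω') 2| ≤ B / 2 ^ X := by
      rw [← mul_sub, abs_mul, abs_of_pos (by positivity : (0 : ℝ) < 2 ^ (q + (V + H)))]
      calc (2 : ℝ) ^ (q + (V + H)) * _ ≤ 2 ^ (q + (V + H)) * (B / 2 ^ (q + (V + H) + X)) :=
            mul_le_mul_of_nonneg_left v2 (by positivity)
        _ = B / 2 ^ X := by
            rw [pow_add _ (q + (V + H)) X]
            field_simp
    rw [← mul_sub, abs_mul, abs_of_pos hX]
    have y1 := abs_le.1 x1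
    have y2 := abs_le.1 x2
    have y3 := abs_le.1 x3
    have y4 : |Ocs.cc (fun j => om F σ q V H X a s t (Fin.castSucc j))
            (om F σ q V H X a s t 2) (SS V H a s t s' t') ω -
        Ocs.cc (fun j => om F σ q V H X a s t (Fin.castSucc j))
            (om F σ q V H X a s t 2) (SS V H a s t s' t') ω'| ≤
        B / 2 ^ X + 2 * ((1 + 2 * D) / 2 ^ X) := by
      rw [abs_le]
      constructor <;> linarith only [y1, y2, y3]
    calc 2 ^ X * _ ≤ 2 ^ X * (B / 2 ^ X + 2 * ((1 + 2 * D) / 2 ^ X)) :=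
          mul_le_mul_of_nonneg_left y4 hX.le
      _ = B + 2 * (1 + 2 * D) := by field_simp
  have kkv : CH (Pool.Agent.H49.Ent.cond F.p A True)
      (Uni.dg X (Ocs.kk (fun j => om F σ q V H X a s t (Fin.castSucc j)) (EE V a a')))
      (fun ω => ((ctx F σ w q V H a s t ω, gt F a' s' t' ω), pq F (σ 0) q ω)) ≤
      Real.log (2 * (B + 2 * (1 + D) + 1) + 1) := by
    refine Lab.CH_int_const hQ _ _ ?_
    intro ω ω' hω hω' h
    obtain ⟨h1, h2⟩ := Prod.ext_iff.mp h
    obtain ⟨h3, h4⟩ := Prod.ext_iff.mp h1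
    simp only at h2 h3 h4
    obtain ⟨g0, g1, g2, g3⟩ := gt_ext h4
    have hE0 := EE_det (F := F) hσ h3 h4
    have hmv := (Box.mlb_ext h3).2.2.2.1
    have v1 := hV.v1 ω ω' (hA ω hω) (hA ω' hω') h2
    refine fl_near _ _ (B + 2 * (1 + D)) ?_
    have ex : ∀ v : F.Ω, A v →
        |Ocs.kk (fun j => om F σ q V H X a s t (Fin.castSucc j)) (EE V a a') v -
        (2 ^ (q + V) * mco (fr σ a' s' t' v) (F.d v) 1 -
          (F.mvl (cv q V H) (fr σ a s t) v 1 -
            EE V a a' v * F.mvl (cv q V H) (fr σ a s t) v 0))| ≤ (1 + D) / 2 ^ X := by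
      intro v hv
      have r := vel_row1 σ q V (a v) (s v) (t v) (a' v) (s' v) (t' v) (F.d v)
      have o0 := omd 0 v
      have o1 := omd 1 v
      have s0 := EE_le hF hv
      have r' : 2 ^ (q + V) * mco (fr σ a' s' t' v) (F.d v) 1 =
          2 ^ (q + V) * mco (fr σ a s t v) (F.d v) 1 -
          EE V a a' v * (2 ^ q * mco (fr σ a s t v) (F.d v) 0) := r
      have e1 : Ocs.kk (fun j => om F σ q V H X a s t (Fin.castSucc j)) (EE V a a') v -
        (2 ^ (q + V) * mco (fr σ a' s' t' v) (F.d v) 1 -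
          (F.mvl (cv q V H) (fr σ a s t) v 1 -
            EE V a a' v * F.mvl (cv q V H) (fr σ a s t) v 0)) =
          (om F σ q V H X a s t 1 v - (2 ^ (cv q V H 1) * mco (fr σ a s t v) (F.d v) 1 -
            F.mvl (cv q V H) (fr σ a s t) v 1)) -
          EE V a a' v * (om F σ q V H X a s t 0 v -
            (2 ^ (cv q V H 0) * mco (fr σ a s t v) (F.d v) 0 -
            F.mvl (cv q V H) (fr σ a s t) v 0)) := by
        rw [r', cv0, cv1]
        unfold Ocs.kk
        have c0 : (Fin.castSucc (0 : Fin 2) : Fin 3) = 0 := rfl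
        have c1 : (Fin.castSucc (1 : Fin 2) : Fin 3) = 1 := rfl
        simp only [c0, c1]
        ring
      rw [e1]
      refine (abs_sub _ _).trans ?_
      have g5 : |EE V a a' v * (om F σ q V H X a s t 0 v -
            (2 ^ (cv q V H 0) * mco (fr σ a s t v) (F.d v) 0 -
            F.mvl (cv q V H) (fr σ a s t) v 0))| ≤ D * (1 / 2 ^ X) := by
        rw [abs_mul]
        exact mul_le_mul s0 o0 (abs_nonneg _) hD
      have e3 : (1 + D) / (2 : ℝ) ^ X = 1 / 2 ^ X + D * (1 / 2 ^ X) := by ring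
      rw [e3]
      linarith only [o1, g5]
    have x1 := ex ω (hA ω hω)
    have x2 := ex ω' (hA ω' hω')
    rw [← hE0, ← hmv] at x2
    have hfr : fr σ a' s' t' ω' = fr σ a' s' t' ω := by
      unfold fr
      rw [g1, g2, g3]
    rw [hfr] at x2
    have x3 : |2 ^ (q + V) * mco (fr σ a' s' t' ω) (F.d ω) 1 -
        2 ^ (q + V) * mco (fr σ a' s' t' ω) (F.d ω') 1| ≤ B / 2 ^ X := by
      rw [← mul_sub, abs_mul, abs_of_pos (by positivity : (0 : ℝ) < 2 ^ (q + V))]
      calc (2 : ℝ) ^ (q + V) * _ ≤ 2 ^ (q + V) * (B / 2 ^ (q + V + X)) :=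
            mul_le_mul_of_nonneg_left v1 (by positivity)
        _ = B / 2 ^ X := by
            rw [pow_add _ (q + V) X]
            field_simp
    rw [← mul_sub, abs_mul, abs_of_pos hX]
    have y1 := abs_le.1 x1
    have y2 := abs_le.1 x2
    have y3 := abs_le.1 x3
    have y4 : |Ocs.kk (fun j => om F σ q V H X a s t (Fin.castSucc j)) (EE V a a') ω -
        Ocs.kk (fun j => om F σ q V H X a s t (Fin.castSucc j)) (EE V a a') ω'| ≤
        B / 2 ^ X + 2 * ((1 + D) / 2 ^ X) := by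
      rw [abs_le]
      constructor <;> linarith only [y1, y2, y3]
    calc 2 ^ X * _ ≤ 2 ^ X * (B / 2 ^ X + 2 * ((1 + D) / 2 ^ X)) :=
          mul_le_mul_of_nonneg_left y4 hX.le
      _ = B + 2 * (1 + D) := by field_simp
  -- the sum
  have l1 : Real.log (2 * (B + 2 * (1 + 2 * D) + 1) + 1) ≤ Real.log (2 * K + 1) := by
    refine Real.log_le_log (by linarith only [hD, hB]) ?_
    rw [hK]
    linarith only [hB]
  have l2 : Real.log (2 * (B + 2 * (1 + D) + 1) + 1) ≤ Real.log (2 * K + 1) := by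
    refine Real.log_le_log (by linarith only [hD, hB]) ?_
    rw [hK]
    linarith only [hD, hB]
  have a1 := CH_subadd h0 (Ocs.dg2 X (Ocs.yt (fun j => yy F σ w q V H X a s t (Fin.castSucc j))
          (fun j => om F σ q V H X a s t (Fin.castSucc j)) (F.wt w)))
    (fun ω => (Uni.dg X (Ocs.cc (fun j => om F σ q V H X a s t (Fin.castSucc j))
            (om F σ q V H X a s t 2) (SS V H a s t s' t')) ω,
          Uni.dg X (Ocs.kk (fun j => om F σ q V H X a s t (Fin.castSucc j)) (EE V a a')) ω))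
    (fun ω => ((ctx F σ w q V H a s t ω, gt F a' s' t' ω), pq F (σ 0) q ω))
  have a2 := CH_subadd h0 (Uni.dg X (Ocs.cc (fun j => om F σ q V H X a s t (Fin.castSucc j))
            (om F σ q V H X a s t 2) (SS V H a s t s' t')))
    (Uni.dg X (Ocs.kk (fun j => om F σ q V H X a s t (Fin.castSucc j)) (EE V a a')))
    (fun ω => ((ctx F σ w q V H a s t ω, gt F a' s' t' ω), pq F (σ 0) q ω))
  have a3 := CH_subadd h0
    (Uni.dg X (Ocs.yt (fun j => yy F σ w q V H X a s t (Fin.castSucc j))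
          (fun j => om F σ q V H X a s t (Fin.castSucc j)) (F.wt w) 0))
    (Uni.dg X (Ocs.yt (fun j => yy F σ w q V H X a s t (Fin.castSucc j))
          (fun j => om F σ q V H X a s t (Fin.castSucc j)) (F.wt w) 1))
    (fun ω => ((ctx F σ w q V H a s t ω, gt F a' s' t' ω), pq F (σ 0) q ω))
  have a4 := pos 0
  have a5 := pos 1
  have a6 : CH (Pool.Agent.H49.Ent.cond F.p A True)
      (Ocs.dg2 X (Ocs.yt (fun j => yy F σ w q V H X a s t (Fin.castSucc j))
          (fun j => om F σ q V H X a s t (Fin.castSucc j)) (F.wt w)))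
      (fun ω => ((ctx F σ w q V H a s t ω, gt F a' s' t' ω), pq F (σ 0) q ω)) ≤
      Real.log (2 * K + 1) + Real.log (2 * K + 1) := a3.trans (add_le_add a4 a5)
  linarith only [ccv, kkv, l1, l2, a1, a2, a6]

/-- **(H4)** -/
theorem h4r (hσ : Function.Injective σ) (hF : Frg F A w V H D a s t a' s' t')
    (hV : Vis F A σ q V H X B a' s' t') (hD : 0 ≤ D) (hB : 1 ≤ B)
    (hBM : ∀ ω, A ω → ∀ i j, |fr σ a s t ω i j| ≤ B)
    (hQ : IsLaw (Pool.Agent.H49.Ent.cond F.p A True)) (hw : w ≤ J)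
    (hPX : q + (V + H) + w + X ≤ J) :
    CH (Pool.Agent.H49.Ent.cond F.p A True) (fun ω => ⌊(2 : ℝ) ^ (q + X) * F.d ω (σ 0)⌋)
        (pq F (σ 0) q) ≤
      CH (Pool.Agent.H49.Ent.cond F.p A True) (Uni.dg X (om F σ q V H X a s t (Fin.castSucc 0)))
        (fun ω => ((Ocs.dg2 X (Ocs.yt (fun j => yy F σ w q V H X a s t (Fin.castSucc j))
            (fun j => om F σ q V H X a s t (Fin.castSucc j)) (F.wt w)) ω,
          (Uni.dg X (Ocs.cc (fun j => om F σ q V H X a s t (Fin.castSucc j))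
              (om F σ q V H X a s t 2) (SS V H a s t s' t')) ω,
            Uni.dg X (Ocs.kk (fun j => om F σ q V H X a s t (Fin.castSucc j))
              (EE V a a')) ω)), (ctx F σ w q V H a s t ω, gt F a' s' t' ω))) +
      (3 * Real.log (2 * D + 1) +
        2 * (3 * Real.log (2 * (3 * (D + D ^ 2 + 1) * (2 * (3 * B + B))) + 3)) +
        4 * Real.log (2 * (3 * B + 4 * D + 10) + 1)) := by
  have h0 := hQ.nonneg
  obtain ⟨dt, hdt⟩ : ∃ dt : F.Ω → (ℤ × ℤ) × (ℤ × ℤ), dt = fun ω =>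
      (Ocs.dg2 X (Ocs.yt (fun j => yy F σ w q V H X a s t (Fin.castSucc j))
            (fun j => om F σ q V H X a s t (Fin.castSucc j)) (F.wt w)) ω,
          (Uni.dg X (Ocs.cc (fun j => om F σ q V H X a s t (Fin.castSucc j))
              (om F σ q V H X a s t 2) (SS V H a s t s' t')) ω,
            Uni.dg X (Ocs.kk (fun j => om F σ q V H X a s t (Fin.castSucc j))
              (EE V a a')) ω)) := ⟨_, rfl⟩
  have k1 := CH_ctx_pt hF hV hD hB hQ hw (by omega)
  have k2 := CH_data_pt hσ hF hV hD hB hBM hQ hw hPX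
  rw [← hdt] at k2
  have e0 : CH (Pool.Agent.H49.Ent.cond F.p A True)
      (Uni.dg X (om F σ q V H X a s t (Fin.castSucc 0)))
        (fun ω => ((Ocs.dg2 X (Ocs.yt (fun j => yy F σ w q V H X a s t (Fin.castSucc j))
            (fun j => om F σ q V H X a s t (Fin.castSucc j)) (F.wt w)) ω,
          (Uni.dg X (Ocs.cc (fun j => om F σ q V H X a s t (Fin.castSucc j))
              (om F σ q V H X a s t 2) (SS V H a s t s' t')) ω,
            Uni.dg X (Ocs.kk (fun j => om F σ q V H X a s t (Fin.castSucc j))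
              (EE V a a')) ω)), (ctx F σ w q V H a s t ω, gt F a' s' t' ω))) =
      CH (Pool.Agent.H49.Ent.cond F.p A True)
        (Uni.dg X (om F σ q V H X a s t (Fin.castSucc 0)))
        (fun ω => (dt ω, (ctx F σ w q V H a s t ω, gt F a' s' t' ω))) := by
    rw [hdt]
  rw [e0]
  -- the digits of the velocity
  have k3 : CH (Pool.Agent.H49.Ent.cond F.p A True)
      (fun ω => ⌊(2 : ℝ) ^ (q + X) * F.d ω (σ 0)⌋) (pq F (σ 0) q) ≤
      CH (Pool.Agent.H49.Ent.cond F.p A True)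
        (Uni.dg X (om F σ q V H X a s t (Fin.castSucc 0))) (pq F (σ 0) q) := by
    refine CH_mono_left h0 fun ω ω' _ _ h => ?_
    obtain ⟨h1, h2⟩ := Prod.ext_iff.mp h
    obtain ⟨e1, e2, e3, e4, e5⟩ := pq_ext h2
    have c0 : (Fin.castSucc (0 : Fin 2) : Fin 3) = 0 := rfl
    have d1 : ∀ v : F.Ω, Uni.dg X (om F σ q V H X a s t (Fin.castSucc 0)) v =
        ⌊(2 : ℝ) ^ (q + X) * F.d v (σ 0)⌋ - 2 ^ X * ⌊(2 : ℝ) ^ q * F.d v (σ 0)⌋ := by
      intro v
      rw [dg_om (w := w)]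
      show ⌊(2 : ℝ) ^ X * F.md (cv q V H) (fr σ a s t) v (Fin.castSucc 0)⌋ = _
      rw [Box.fl_md, c0]
      unfold Fam.mvl flk fr
      rw [Box.mco_tfr0]
      rfl
    have h3 : Uni.dg X (om F σ q V H X a s t (Fin.castSucc 0)) ω =
        Uni.dg X (om F σ q V H X a s t (Fin.castSucc 0)) ω' := h1
    rw [d1, d1, e1] at h3
    linarith only [h3]
  have k4 := CH_le_add h0 (Uni.dg X (om F σ q V H X a s t (Fin.castSucc 0)))
    (fun ω => (dt ω, (ctx F σ w q V H a s t ω, gt F a' s' t' ω))) (pq F (σ 0) q)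
  have k5 := CH_chain h0 dt (fun ω => (ctx F σ w q V H a s t ω, gt F a' s' t' ω))
    (pq F (σ 0) q)
  have k6 : CH (Pool.Agent.H49.Ent.cond F.p A True)
      (Uni.dg X (om F σ q V H X a s t (Fin.castSucc 0)))
      (fun ω => ((dt ω, (ctx F σ w q V H a s t ω, gt F a' s' t' ω)), pq F (σ 0) q ω)) ≤
      CH (Pool.Agent.H49.Ent.cond F.p A True)
        (Uni.dg X (om F σ q V H X a s t (Fin.castSucc 0)))
        (fun ω => (dt ω, (ctx F σ w q V H a s t ω, gt F a' s' t' ω))) :=
    CH_mono_cond h0 fun ω ω' _ _ h => (Prod.ext_iff.mp h).1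
  linarith only [k1, k2, k3, k4, k5, k6]

end fam3

end Pool.S6N
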