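import Pool.Agent.H97.S6.H1R

/-!
# (H2) in the contexts: the chain with a fixed row

The normal position in the exact frame is the same variable for all windows.
-/

set_option autoImplicit false

namespace Pool.S6N

open Finset Real
open Pool.Agent.H49.Ent Pool.Agent.H32.Dense Pool.STK Pool.KA Pool.KSAT Pool.K2S

variable {J : ℕ}

/-- The position in the direction of the exact normal form. -/
noncomputable def ps (F : Fam 3 J) (σ : Fin 3 → Fin 3) (a' s' t' : F.Ω → ℝ) (ω : F.Ω) : ℝ :=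
  ∑ j, fr σ a' s' t' ω 2 j * F.x ω j

/-- The coefficients of the exact normal form in the context. -/
noncomputable def S3 {Ω : Type} (w q V H : ℕ) (a s t s' t' : Ω → ℝ) (ω : Ω) : Fin 3 → ℝ :=
  Box.tsl (fun i => cv q V H i + w) (q + (V + H) + w) (s' ω - s ω)
    ((t' ω - t ω) + (s' ω - s ω) * a ω)

section fam3

variable {F : Fam 3 J} {A : F.Ω → Prop} {σ : Fin 3 → Fin 3} {w q V H X : ℕ} {D : ℝ}
  {a s t a' s' t' : F.Ω → ℝ}

theorem S3_eq (w q V H : ℕ) (a s t s' t' : F.Ω → ℝ) (ω : F.Ω) :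
    S3 w q V H a s t s' t' ω =
      ![-SS V H a s t s' t' 0 ω, -SS V H a s t s' t' 1 ω, 1] := by
  have e0 : (2 : ℝ) ^ (q + (V + H) + w) = 2 ^ (q + w) * 2 ^ (V + H) := by
    rw [← pow_add]
    congr 1
    omega
  have e1 : (2 : ℝ) ^ (q + (V + H) + w) = 2 ^ (q + V + w) * 2 ^ H := by
    rw [← pow_add]
    congr 1
    omega
  have n0 : (2 : ℝ) ^ (q + w) ≠ 0 := by positivity
  have n1 : (2 : ℝ) ^ (q + V + w) ≠ 0 := by positivity
  funext j
  fin_cases j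
  · show 2 ^ (q + (V + H) + w) / 2 ^ (q + w) * -((t' ω - t ω) + (s' ω - s ω) * a ω) =
      -(2 ^ (V + H) * ((t' ω - t ω) + (s' ω - s ω) * a ω))
    rw [e0]
    field_simp
  · show 2 ^ (q + (V + H) + w) / 2 ^ (q + V + w) * -(s' ω - s ω) = -(2 ^ H * (s' ω - s ω))
    rw [e1]
    field_simp
  · show (2 : ℝ) ^ (q + (V + H) + w) / 2 ^ (q + (V + H) + w) = 1
    rw [div_self (by positivity)]

/-- The known part of the row. -/
noncomputable def kn (F : Fam 3 J) (σ : Fin 3 → Fin 3) (w q V H : ℕ) (a s t s' t' : F.Ω → ℝ)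
    (ω : F.Ω) : ℝ :=
  F.mrk w (cv q V H) (fr σ a s t) (S3 w q V H a s t s' t') ω

theorem kn_det (hσ : Function.Injective σ) {ω ω' : F.Ω}
    (h : ctx F σ w q V H a s t ω = ctx F σ w q V H a s t ω')
    (h' : gt F a' s' t' ω = gt F a' s' t' ω') :
    kn F σ w q V H a s t s' t' ω = kn F σ w q V H a s t s' t' ω' := by
  refine Box.mrk_det h (gt_ext h').1 ?_
  rw [S3_eq, S3_eq, SS_det hσ 0 h h', SS_det hσ 1 h h']

/-- The row and the position. -/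
theorem nn_ps (hF : Frg F A w V H D a s t a' s' t') (hw : w ≤ J) (hD : 0 ≤ D) {ω : F.Ω}
    (hω : A ω) : |2 ^ (q + (V + H) + w) * ps F σ a' s' t' ω - nn F σ w q V H X a s t s' t' ω -
      kn F σ w q V H a s t s' t' ω| ≤ (2 + 4 * D) / 2 ^ X := by
  have h1 := Box.row_eq F hw (c := cv q V H) (M := fr σ a s t) (S := S3 w q V H a s t s' t')
    (ω := ω) (n := fr σ a' s' t' ω 2) (k := q + (V + H) + w)
    (Box.cf_tfr σ (fun i => cv q V H i + w) (q + (V + H) + w) (a ω) (s ω) (t ω) (a' ω) (s' ω)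
      (t' ω))
  have h2 : 2 ^ (q + (V + H) + w) * ps F σ a' s' t' ω - nn F σ w q V H X a s t s' t' ω -
      kn F σ w q V H a s t s' t' ω =
      F.mr w (cv q V H) (fr σ a s t) (S3 w q V H a s t s' t') ω -
        nn F σ w q V H X a s t s' t' ω := by
    unfold ps kn
    rw [h1]
    ring
  rw [h2]
  have h3 : F.mr w (cv q V H) (fr σ a s t) (S3 w q V H a s t s' t') ω =
      F.mx w (cv q V H) (fr σ a s t) ω 2 -
        SS V H a s t s' t' 0 ω * F.mx w (cv q V H) (fr σ a s t) ω 0 -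
        SS V H a s t s' t' 1 ω * F.mx w (cv q V H) (fr σ a s t) ω 1 := by
    unfold Fam.mr
    rw [Fin.sum_univ_three, S3_eq]
    simp only [Matrix.cons_val_zero, Matrix.cons_val_one, Matrix.cons_val_two,
      Matrix.tail_cons, Matrix.head_cons]
    ring
  rw [h3]
  have hwt := Lab.wt_mem F w ω
  have b : ∀ i : Fin 3, |F.mx w (cv q V H) (fr σ a s t) ω i -
      (yy F σ w q V H X a s t i ω + F.wt w ω * om F σ q V H X a s t i ω)| ≤ 2 / 2 ^ X := by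
    intro i
    have k1 := floor_div_near (F.mu w (fun i => cv q V H i + w) (fr σ a s t) ω i) X
    have k2 := floor_div_near (F.md (cv q V H) (fr σ a s t) ω i) X
    have e1 : F.mx w (cv q V H) (fr σ a s t) ω i -
      (yy F σ w q V H X a s t i ω + F.wt w ω * om F σ q V H X a s t i ω) =
      -(yy F σ w q V H X a s t i ω - F.mu w (fun i => cv q V H i + w) (fr σ a s t) ω i) -
        F.wt w ω * (om F σ q V H X a s t i ω - F.md (cv q V H) (fr σ a s t) ω i) := by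
      unfold Fam.mx
      ring
    rw [e1]
    refine (abs_sub _ _).trans ?_
    rw [abs_neg, abs_mul, abs_of_nonneg hwt.1]
    have k3 : F.wt w ω * |om F σ q V H X a s t i ω - F.md (cv q V H) (fr σ a s t) ω i| ≤
        1 * (1 / 2 ^ X) := mul_le_mul hwt.2.le k2 (abs_nonneg _) zero_le_one
    have e2 : (2 : ℝ) / 2 ^ X = 1 / 2 ^ X + 1 * (1 / 2 ^ X) := by ring
    rw [e2]
    exact add_le_add k1 k3
  have e4 : F.mx w (cv q V H) (fr σ a s t) ω 2 -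
        SS V H a s t s' t' 0 ω * F.mx w (cv q V H) (fr σ a s t) ω 0 -
        SS V H a s t s' t' 1 ω * F.mx w (cv q V H) (fr σ a s t) ω 1 -
      nn F σ w q V H X a s t s' t' ω =
      (F.mx w (cv q V H) (fr σ a s t) ω 2 -
        (yy F σ w q V H X a s t 2 ω + F.wt w ω * om F σ q V H X a s t 2 ω)) -
      SS V H a s t s' t' 0 ω * (F.mx w (cv q V H) (fr σ a s t) ω 0 -
        (yy F σ w q V H X a s t 0 ω + F.wt w ω * om F σ q V H X a s t 0 ω)) -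
      SS V H a s t s' t' 1 ω * (F.mx w (cv q V H) (fr σ a s t) ω 1 -
        (yy F σ w q V H X a s t 1 ω + F.wt w ω * om F σ q V H X a s t 1 ω)) := by
    unfold nn
    rw [Fin.sum_univ_two]
    have c0 : (Fin.castSucc (0 : Fin 2) : Fin 3) = 0 := rfl
    have c1 : (Fin.castSucc (1 : Fin 2) : Fin 3) = 1 := rfl
    rw [c0, c1]
    ring
  rw [e4]
  refine (abs_sub _ _).trans ?_
  have g0 : |SS V H a s t s' t' 0 ω * (F.mx w (cv q V H) (fr σ a s t) ω 0 -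
        (yy F σ w q V H X a s t 0 ω + F.wt w ω * om F σ q V H X a s t 0 ω))| ≤
        D * (2 / 2 ^ X) := by
    rw [abs_mul]
    exact mul_le_mul (SS_le hF 0 hω) (b 0) (abs_nonneg _) hD
  have g1 : |SS V H a s t s' t' 1 ω * (F.mx w (cv q V H) (fr σ a s t) ω 1 -
        (yy F σ w q V H X a s t 1 ω + F.wt w ω * om F σ q V H X a s t 1 ω))| ≤
        D * (2 / 2 ^ X) := by
    rw [abs_mul]
    exact mul_le_mul (SS_le hF 1 hω) (b 1) (abs_nonneg _) hD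
  have g2 := abs_sub (F.mx w (cv q V H) (fr σ a s t) ω 2 -
        (yy F σ w q V H X a s t 2 ω + F.wt w ω * om F σ q V H X a s t 2 ω))
      (SS V H a s t s' t' 0 ω * (F.mx w (cv q V H) (fr σ a s t) ω 0 -
        (yy F σ w q V H X a s t 0 ω + F.wt w ω * om F σ q V H X a s t 0 ω)))
  have e5 : (2 + 4 * D) / 2 ^ X = 2 / 2 ^ X + D * (2 / 2 ^ X) + D * (2 / 2 ^ X) := by ring
  rw [e5]
  have := b 2
  linarith

/-- The digits of the part `V` of the line. -/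
noncomputable def vb (F : Fam 3 J) (σ : Fin 3 → Fin 3) (w q V H X : ℕ) (a s t : F.Ω → ℝ)
    (ω : F.Ω) : (ℤ × ℤ) × ((ℤ × ℤ) × ℤ) :=
  (Ocs.dg2 X (fun j => yy F σ w q V H X a s t (Fin.castSucc j)) ω,
    (Ocs.dg2 X (fun j => om F σ q V H X a s t (Fin.castSucc j)) ω,
      Uni.dg X (om F σ q V H X a s t 2) ω))

theorem dg_floor {Ω : Type} (X : ℕ) (x : Ω → ℝ) (ω : Ω) :
    Uni.dg X (fun ω => (⌊(2 : ℝ) ^ X * x ω⌋ : ℝ) / 2 ^ X) ω = ⌊(2 : ℝ) ^ X * x ω⌋ := by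
  unfold Uni.dg
  have e : (2 : ℝ) ^ X * ((⌊(2 : ℝ) ^ X * x ω⌋ : ℝ) / 2 ^ X) = (⌊(2 : ℝ) ^ X * x ω⌋ : ℤ) := by
    field_simp
  rw [e, Int.floor_intCast]

theorem dg_yy (i : Fin 3) (ω : F.Ω) : Uni.dg X (yy F σ w q V H X a s t i) ω =
    (blk F σ w q V H X a s t ω).1 i :=
  dg_floor X (fun ω => F.mu w (fun i => cv q V H i + w) (fr σ a s t) ω i) ω

theorem dg_om (i : Fin 3) (ω : F.Ω) : Uni.dg X (om F σ q V H X a s t i) ω =
    (blk F σ w q V H X a s t ω).2 i :=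
  dg_floor X (fun ω => F.md (cv q V H) (fr σ a s t) ω i) ω

/-- The exponents of the label with the digits of the part `V`. -/
def kp (w q V H X : ℕ) (i : Fin 3) : ℕ := ![q + w + X, q + V + w + X, q + (V + H) + w] i

theorem vb_of_mlb {ω ω' : F.Ω} (h : F.mlb w (kp w q V H X) (cv (q + X) V H) (fr σ a s t) ω =
    F.mlb w (kp w q V H X) (cv (q + X) V H) (fr σ a s t) ω') :
    ctx F σ w q V H a s t ω = ctx F σ w q V H a s t ω' ∧
      vb F σ w q V H X a s t ω = vb F σ w q V H X a s t ω' := by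
  have h1 : ctx F σ w q V H a s t ω = ctx F σ w q V H a s t ω' := by
    refine mlb_coarse F ?_ ?_ h
    · intro i
      fin_cases i
      · show q + w ≤ q + w + X
        omega
      · show q + V + w ≤ q + V + w + X
        omega
      · exact le_rfl
    · intro i
      rw [cv_add]
      exact Nat.le_add_right _ _
  obtain ⟨k1, k2, k3, k4, k5⟩ := Box.mlb_ext h
  obtain ⟨g1, g2, g3, g4, g5⟩ := Box.mlb_ext h1
  have mu0 : ∀ j : Fin 2, (blk F σ w q V H X a s t ω).1 (Fin.castSucc j) =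
      (blk F σ w q V H X a s t ω').1 (Fin.castSucc j) := by
    intro j
    show ⌊(2 : ℝ) ^ X * F.mu w (fun i => cv q V H i + w) (fr σ a s t) ω (Fin.castSucc j)⌋ =
      ⌊(2 : ℝ) ^ X * F.mu w (fun i => cv q V H i + w) (fr σ a s t) ω' (Fin.castSucc j)⌋
    rw [Box.fl_mu, Box.fl_mu]
    have e1 := congrFun k3 (Fin.castSucc j)
    have e2 := congrFun g3 (Fin.castSucc j)
    have e3 : ∀ v, F.mps w (fun i => cv q V H i + w + X) (fr σ a s t) v (Fin.castSucc j) =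
        F.mps w (kp w q V H X) (fr σ a s t) v (Fin.castSucc j) := by
      intro v
      fin_cases j <;> rfl
    rw [e3, e3, e1, e2]
  have md0 : ∀ i : Fin 3, (blk F σ w q V H X a s t ω).2 i = (blk F σ w q V H X a s t ω').2 i := by
    intro i
    show ⌊(2 : ℝ) ^ X * F.md (cv q V H) (fr σ a s t) ω i⌋ =
      ⌊(2 : ℝ) ^ X * F.md (cv q V H) (fr σ a s t) ω' i⌋
    rw [Box.fl_md, Box.fl_md]
    have e1 := congrFun k4 i
    have e2 := congrFun g4 i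
    rw [cv_add] at e1
    rw [e1, e2]
  refine ⟨h1, ?_⟩
  have eo : ∀ (i : Fin 3) (v : F.Ω), Uni.dg X (om F σ q V H X a s t i) v =
      (blk F σ w q V H X a s t v).2 i := fun i v => dg_om i v
  unfold vb Ocs.dg2
  simp only [dg_yy, eo, mu0, md0]

/-- The frames of two windows. -/
theorem frg_near (hF : Frg F A w V H D a s t a' s' t') {w₁ V₁ H₁ : ℕ} {a₁ s₁ t₁ : F.Ω → ℝ}
    (hF₁ : Frg F A w₁ V₁ H₁ D a₁ s₁ t₁ a' s' t') (hD : 0 ≤ D) (hV : V₁ ≤ V) (hH : H₁ ≤ H)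
    {ω : F.Ω} (hω : A ω) :
    |a ω - a₁ ω| ≤ (2 * D + 2 * D ^ 2 + 1) / 2 ^ V₁ ∧
      |s ω - s₁ ω| ≤ (2 * D + 2 * D ^ 2 + 1) / 2 ^ H₁ ∧
      |(t ω - t₁ ω) + (s ω - s₁ ω) * a₁ ω| ≤ (2 * D + 2 * D ^ 2 + 1) / 2 ^ (V₁ + H₁) := by
  have m1 := Box.div_pow_mono hD hV
  have m2 := Box.div_pow_mono hD hH
  have m3 := Box.div_pow_mono hD (Nat.add_le_add hV hH)
  have c1 := hF.ca ω hω
  have c2 := hF₁.ca ω hω
  have d1 := hF.cs ω hω
  have d2 := hF₁.cs ω hω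
  have f1 := hF.ct ω hω
  have f2 := hF₁.ct ω hω
  have big : ∀ n : ℕ, 2 * D / (2 : ℝ) ^ n ≤ (2 * D + 2 * D ^ 2 + 1) / 2 ^ n := fun n =>
    div_le_div_of_nonneg_right (by nlinarith [sq_nonneg D]) (by positivity)
  have a1 : |a ω - a₁ ω| ≤ 2 * D / 2 ^ V₁ := by
    have e : a ω - a₁ ω = (a' ω - a₁ ω) - (a' ω - a ω) := by ring
    rw [e]
    refine (abs_sub _ _).trans ?_
    have e2 : 2 * D / (2 : ℝ) ^ V₁ = D / 2 ^ V₁ + D / 2 ^ V₁ := by ring
    rw [e2]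
    linarith
  have a2 : |s ω - s₁ ω| ≤ 2 * D / 2 ^ H₁ := by
    have e : s ω - s₁ ω = (s' ω - s₁ ω) - (s' ω - s ω) := by ring
    rw [e]
    refine (abs_sub _ _).trans ?_
    have e2 : 2 * D / (2 : ℝ) ^ H₁ = D / 2 ^ H₁ + D / 2 ^ H₁ := by ring
    rw [e2]
    linarith
  refine ⟨a1.trans (big _), a2.trans (big _), ?_⟩
  have e : (t ω - t₁ ω) + (s ω - s₁ ω) * a₁ ω = ((t' ω - t₁ ω) + (s' ω - s₁ ω) * a₁ ω) -
      ((t' ω - t ω) + (s' ω - s ω) * a ω) + (s' ω - s ω) * (a ω - a₁ ω) := by ring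
  rw [e]
  refine (abs_add_le _ _).trans ?_
  have g1 := abs_sub ((t' ω - t₁ ω) + (s' ω - s₁ ω) * a₁ ω)
    ((t' ω - t ω) + (s' ω - s ω) * a ω)
  have g2 : |(s' ω - s ω) * (a ω - a₁ ω)| ≤ (D / 2 ^ H₁) * (2 * D / 2 ^ V₁) := by
    rw [abs_mul]
    exact mul_le_mul (d1.trans m2) a1 (abs_nonneg _) (by positivity)
  have g3 : (D / 2 ^ H₁) * (2 * D / 2 ^ V₁) = 2 * D ^ 2 / 2 ^ (V₁ + H₁) := by
    rw [pow_add]
    field_simp
  have g4 : (2 * D + 2 * D ^ 2 + 1) / (2 : ℝ) ^ (V₁ + H₁) =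
      D / 2 ^ (V₁ + H₁) + D / 2 ^ (V₁ + H₁) + 2 * D ^ 2 / 2 ^ (V₁ + H₁) +
        1 / 2 ^ (V₁ + H₁) := by ring
  have g5 : (0 : ℝ) ≤ 1 / 2 ^ (V₁ + H₁) := by positivity
  rw [g4]
  rw [g3] at g2
  linarith

/-- The frames are known given the exact frame. -/
theorem CH_fr (hF : Frg F A w V H D a s t a' s' t') (hD : 0 ≤ D)
    (hQ : IsLaw (Pool.Agent.H49.Ent.cond F.p A True)) {β : Type} (b : F.Ω → β) :
    CH (Pool.Agent.H49.Ent.cond F.p A True) (fun ω => (t ω, (s ω, a ω)))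
        (fun ω => (b ω, gt F a' s' t' ω)) ≤ 3 * Real.log (2 * D + 1) := by
  have hA : ∀ ω, 0 < Pool.Agent.H49.Ent.cond F.p A True ω → A ω := fun ω hω =>
    of_eq_true ((cond_pos_iff F.isLaw.nonneg A True ω).1 hω).2
  have h0 := hQ.nonneg
  have c1 := CH_grid1 hQ a (fun ω => (b ω, gt F a' s' t' ω)) a'
    (fun ω ω' _ _ h => (gt_ext (Prod.ext_iff.mp h).2).2.1) (le_refl V) hD hF.ga
    (fun ω hω => by rw [abs_sub_comm]; exact hF.ca ω (hA ω hω))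
  have c2 : CH (Pool.Agent.H49.Ent.cond F.p A True) s
      (fun ω => (a ω, (b ω, gt F a' s' t' ω))) ≤
      ((H - H : ℕ) : ℝ) * Real.log 2 + Real.log (2 * D + 1) := by
    rcases hF.gs with hs | hs
    · refine (le_of_eq (CH_eq_zero h0 fun ω ω' _ _ h => ?_)).trans ?_
      · have h1 := (gt_ext (Prod.ext_iff.mp (Prod.ext_iff.mp h).2).2).2.2.1
        rw [hs, hs, h1]
      · have := Real.log_nonneg (by linarith : (1 : ℝ) ≤ 2 * D + 1)
        have h2 := Real.log_nonneg (by norm_num : (1 : ℝ) ≤ 2)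
        positivity
    · exact CH_grid1 hQ s (fun ω => (a ω, (b ω, gt F a' s' t' ω))) s'
        (fun ω ω' _ _ h => (gt_ext (Prod.ext_iff.mp (Prod.ext_iff.mp h).2).2).2.2.1) (le_refl H) hD
        hs (fun ω hω => by rw [abs_sub_comm]; exact hF.cs ω (hA ω hω))
  have c3 := CH_grid1 hQ t (fun ω => ((s ω, a ω), (b ω, gt F a' s' t' ω)))
    (fun ω => t' ω + (s' ω - s ω) * a ω)
    (fun ω ω' _ _ h => by
      have h1 := Prod.ext_iff.mp (Prod.ext_iff.mp h).1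
      obtain ⟨g0, g1, g2, g3⟩ := gt_ext (Prod.ext_iff.mp (Prod.ext_iff.mp h).2).2
      have h2 : s ω = s ω' := h1.1
      have h3 : a ω = a ω' := h1.2
      show t' ω + (s' ω - s ω) * a ω = t' ω' + (s' ω' - s ω') * a ω'
      rw [h2, h3, g2, g3]) (le_refl (V + H)) hD hF.gt
    (fun ω hω => by
      have h1 := hF.ct ω (hA ω hω)
      rw [abs_sub_comm]
      have e : t' ω + (s' ω - s ω) * a ω - t ω = (t' ω - t ω) + (s' ω - s ω) * a ω := by ring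
      rw [e]
      exact h1)
  have d1 := CH_chain h0 t (fun ω => (s ω, a ω)) (fun ω => (b ω, gt F a' s' t' ω))
  have d2 := CH_chain h0 s a (fun ω => (b ω, gt F a' s' t' ω))
  simp only [Nat.sub_self, Nat.cast_zero, zero_mul, zero_add] at c1 c2 c3
  linarith

/-- **One step of the chain with a fixed row.** -/
theorem h2_step (hF : Frg F A w V H D a s t a' s' t') {w₁ q₁ V₁ H₁ : ℕ}
    {a₁ s₁ t₁ : F.Ω → ℝ} (hF₁ : Frg F A w₁ V₁ H₁ D a₁ s₁ t₁ a' s' t')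
    (hD : 0 ≤ D) (hQ : IsLaw (Pool.Agent.H49.Ent.cond F.p A True)) (hw : w ≤ J)
    (hwX : w₁ + X ≤ w) (hRX : V₁ + H₁ + X ≤ V + H) (hHX : H₁ + X ≤ H) (hV : V₁ ≤ V)
    (hP : q + (V + H) + w = q₁ + (V₁ + H₁) + w₁) :
    CH (Pool.Agent.H49.Ent.cond F.p A True)
        (fun ω => (vb F σ w q V H X a s t ω, ctx F σ w q V H a s t ω))
        (fun ω => (ctx F σ w₁ q₁ V₁ H₁ a₁ s₁ t₁ ω, gt F a' s' t' ω)) ≤
      3 * Real.log (2 * D + 1) +
        2 * (3 * Real.log (4 * 3 * (2 * D + 2 * D ^ 2 + 1) + 3)) := by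
  have hA : ∀ ω, 0 < Pool.Agent.H49.Ent.cond F.p A True ω → A ω := fun ω hω =>
    of_eq_true ((cond_pos_iff F.isLaw.nonneg A True ω).1 hω).2
  have h0 := hQ.nonneg
  obtain ⟨D', hD'⟩ : ∃ D', D' = 2 * D + 2 * D ^ 2 + 1 := ⟨_, rfl⟩
  have hD'1 : 1 ≤ D' := by rw [hD']; nlinarith [sq_nonneg D]
  have bd : ∀ (x : ℝ) (n u v : ℕ), |x| ≤ D' / 2 ^ n → v ≤ n + u → |x| ≤ D' * 2 ^ u / 2 ^ v := by
    intro x n u v hx huv
    refine hx.trans ?_
    rw [div_le_div_iff₀ (by positivity) (by positivity)]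
    have e1 : (2 : ℝ) ^ v ≤ 2 ^ (n + u) := pow_le_pow_right₀ (by norm_num) huv
    rw [pow_add] at e1
    have e2 : 0 ≤ D' := by linarith
    nlinarith [mul_le_mul_of_nonneg_left e1 e2]
  have k1 : CH (Pool.Agent.H49.Ent.cond F.p A True)
      (F.mlb w (kp w q V H X) (cv (q + X) V H) (fr σ a s t))
      (fun ω => ((t ω, (s ω, a ω)), (ctx F σ w₁ q₁ V₁ H₁ a₁ s₁ t₁ ω, gt F a' s' t' ω))) ≤
      2 * ((3 : ℕ) * Real.log (4 * (3 : ℕ) * D' + 3)) := by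
    refine Box.CH_mlb (F := F) (g := w₁) (g' := w) (k := fun i => cv q₁ V₁ H₁ i + w₁)
      (c := cv q₁ V₁ H₁) (kk := fun i => cv q₁ V₁ H₁ i + w₁) (M := fr σ a₁ s₁ t₁) hQ
      (by omega) hw (by linarith) (fun _ => le_rfl) (fun i => by
        have : min w₁ w = w₁ := min_eq_left (by omega)
        rw [this]) ?_ _ ?_
    · intro ω hω
      obtain ⟨n1, n2, n3⟩ := frg_near hF hF₁ hD hV (by omega : H₁ ≤ H) (hA ω hω)
      rw [← hD'] at n1 n2 n3
      refine ⟨_, Box.cg_tfr σ (a₁ ω) (s₁ ω) (t₁ ω) (a ω) (s ω) (t ω), ?_, ?_⟩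
      · refine Box.tch_le hD'1 ?_ ?_ ?_ ?_ ?_ ?_
        · show q + w + X ≤ q₁ + w₁
          omega
        · show q + V + w + X ≤ q₁ + V₁ + w₁
          omega
        · show q + (V + H) + w ≤ q₁ + (V₁ + H₁) + w₁
          omega
        · refine bd _ _ _ _ n1 ?_
          show q + V + w + X ≤ V₁ + (q₁ + w₁)
          omega
        · refine bd _ _ _ _ n2 ?_
          show q + (V + H) + w ≤ H₁ + (q₁ + V₁ + w₁)
          omega
        · refine bd _ _ _ _ n3 ?_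
          show q + (V + H) + w ≤ V₁ + H₁ + (q₁ + w₁)
          omega
      · refine Box.tch_le hD'1 ?_ ?_ ?_ ?_ ?_ ?_
        · show q + X ≤ q₁
          omega
        · show q + X + V ≤ q₁ + V₁
          omega
        · show q + X + (V + H) ≤ q₁ + (V₁ + H₁)
          omega
        · refine bd _ _ _ _ n1 ?_
          show q + X + V ≤ V₁ + q₁
          omega
        · refine bd _ _ _ _ n2 ?_
          show q + X + (V + H) ≤ H₁ + (q₁ + V₁)
          omega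
        · refine bd _ _ _ _ n3 ?_
          show q + X + (V + H) ≤ V₁ + H₁ + q₁
          omega
    · intro ω ω' _ _ h
      have h1 := Prod.ext_iff.mp h
      have h2 := Prod.ext_iff.mp h1.2
      have h3 := Prod.ext_iff.mp h1.1
      have h4 := Prod.ext_iff.mp h3.2
      refine ⟨h2.1, Lab.T1_of_T (gt_ext h2.2).1, ?_⟩
      show tfr σ (a ω) (s ω) (t ω) = tfr σ (a ω') (s ω') (t ω')
      have e1 : t ω = t ω' := h3.1
      have e2 : s ω = s ω' := h4.1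
      have e3 : a ω = a ω' := h4.2
      rw [e1, e2, e3]
  have k2 := CH_fr hF hD hQ (ctx F σ w₁ q₁ V₁ H₁ a₁ s₁ t₁)
  have k3 := CH_le_add h0 (fun ω => (vb F σ w q V H X a s t ω, ctx F σ w q V H a s t ω))
    (fun ω => (t ω, (s ω, a ω)))
    (fun ω => (ctx F σ w₁ q₁ V₁ H₁ a₁ s₁ t₁ ω, gt F a' s' t' ω))
  have k4 : CH (Pool.Agent.H49.Ent.cond F.p A True)
      (fun ω => (vb F σ w q V H X a s t ω, ctx F σ w q V H a s t ω))
      (fun ω => ((t ω, (s ω, a ω)), (ctx F σ w₁ q₁ V₁ H₁ a₁ s₁ t₁ ω, gt F a' s' t' ω))) ≤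
      CH (Pool.Agent.H49.Ent.cond F.p A True)
        (F.mlb w (kp w q V H X) (cv (q + X) V H) (fr σ a s t))
        (fun ω => ((t ω, (s ω, a ω)), (ctx F σ w₁ q₁ V₁ H₁ a₁ s₁ t₁ ω, gt F a' s' t' ω))) :=
    CH_mono_left h0 fun ω ω' _ _ h => by
      obtain ⟨e1, e2⟩ := vb_of_mlb (Prod.ext_iff.mp h).1
      exact Prod.ext e2 e1
  rw [hD'] at k1
  push_cast at k1
  linarith

/-- The rows of two contexts. -/
theorem h2_row (hσ : Function.Injective σ) (hF : Frg F A w V H D a s t a' s' t')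
    {w₁ q₁ V₁ H₁ : ℕ} {a₁ s₁ t₁ : F.Ω → ℝ} (hF₁ : Frg F A w₁ V₁ H₁ D a₁ s₁ t₁ a' s' t')
    (hD : 0 ≤ D) (hQ : IsLaw (Pool.Agent.H49.Ent.cond F.p A True)) (hw : w ≤ J) (hw₁ : w₁ ≤ J)
    (hP : q + (V + H) + w = q₁ + (V₁ + H₁) + w₁) :
    CH (Pool.Agent.H49.Ent.cond F.p A True) (Uni.dg X (nn F σ w₁ q₁ V₁ H₁ X a₁ s₁ t₁ s' t'))
        (fun ω => (Uni.dg X (nn F σ w q V H X a s t s' t') ω, (ctx F σ w q V H a s t ω,
          (ctx F σ w₁ q₁ V₁ H₁ a₁ s₁ t₁ ω, gt F a' s' t' ω)))) ≤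
      Real.log (2 * (5 + 8 * D) + 1) := by
  have hA : ∀ ω, 0 < Pool.Agent.H49.Ent.cond F.p A True ω → A ω := fun ω hω =>
    of_eq_true ((cond_pos_iff F.isLaw.nonneg A True ω).1 hω).2
  refine Sel.CH_near hQ _ _ (fun ω => (Uni.dg X (nn F σ w q V H X a s t s' t') ω : ℝ) +
    2 ^ X * (kn F σ w q V H a s t s' t' ω - kn F σ w₁ q₁ V₁ H₁ a₁ s₁ t₁ s' t' ω)) ?_
    (by linarith) ?_
  · intro ω ω' _ _ h
    obtain ⟨h1, h2⟩ := Prod.ext_iff.mp h
    obtain ⟨h3, h4⟩ := Prod.ext_iff.mp h2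
    obtain ⟨h5, h6⟩ := Prod.ext_iff.mp h4
    simp only at h1 h3 h5 h6
    have k1 := kn_det hσ h3 h6
    have k2 := kn_det hσ h5 h6
    simp only
    rw [h1, k1, k2]
  · intro ω hω
    have n1 := nn_ps (X := X) (q := q) (σ := σ) hF hw hD (hA ω hω)
    have n2 := nn_ps (X := X) (q := q₁) (σ := σ) hF₁ hw₁ hD (hA ω hω)
    rw [← hP] at n2
    have hX : (0 : ℝ) < 2 ^ X := by positivity
    have e1 : |2 ^ X * (nn F σ w₁ q₁ V₁ H₁ X a₁ s₁ t₁ s' t' ω) -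
        (2 ^ X * nn F σ w q V H X a s t s' t' ω +
          2 ^ X * (kn F σ w q V H a s t s' t' ω - kn F σ w₁ q₁ V₁ H₁ a₁ s₁ t₁ s' t' ω))| ≤
        4 + 8 * D := by
      have e2 : 2 ^ X * (nn F σ w₁ q₁ V₁ H₁ X a₁ s₁ t₁ s' t' ω) -
        (2 ^ X * nn F σ w q V H X a s t s' t' ω +
          2 ^ X * (kn F σ w q V H a s t s' t' ω - kn F σ w₁ q₁ V₁ H₁ a₁ s₁ t₁ s' t' ω)) =
        2 ^ X * ((2 ^ (q + (V + H) + w) * ps F σ a' s' t' ω -
            nn F σ w q V H X a s t s' t' ω - kn F σ w q V H a s t s' t' ω) -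
          (2 ^ (q + (V + H) + w) * ps F σ a' s' t' ω -
            nn F σ w₁ q₁ V₁ H₁ X a₁ s₁ t₁ s' t' ω - kn F σ w₁ q₁ V₁ H₁ a₁ s₁ t₁ s' t' ω)) := by
        ring
      rw [e2, abs_mul, abs_of_pos hX]
      have e3 := (abs_sub (2 ^ (q + (V + H) + w) * ps F σ a' s' t' ω -
            nn F σ w q V H X a s t s' t' ω - kn F σ w q V H a s t s' t' ω)
          (2 ^ (q + (V + H) + w) * ps F σ a' s' t' ω -
            nn F σ w₁ q₁ V₁ H₁ X a₁ s₁ t₁ s' t' ω -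
            kn F σ w₁ q₁ V₁ H₁ a₁ s₁ t₁ s' t' ω)).trans (add_le_add n1 n2)
      calc _ ≤ 2 ^ X * ((2 + 4 * D) / 2 ^ X + (2 + 4 * D) / 2 ^ X) :=
            mul_le_mul_of_nonneg_left e3 hX.le
        _ = 4 + 8 * D := by
            field_simp
            ring
    have f1 := Int.floor_le ((2 : ℝ) ^ X * (nn F σ w₁ q₁ V₁ H₁ X a₁ s₁ t₁ s' t' ω))
    have f2 := Int.lt_floor_add_one ((2 : ℝ) ^ X * (nn F σ w₁ q₁ V₁ H₁ X a₁ s₁ t₁ s' t' ω))
    have f3 := Int.floor_le ((2 : ℝ) ^ X * nn F σ w q V H X a s t s' t' ω)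
    have f4 := Int.lt_floor_add_one ((2 : ℝ) ^ X * nn F σ w q V H X a s t s' t' ω)
    have e4 := abs_le.1 e1
    unfold Uni.dg
    rw [abs_le]
    constructor <;> linarith

end fam3

end Pool.S6N
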