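import Pool.Agent.H97.S6.Zon

/-!
# The zone of the local data, rising case

From the slopes at the point `(w₀, P - g)`: for every scale `l` there are a zone of half-width
`CZ l` in which the numbers are affine up to `ε l`, and room in all strict inequalities.
-/

set_option autoImplicit false

namespace Pool.S6N

open Finset Real
open Pool.Agent.H49.Ent Pool.Agent.H32.Dense Pool.STK Pool.KA Pool.KSAT Pool.K2S Pool.PB Pool.KS6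
  Pool.S6C Pool.Sel51

/-- **(ZNE)** The zone exists at all small scales. -/
def ZNEStmt : Prop :=
  ∀ (S : PCl 3) (a R h₁ : ℝ) (i₀ : Fin 3) (c s₂ : ℝ) (r : ℝ → ℝ) (D : Set ℝ) (σ : ℝ → Row),
    Cs S a R h₁ i₀ c s₂ r D σ → ∀ (act : ℚ → ℝ) (K : Set ℝ) (W : ℝ → ℝ) (v₁ t : ℚ)
    (e₁ Q₀ P g v₀ v ρ a₀ α : ℝ), Loc S i₀ c s₂ r D σ act K W v₁ t e₁ Q₀ P g v₀ v ρ a₀ α → v < ρ →
    ∀ CZ ε : ℝ, 0 < CZ → 0 < ε → ∃ l₀ : ℝ, 0 < l₀ ∧ ∀ l : ℝ, 0 < l → l ≤ l₀ →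
    ∃ (N : ℕ) (u : ℕ → ℚ), Zon σ N u (W g) v₀ v g ρ (ε * l) ∧
      W g + CZ * l < u 0 ∧ (u 0 : ℝ) < W g + (CZ + 1) * l ∧
      W g - (CZ + 1) * l < u N ∧ (u N : ℝ) < W g - CZ * l ∧
      (∀ q : ℚ, |(q : ℝ) - (P - g)| ≤ CZ * l → 0 ≤ q ∧ q ≤ 1 ∧
        |act q - a₀ - α * (q - (P - g))| ≤ ε * l) ∧
      (∀ P' P'' : ℝ, P' ≤ P'' → |P' - P| ≤ CZ * l → |P'' - P| ≤ CZ * l →
        0 ≤ P' ∧ P'' ≤ 1 ∧ r P'' - r P' ≤ (3 - c) * (P'' - P') + ε * l) ∧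
      -- room
      (P - g) + v₀ + CZ * l < (σ 1).pi ∧ (P - g) + v₀ + CZ * l < 1 ∧
      P - W g + CZ * l < (σ 1).sN v₁ t ∧ P - W g + CZ * l < t - v₁ + e₁ ∧
      P - g + CZ * l < e₁ ∧ (u 0 : ℝ) < v₁ ∧ P + CZ * l < 1 ∧ CZ * l < P - g ∧
      CZ * l < W g ∧ CZ * l < g - W g - v₀ ∧ v₀ + CZ * l < 1

end Pool.S6N
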