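import Pool.Agent.H97.S6.H4R

/-!
# The rising case of the step of the normal position, for one family

`N₁ + 1` windows, `N₂` rows; the context of the window `j` and the row `k` has the base velocity
to `q j + k X` digits. All contexts have the same generalised time. The hypotheses of theorem OCS
on the time, the exact frames and the chain with a fixed row hold in one of the contexts.
-/

set_option autoImplicit false

namespace Pool.S6N

open Finset Real
open Pool.Agent.H49.Ent Pool.Agent.H32.Dense Pool.STK Pool.KA Pool.KSAT Pool.K2S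

/-- **(RISE)** -/
def RiseStmt : Prop :=
  ∀ c ca D B : ℝ, 0 < c → 0 < ca → 0 ≤ D → 1 ≤ B →
    ∃ (x₀ lm κ ϖ ι ε : ℝ) (X₀ n₀ N₁ : ℕ), 0 < x₀ ∧ 0 < lm ∧ 0 < κ ∧ κ ≤ 1 ∧ 0 < ϖ ∧ 0 < ι ∧
      0 < ε ∧ 0 < N₁ ∧ ∀ C₁ : ℝ, ∃ N₂ : ℕ, 0 < N₂ ∧
    ∀ (J : ℕ) (F : Fam 3 J) (A : F.Ω → Prop) (σ : Fin 3 → Fin 3) (w V H q : ℕ → ℕ)
      (P₀ X n : ℕ) (a s t : ℕ → F.Ω → ℝ) (a' s' t' : F.Ω → ℝ) (e : ℝ),
      Function.Injective σ → IsLaw (Pool.Agent.H49.Ent.cond F.p A True) → X₀ ≤ X → n₀ ≤ n →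
      (n : ℝ) ≤ lm * X → e ≤ lm * X →
      (J : ℝ) * Real.log 2 - e ≤
        CH (Pool.Agent.H49.Ent.cond F.p A True) F.T (fun ω => (F.l ω, F.Z ω)) →
      (∀ j ≤ N₁, Frg F A (w j) (V j) (H j) D (a j) (s j) (t j) a' s' t' ∧
        q j + (V j + H j) + w j = P₀ ∧
        ∀ ω, A ω → ∀ i l, |fr σ (a j) (s j) (t j) ω i l| ≤ B) →
      (∀ j < N₁, w (j + 1) + X ≤ w j ∧ H (j + 1) + X ≤ H j ∧ V (j + 1) ≤ V j) →
      P₀ + (N₂ + 1) * X ≤ J →
      (∀ j ≤ N₁, CH (Pool.Agent.H49.Ent.cond F.p A True) (fun ω => (a' ω, s' ω, t' ω))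
        (fun ω => (ctx F σ (w j) (q j) (V j) (H j) (a j) (s j) (t j) ω, F.T ω)) ≤ C₁ * X) →
      (∀ j < N₁, ∀ k < N₂, Vis F A σ (q j + k * X) (V j) (H j) X B a' s' t') →
      (∀ j < N₁, ∀ k < N₂, ∃ bd : Finset ℕ, (bd.card : ℝ) * n ≤ lm * X ∧
        ∀ r : ℕ, r ∉ bd → (r + 1) * n ≤ X → (2 - ι) * n * Real.log 2 ≤
        CH (Pool.Agent.H49.Ent.cond F.p A True)
          (pd2 F σ (w j) (q j + k * X) (V j) (r * n + n) (a j) (s j) (t j))
          (fun ω => (ctl F σ (w j) (q j + k * X) (V j) (H j) (r * n) (a j) (s j) (t j) ω,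
            gt F a' s' t' ω))) →
      (∀ j < N₁, ∀ k < N₂, ca * X * Real.log 2 ≤
        CH (Pool.Agent.H49.Ent.cond F.p A True)
          (fun ω => ⌊(2 : ℝ) ^ (q j + k * X + X) * F.d ω (σ 0)⌋) (pq F (σ 0) (q j + k * X))) →
      (∀ j < N₁, ∀ k < N₂, ∀ i : ℕ, (i + 1) * ⌊κ * X⌋₊ ≤ X → ∀ E : F.Ω → Prop,
        ϖ ≤ Pe (Pool.Agent.H49.Ent.cond F.p A True) E →
        CH (Pool.Agent.H49.Ent.cond (Pool.Agent.H49.Ent.cond F.p A True) E True)
          (Uni.dg (P₀ + k * X + (i + 1) * ⌊κ * X⌋₊) (ps F σ a' s' t'))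
          (fun ω => (Uni.dg (P₀ + k * X + i * ⌊κ * X⌋₊) (ps F σ a' s' t') ω,
            (ctx F σ (w j) (q j + k * X) (V j) (H j) (a j) (s j) (t j) ω,
              gt F a' s' t' ω))) ≤ (1 - c) * ⌊κ * X⌋₊ * Real.log 2) →
      (∀ j < N₁, ∀ k < N₂, Pool.KAF.Pr (dbl (Pool.Agent.H49.Ent.cond F.p A True)
        (fun ω => (blk F σ (w j) (q j + k * X) (V j) (H j) X (a j) (s j) (t j) ω,
          ctx F σ (w j) (q j + k * X) (V j) (H j) (a j) (s j) (t j) ω)))
        {z | ∀ i, |SS (V j) (H j) (a j) (s j) (t j) s' t' i z.1 -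
          SS (V j) (H j) (a j) (s j) (t j) s' t' i z.2| < (2 : ℝ) ^ (-(x₀ * X))} ≤ ε) →
      (∀ j < N₁, ∀ k < N₂, Pool.KAF.Pr (dbl (Pool.Agent.H49.Ent.cond F.p A True)
        (fun ω => (blk F σ (w j) (q j + k * X) (V j) (H j) X (a j) (s j) (t j) ω,
          ctx F σ (w j) (q j + k * X) (V j) (H j) (a j) (s j) (t j) ω)))
        {z | |EE (V j) (a j) a' z.1 - EE (V j) (a j) a' z.2| < (2 : ℝ) ^ (-(x₀ * X))} ≤ ε) →
      False

variable {J : ℕ}

section fam3

variable {F : Fam 3 J} {A : F.Ω → Prop} {σ : Fin 3 → Fin 3} {w q V H X : ℕ} {D B : ℝ}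
  {a s t a' s' t' : F.Ω → ℝ}

/-- **(H5)** -/
theorem h5r (hσ : Function.Injective σ) (hF : Frg F A w V H D a s t a' s' t') (hD : 0 ≤ D)
    (hw : w ≤ J) {E : F.Ω → Prop}
    (hE : IsLaw (Pool.Agent.H49.Ent.cond (Pool.Agent.H49.Ent.cond F.p A True) E True))
    (hQ : IsLaw (Pool.Agent.H49.Ent.cond F.p A True)) {x y : ℕ} (hxy : x ≤ y) (hy : y ≤ X) :
    CH (Pool.Agent.H49.Ent.cond (Pool.Agent.H49.Ent.cond F.p A True) E True)
        (Uni.dg y (nn F σ w q V H X a s t s' t'))
        (fun ω => (Uni.dg x (nn F σ w q V H X a s t s' t') ω,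
          (ctx F σ w q V H a s t ω, gt F a' s' t' ω))) ≤
      CH (Pool.Agent.H49.Ent.cond (Pool.Agent.H49.Ent.cond F.p A True) E True)
        (Uni.dg (q + (V + H) + w + y) (ps F σ a' s' t'))
        (fun ω => (Uni.dg (q + (V + H) + w + x) (ps F σ a' s' t') ω,
          (ctx F σ w q V H a s t ω, gt F a' s' t' ω))) +
        2 * Real.log (2 * (2 + 4 * D + 2) + 1) := by
  have hA : ∀ ω, 0 < Pool.Agent.H49.Ent.cond F.p A True ω → A ω := fun ω hω =>
    of_eq_true ((cond_pos_iff F.isLaw.nonneg A True ω).1 hω).2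
  refine Sel.rows_le hE (fun ω => (ctx F σ w q V H a s t ω, gt F a' s' t' ω))
    (fun ω => (ctx F σ w q V H a s t ω, gt F a' s' t' ω)) (fun _ _ _ _ h => h)
    (x := ps F σ a' s' t') (x' := nn F σ w q V H X a s t s' t')
    (κ := kn F σ w q V H a s t s' t') ?_ (K := 2 + 4 * D) (by linarith only [hD])
    (r := q + (V + H) + w) hxy ?_
  · intro ω ω' _ _ h
    exact kn_det hσ (Prod.ext_iff.mp h).1 (Prod.ext_iff.mp h).2
  · intro ω hω
    have h1 : 0 < Pool.Agent.H49.Ent.cond F.p A True ω :=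
      ((cond_pos_iff hQ.nonneg E True ω).1 hω).1
    have h2 := nn_ps (X := X) (q := q) (σ := σ) hF hw hD (hA ω h1)
    calc _ ≤ (2 + 4 * D) / 2 ^ X * 2 ^ y := mul_le_mul_of_nonneg_right h2 (by positivity)
      _ ≤ (2 + 4 * D) / 2 ^ X * 2 ^ X := by
          refine mul_le_mul_of_nonneg_left (pow_le_pow_right₀ (by norm_num) hy) ?_
          have : 0 ≤ 2 + 4 * D := by linarith only [hD]
          positivity
      _ = 2 + 4 * D := by field_simp

/-- The normal position is bounded. -/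
theorem nn_le (hF : Frg F A w V H D a s t a' s' t') (hD : 0 ≤ D) {ω : F.Ω} (hω : A ω) :
    |nn F σ w q V H X a s t s' t' ω| ≤ 2 + 4 * D := by
  have hwt := Lab.wt_mem F w ω
  have b : ∀ i : Fin 3, |yy F σ w q V H X a s t i ω +
      F.wt w ω * om F σ q V H X a s t i ω| ≤ 2 := by
    intro i
    obtain ⟨h1, h2⟩ := yy_mem (F := F) (σ := σ) (w := w) (q := q) (V := V) (H := H) (X := X)
      (a := a) (s := s) (t := t) i ω
    obtain ⟨h3, h4⟩ := om_mem (F := F) (σ := σ) (q := q) (V := V) (H := H) (X := X)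
      (a := a) (s := s) (t := t) i ω
    have h5 : 0 ≤ F.wt w ω * om F σ q V H X a s t i ω := mul_nonneg hwt.1 h3
    have h6 : F.wt w ω * om F σ q V H X a s t i ω ≤ 1 * 1 :=
      mul_le_mul hwt.2.le h4.le h3 zero_le_one
    rw [abs_le]
    constructor <;> linarith
  unfold nn
  rw [Fin.sum_univ_two]
  have g0 : |SS V H a s t s' t' 0 ω * (yy F σ w q V H X a s t (Fin.castSucc 0) ω +
        F.wt w ω * om F σ q V H X a s t (Fin.castSucc 0) ω)| ≤ D * 2 := by
    rw [abs_mul]
    exact mul_le_mul (SS_le hF 0 hω) (b _) (abs_nonneg _) hD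
  have g1 : |SS V H a s t s' t' 1 ω * (yy F σ w q V H X a s t (Fin.castSucc 1) ω +
        F.wt w ω * om F σ q V H X a s t (Fin.castSucc 1) ω)| ≤ D * 2 := by
    rw [abs_mul]
    exact mul_le_mul (SS_le hF 1 hω) (b _) (abs_nonneg _) hD
  have g2 := abs_le.1 (b 2)
  have g3 := abs_le.1 g0
  have g4 := abs_le.1 g1
  rw [abs_le]
  constructor <;> linarith only [g2, g3, g4]

theorem nn_dig (hF : Frg F A w V H D a s t a' s' t') (hD : 0 ≤ D)
    (hQ : IsLaw (Pool.Agent.H49.Ent.cond F.p A True)) {β : Type} (b : F.Ω → β) :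
    CH (Pool.Agent.H49.Ent.cond F.p A True) (Uni.dg X (nn F σ w q V H X a s t s' t')) b ≤
      X * Real.log 2 + Real.log (2 * (3 + 4 * D) + 1) := by
  have hA : ∀ ω, 0 < Pool.Agent.H49.Ent.cond F.p A True ω → A ω := fun ω hω =>
    of_eq_true ((cond_pos_iff F.isLaw.nonneg A True ω).1 hω).2
  have h1 := Sel.CH_near hQ (Uni.dg X (nn F σ w q V H X a s t s' t')) b (fun _ => (0 : ℝ))
    (fun _ _ _ _ _ => rfl) (K := (3 + 4 * D) * 2 ^ X) (by positivity) (fun ω hω => by
      have h2 := nn_le (σ := σ) (q := q) (X := X) hF hD (hA ω hω)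
      have h3 := abs_le.1 h2
      have hX : (1 : ℝ) ≤ 2 ^ X := one_le_pow₀ (by norm_num)
      unfold Uni.dg
      have f1 := Int.floor_le ((2 : ℝ) ^ X * nn F σ w q V H X a s t s' t' ω)
      have f2 := Int.lt_floor_add_one ((2 : ℝ) ^ X * nn F σ w q V H X a s t s' t' ω)
      rw [sub_zero, abs_le]
      constructor <;> nlinarith)
  refine h1.trans ?_
  rw [← Real.log_pow, ← Real.log_mul (by positivity) (by positivity)]
  refine Real.log_le_log (by positivity) ?_
  have hX : (1 : ℝ) ≤ 2 ^ X := one_le_pow₀ (by norm_num)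
  nlinarith only [hX]

end fam3

/-- **Theorem RISE** from theorem OCS in the mean over the context. -/
theorem rise_thm (hOCS : OCSBStmt) : RiseStmt := by
  classical
  intro c ca D B hc hca hD hB
  have hl2 : 0 < Real.log 2 := Real.log_pos (by norm_num)
  have hl2b : Real.log 2 < 0.6931471808 := Real.log_two_lt_d9
  have hl2a : 0.6931471803 < Real.log 2 := Real.log_two_gt_d9
  obtain ⟨B', hB'⟩ : ∃ B' : ℕ, D ≤ 2 ^ B' := by
    obtain ⟨n, hn⟩ := pow_unbounded_of_one_lt D (by norm_num : (1 : ℝ) < 2)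
    exact ⟨n, hn.le⟩
  obtain ⟨x₀, lm, κ, ϖ, ι, ε, X₀, t₀, hx₀, hlm, hκ, hκ1, hϖ, hι, hε, hO⟩ :=
    hOCS B' (c / 2) (ca / 2) (by positivity) (by positivity)
  -- the constants of one step
  obtain ⟨C₂, hC₂⟩ : ∃ C₂ : ℝ, C₂ = 3 * Real.log (2 * D + 1) +
      2 * (3 * Real.log (4 * 3 * (2 * D + 2 * D ^ 2 + 1) + 3)) + Real.log (2 * (5 + 8 * D) + 1) +
      Real.log (2 * (3 + 4 * D) + 1) := ⟨_, rfl⟩
  have lg : ∀ x : ℝ, 0 ≤ x → 0 ≤ Real.log (x + 1) := fun x hx => Real.log_nonneg (by linarith only [hx])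
  have l1 := lg (2 * D) (by linarith only [hD])
  have l2 : 0 ≤ Real.log (4 * 3 * (2 * D + 2 * D ^ 2 + 1) + 3) :=
    Real.log_nonneg (by nlinarith only [hD, hl2b, hl2a, sq_nonneg D])
  have l3 := lg (2 * (5 + 8 * D)) (by linarith only [hD, hl2b, hl2a])
  have l4 := lg (2 * (3 + 4 * D)) (by linarith)
  have hC₂0 : 0 ≤ C₂ := by rw [hC₂]; linarith only [l1, l2, l3, l4]
  obtain ⟨C₄, hC₄⟩ : ∃ C₄ : ℝ, C₄ = 3 * Real.log (2 * D + 1) +
        2 * (3 * Real.log (2 * (3 * (D + D ^ 2 + 1) * (2 * (3 * B + B))) + 3)) +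
        4 * Real.log (2 * (3 * B + 4 * D + 10) + 1) := ⟨_, rfl⟩
  have l5 : 0 ≤ Real.log (2 * (3 * (D + D ^ 2 + 1) * (2 * (3 * B + B))) + 3) := by
    refine Real.log_nonneg ?_
    have : 0 ≤ 2 * (3 * (D + D ^ 2 + 1) * (2 * (3 * B + B))) := by positivity
    linarith only [hl2b, hl2a, this]
  have l6 := lg (2 * (3 * B + 4 * D + 10)) (by linarith only [hD, hB, hl2b, hl2a])
  have hC₄0 : 0 ≤ C₄ := by rw [hC₄]; linarith only [l1, l5, l6]
  exact by
   obtain ⟨C₅, hC₅⟩ : ∃ C₅ : ℝ, C₅ = 2 * Real.log (2 * (2 + 4 * D + 2) + 1) := ⟨_, rfl⟩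
   have l7 := lg (2 * (2 + 4 * D + 2)) (by linarith only [hD, hl2b, hl2a])
   have hC₅0 : 0 ≤ C₅ := by rw [hC₅]; linarith only [l7]
   have hl11 : 0 < Real.log 11 := Real.log_pos (by norm_num)
   obtain ⟨ι₁, hι₁⟩ : ∃ ι₁ : ℝ, ι₁ = min (ι / 4) 1 := ⟨_, rfl⟩
   have hι₁p : 0 < ι₁ := by rw [hι₁]; exact lt_min (by positivity) one_pos
   have hι₁a : ι₁ ≤ ι / 4 := by rw [hι₁]; exact min_le_left _ _
   have hι₁b : ι₁ ≤ 1 := by rw [hι₁]; exact min_le_right _ _
   obtain ⟨lm', hlm'⟩ : ∃ lm' : ℝ, lm' = min lm (ι / 16) := ⟨_, rfl⟩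
   have hlm'p : 0 < lm' := by rw [hlm']; exact lt_min hlm (by positivity)
   have hlm'a : lm' ≤ lm := by rw [hlm']; exact min_le_left _ _
   have hlm'c : lm' ≤ ι / 16 := by rw [hlm']; exact min_le_right _ _
   have hlm'b : lm' ≤ ι / 8 := by linarith only [hlm'p, hlm'c]
   obtain ⟨N₁, hN₁⟩ := exists_nat_gt (8 / ι)
   have hN₁p : 0 < N₁ := by
     have : (0 : ℝ) < N₁ := lt_of_le_of_lt (by positivity) hN₁
     exact_mod_cast this
   obtain ⟨n₁, hn₁⟩ := exists_nat_gt (32 * Real.log 11 / (ι * Real.log 2))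
   obtain ⟨X₁, hX₁⟩ := exists_nat_gt (4 * (C₂ + 2 * C₂ * N₁) + 2 * C₄ / (ca * Real.log 2) +
     2 / κ + 8 * C₅ / (c * κ * Real.log 2) + 1)
   refine ⟨x₀, lm', κ, ϖ, ι₁, ε, max X₀ X₁, max t₀ n₁ + 1, N₁, hx₀, hlm'p, hκ, hκ1, hϖ, hι₁p, hε,
     hN₁p, ?_⟩
   intro C₁
   obtain ⟨N₂, hN₂⟩ := exists_nat_gt (8 * |C₁| / ι + 1)
   have hN₂p : 0 < N₂ := by
     have : (0 : ℝ) < N₂ := lt_of_le_of_lt (by positivity) hN₂
     exact_mod_cast this
   refine ⟨N₂, hN₂p, ?_⟩
   intro J F A σ w V H q P₀ X n a s t a' s' t' e hσ hQ hX hn hnX' he hT hFr hst hPJ hfr hvis h3 h4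
     h5 h6 h7
   exact by
    have h0 := hQ.nonneg
    have hXX : X₀ ≤ X := (le_max_left _ _).trans hX
    have hX1 : (X₁ : ℝ) ≤ X := by exact_mod_cast (le_max_right _ _).trans hX
    have hn0 : t₀ ≤ n := (le_max_left _ _).trans ((Nat.le_succ _).trans hn)
    have hn1 : (n₁ : ℝ) ≤ n := by
      exact_mod_cast (le_max_right t₀ n₁).trans ((Nat.le_succ _).trans hn)
    have hnp : 0 < n := by omega
    have hnp' : (0 : ℝ) < n := by exact_mod_cast hnp
    have q1 : 0 ≤ 2 * C₄ / (ca * Real.log 2) := by positivity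
    have q2 : 0 < 2 / κ := by positivity
    have q3 : 0 ≤ 8 * C₅ / (c * κ * Real.log 2) := by positivity
    have q4 : 0 ≤ 4 * (C₂ + 2 * C₂ * N₁) := by positivity
    have hXp : (1 : ℝ) < X := by linarith only [hX₁, hX1, q1, q2, q3, q4]
    have r1 : C₂ + 2 * C₂ * N₁ ≤ X / 4 := by linarith only [hl2b, hl2a, hX₁, hX1, q1, q2, q3]
    have r2 : C₄ ≤ ca / 2 * X * Real.log 2 := by
      have : 2 * C₄ / (ca * Real.log 2) ≤ X := by linarith only [hl2b, hl2a, hX₁, hX1, q2, q3, q4]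
      rw [div_le_iff₀ (by positivity)] at this
      linarith only [this]
    have r3 : 2 ≤ κ * X := by
      have : 2 / κ ≤ X := by linarith only [hl2b, hl2a, hX₁, hX1, q1, q3, q4]
      rw [div_le_iff₀ hκ] at this
      linarith only [this]
    have r4 : 8 * C₅ ≤ c * κ * X * Real.log 2 := by
      have : 8 * C₅ / (c * κ * Real.log 2) ≤ X := by linarith only [hl2b, hl2a, hX₁, hX1, q1, q2, q4]
      rw [div_le_iff₀ (by positivity)] at this
      linarith only [this]
    have r5 : 32 * Real.log 11 ≤ n * (ι * Real.log 2) := by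
      have : 32 * Real.log 11 / (ι * Real.log 2) ≤ n := by linarith only [hn₁, hn1]
      rw [div_le_iff₀ (by positivity)] at this
      linarith only [this]
    exact by
     have hwP : ∀ j ≤ N₁, w j ≤ P₀ := by
       intro j hj
       have := (hFr j hj).2.1
       omega
     have hwJ : ∀ j ≤ N₁, w j + X ≤ J := by
       intro j hj
       have h1 := hwP j hj
       have h2 : X ≤ (N₂ + 1) * X := Nat.le_mul_of_pos_left X (Nat.succ_pos _)
       omega
     -- the informations
     obtain ⟨f, hf⟩ : ∃ f : ℕ → ℕ → ℝ, f = fun j k =>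
         CH (Pool.Agent.H49.Ent.cond F.p A True) (fun ω => (a' ω, s' ω, t' ω))
             (fun ω => (ctx F σ (w j) (q j + k * X) (V j) (H j) (a j) (s j) (t j) ω, F.T ω)) -
           CH (Pool.Agent.H49.Ent.cond F.p A True) (fun ω => (a' ω, s' ω, t' ω))
             (fun ω => (blk F σ (w j) (q j + k * X) (V j) (H j) X (a j) (s j) (t j) ω,
               (ctx F σ (w j) (q j + k * X) (V j) (H j) (a j) (s j) (t j) ω, F.T ω))) := ⟨_, rfl⟩
     obtain ⟨g, hg⟩ : ∃ g : ℕ → ℕ → ℝ, g = fun j k =>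
         CH (Pool.Agent.H49.Ent.cond F.p A True)
           (Uni.dg X (nn F σ (w j) (q j + k * X) (V j) (H j) X (a j) (s j) (t j) s' t'))
             (fun ω => (ctx F σ (w j) (q j + k * X) (V j) (H j) (a j) (s j) (t j) ω,
               gt F a' s' t' ω)) -
           CH (Pool.Agent.H49.Ent.cond F.p A True)
           (Uni.dg X (nn F σ (w j) (q j + k * X) (V j) (H j) X (a j) (s j) (t j) s' t'))
             (fun ω => (vb F σ (w j) (q j + k * X) (V j) (H j) X (a j) (s j) (t j) ω,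
               (ctx F σ (w j) (q j + k * X) (V j) (H j) (a j) (s j) (t j) ω,
                 gt F a' s' t' ω))) := ⟨_, rfl⟩
     have hf0 : ∀ j < N₁, ∀ k < N₂, 0 ≤ f j k := by
       intro j _ k _
       rw [hf]
       simp only
       rw [sub_nonneg]
       exact CH_mono_cond h0 fun ω ω' _ _ h => (Prod.ext_iff.mp h).2
     exact by
      have hg0 : ∀ j < N₁, ∀ k < N₂, 0 ≤ g j k := by
        intro j _ k _
        rw [hg]
        simp only
        rw [sub_nonneg]
        exact CH_mono_cond h0 fun ω ω' _ _ h => (Prod.ext_iff.mp h).2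
      have hfs : ∀ j < N₁, ∑ k ∈ range N₂, f j k ≤ |C₁| * X := by
        intro j hj
        rw [hf]
        refine (h1r_sum (F := F) (A := A) (σ := σ) (w := w j) (V := V j) (H := H j) (X := X)
          (a := a j) (s := s j) (t := t j) (a' := a') (s' := s') (t' := t') hQ (q j) N₂).trans
          ((hfr j hj.le).trans ?_)
        exact mul_le_mul_of_nonneg_right (le_abs_self C₁) (by linarith only [hl2b, hl2a, hX₁, hX1, q1, q2, q3, q4])
      have hgs : ∀ k < N₂, ∑ j ∈ range N₁, g j k ≤ X := by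
        intro k hk
        rw [hg]
        have h1 := tel_chain h0
          (fun j => Uni.dg X (nn F σ (w j) (q j + k * X) (V j) (H j) X (a j) (s j) (t j) s' t'))
          (fun j => vb F σ (w j) (q j + k * X) (V j) (H j) X (a j) (s j) (t j))
          (fun j => ctx F σ (w j) (q j + k * X) (V j) (H j) (a j) (s j) (t j)) (gt F a' s' t')
          (N := N₁) (C := C₂) (fun j hj => by
            obtain ⟨c1, c2, c3⟩ := hFr j hj.le
            obtain ⟨d1, d2, d3⟩ := hFr (j + 1) hj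
            obtain ⟨e1, e2, e3⟩ := hst j hj
            have key := h2_step (σ := σ) (X := X) (q := q j + k * X) (q₁ := q (j + 1) + k * X) c1 d1
              hD hQ (by have := hwJ j hj.le; omega) e1 (by omega) e2 e3 (by omega)
            refine key.trans ?_
            rw [hC₂]
            linarith only [l3, l4]) (fun j hj => by
            obtain ⟨c1, c2, c3⟩ := hFr j hj.le
            obtain ⟨d1, d2, d3⟩ := hFr (j + 1) hj
            have key := h2_row (X := X) (q := q j + k * X) (q₁ := q (j + 1) + k * X) hσ c1 d1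
              hD hQ (by have := hwJ j hj.le; omega) (by have := hwJ (j + 1) hj; omega) (by omega)
            refine key.trans ?_
            rw [hC₂]
            linarith only [l1, l2, l4])
        have h2 := nn_dig (σ := σ) (q := q 0 + k * X) (X := X) (hFr 0 (Nat.zero_le _)).1 hD hQ
          (fun ω => (ctx F σ (w 0) (q 0 + k * X) (V 0) (H 0) (a 0) (s 0) (t 0) ω, gt F a' s' t' ω))
        have h3' := CH_nonneg h0
          (Uni.dg X (nn F σ (w N₁) (q N₁ + k * X) (V N₁) (H N₁) X (a N₁) (s N₁) (t N₁) s' t'))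
          (fun ω => (ctx F σ (w N₁) (q N₁ + k * X) (V N₁) (H N₁) (a N₁) (s N₁) (t N₁) ω,
            gt F a' s' t' ω))
        have h4' : Real.log (2 * (3 + 4 * D) + 1) ≤ C₂ := by rw [hC₂]; linarith only [l1, l2, l3]
        nlinarith only [hl2b, hl2a, hC₂, l1, l2, l3, hX₁, hX1, q1, q2, q3, q4, h1, h2, h3']
      exact by
       obtain ⟨j, hj, k, hk, hfj, hgj⟩ := exists_place hN₁p hN₂p f g (A := |C₁| * X) (B := X)
         (ε := ι / 2 * X) (by positivity) hf0 hg0 hfs hgs
         (by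
           have h1 : 8 * |C₁| / ι ≤ N₂ := by linarith only [hl2b, hl2a, hN₂]
           rw [div_le_iff₀ hι] at h1
           nlinarith only [h1]) (by
           have h1 : 8 / ι ≤ N₁ := by linarith only [hN₁]
           rw [div_le_iff₀ hι] at h1
           nlinarith only [h1])
       obtain ⟨c1, c2, c3⟩ := hFr j hj.le
       have hwj := hwJ j hj.le
       have hwj' : w j ≤ J := by omega
       have he' : e ≤ ι / 8 * X := he.trans (mul_le_mul_of_nonneg_right hlm'b (by linarith only [hl2b, hl2a, hX₁, hX1, q1, q2, q3, q4]))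
       have hnX : (n : ℝ) ≤ lm * X :=
         hnX'.trans (mul_le_mul_of_nonneg_right hlm'a (by linarith only [hl2b, hl2a, hX₁, hX1, q1, q2, q3, q4]))
       have hPk : q j + k * X + (V j + H j) + w j = P₀ + k * X := by omega
       refine hO F.Ω _ _ _ (Pool.Agent.H49.Ent.cond F.p A True)
         (ctx F σ (w j) (q j + k * X) (V j) (H j) (a j) (s j) (t j))
         (blk F σ (w j) (q j + k * X) (V j) (H j) X (a j) (s j) (t j)) (gt F a' s' t')
         _ _ _ _ _ _ _ _ X n (ocsdata hσ hB' c1 hQ) hXX hn0 hnX ?_ ?_ ?_ ?_ ?_ ?_ ?_ ?_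
       · -- H1
         have h1 := h1r (σ := σ) (q := q j + k * X) (X := X) c1 hwj' hQ hT
         rw [hf] at hfj
         simp only at hfj
         have : e ≤ ι / 8 * X := he'
         nlinarith only [hfj, he', h1, hι]
       · -- H1'
         have h1 := h1r_dig (σ := σ) (q := q j + k * X) (X := X) c1 hwj hQ hT
         have h2 : e ≤ ι * X * Real.log 2 := by
           have g0 : (0 : ℝ) ≤ ι * X := by positivity
           have g1 : ι * X * (1 / 8) ≤ ι * X * Real.log 2 :=
             mul_le_mul_of_nonneg_left (by linarith only [hl2b, hl2a]) g0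
           linarith only [he', g1]
         have e1 : (1 - ι) * X * Real.log 2 = X * Real.log 2 - ι * X * Real.log 2 := by ring
         rw [e1]
         linarith only [h1, h2]
       · -- H2
         rw [hg] at hgj
         simp only at hgj
         have h1 : CH (Pool.Agent.H49.Ent.cond F.p A True)
             (Uni.dg X (nn F σ (w j) (q j + k * X) (V j) (H j) X (a j) (s j) (t j) s' t'))
               (fun ω => (ctx F σ (w j) (q j + k * X) (V j) (H j) (a j) (s j) (t j) ω,
                 gt F a' s' t' ω)) -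
             CH (Pool.Agent.H49.Ent.cond F.p A True)
             (Uni.dg X (nn F σ (w j) (q j + k * X) (V j) (H j) X (a j) (s j) (t j) s' t'))
               (fun ω => (vb F σ (w j) (q j + k * X) (V j) (H j) X (a j) (s j) (t j) ω,
                 (ctx F σ (w j) (q j + k * X) (V j) (H j) (a j) (s j) (t j) ω,
                   gt F a' s' t' ω))) ≤ ι * X := by
           have : 0 ≤ ι * X := by positivity
           linarith only [hgj, this]
         exact h1
       · -- H3
         obtain ⟨bd, hbd, h3j⟩ := h3 j hj k hk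
         have h1 := h3r (F := F) (A := A) (σ := σ) (w := w j) (q := q j + k * X) (V := V j) (H := H j)
           (X := X) (a := a j) (s := s j) (t := t j) (a' := a') (s' := s') (t' := t') hQ hwj'
           hnp h3j hι₁p.le (by linarith only [hl2b, hl2a, hι₁b])
         refine le_trans ?_ h1
         have g1 : 2 * ((bd.card : ℝ) + 1) * n * Real.log 2 ≤ 2 * (ι / 8 * X) * Real.log 2 := by
           have h5' : (bd.card : ℝ) * n + n ≤ ι / 8 * X := by
             have h6' := mul_le_mul_of_nonneg_right hlm'c (by linarith only [hl2b, hl2a, hX₁, hX1, q1, q2, q3, q4] : (0 : ℝ) ≤ X)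
             linarith only [hnX', hbd, h6']
           have h7' : 2 * ((bd.card : ℝ) + 1) * n * Real.log 2 =
               2 * ((bd.card : ℝ) * n + n) * Real.log 2 := by ring
           rw [h7']
           exact mul_le_mul_of_nonneg_right (mul_le_mul_of_nonneg_left h5' (by norm_num)) hl2.le
         have g2 : 4 * Real.log 11 * (X / n) ≤ ι / 8 * X * Real.log 2 := by
           rw [← mul_div_assoc, div_le_iff₀ hnp']
           nlinarith only [r5]
         have g3 : ι₁ * X * Real.log 2 ≤ ι / 4 * X * Real.log 2 := by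
           refine mul_le_mul_of_nonneg_right (mul_le_mul_of_nonneg_right hι₁a (by linarith only [hl2b, hl2a, hX₁, hX1, q1, q2, q3, q4])) hl2.le
         have e1 : (2 - ι) * X * Real.log 2 = 2 * X * Real.log 2 - ι * X * Real.log 2 := by ring
         have e2 : (2 - ι₁) * X * Real.log 2 = 2 * X * Real.log 2 - ι₁ * X * Real.log 2 := by ring
         rw [e1, e2]
         have g4 : 0 ≤ ι * X * Real.log 2 := by positivity
         nlinarith only [g1, g2, g3, g4]
       · -- H4
         have h1 := h4r hσ c1 (hvis j hj k hk) hD hB c3 hQ hwj' (by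
           rw [hPk]
           have h2 : (k + 1) * X ≤ (N₂ + 1) * X := Nat.mul_le_mul_right X (by omega)
           have h3' : (k + 1) * X = k * X + X := by ring
           omega)
         have h2 := h4 j hj k hk
         rw [← hC₄] at h1
         have e1 : ca / 2 * X * Real.log 2 = ca * X * Real.log 2 - ca / 2 * X * Real.log 2 := by ring
         rw [e1]
         linarith only [r2, h1, h2]
       · -- H5
         intro i hi E hE
         have hE0 : 0 < Pe (Pool.Agent.H49.Ent.cond F.p A True) E := lt_of_lt_of_le hϖ hE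
         have hEl : IsLaw (Pool.Agent.H49.Ent.cond (Pool.Agent.H49.Ent.cond F.p A True) E True) :=
           isLaw_cond hQ hE0
         have h1 := h5r (σ := σ) (q := q j + k * X) (X := X) hσ c1 hD hwj' hEl hQ
           (x := i * ⌊κ * X⌋₊) (y := (i + 1) * ⌊κ * X⌋₊)
           (Nat.mul_le_mul_right _ (Nat.le_succ i)) hi
         rw [hPk] at h1
         have h2 := h5 j hj k hk i hi E hE
         rw [← hC₅] at h1
         have hh2 : κ * X / 2 ≤ (⌊κ * X⌋₊ : ℝ) := by
           have : κ * X < ⌊κ * X⌋₊ + 1 := Nat.lt_floor_add_one _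
           linarith only [r3, this]
         have g1 : C₅ ≤ c / 2 * ⌊κ * X⌋₊ * Real.log 2 := by
           have g2 : c / 2 * (κ * X / 2) * Real.log 2 ≤ c / 2 * ⌊κ * X⌋₊ * Real.log 2 :=
             mul_le_mul_of_nonneg_right (mul_le_mul_of_nonneg_left hh2 (by positivity)) hl2.le
           nlinarith only [hC₅, l7, r4, g2]
         have e1 : (1 - c / 2) * ⌊κ * X⌋₊ * Real.log 2 =
             (1 - c) * ⌊κ * X⌋₊ * Real.log 2 + c / 2 * ⌊κ * X⌋₊ * Real.log 2 := by ring
         rw [e1]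
         linarith only [h1, h2, g1]
       · exact h6 j hj k hk
       · exact h7 j hj k hk

end Pool.S6N
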