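import Pool.Agent.H97.S6.FrxS
import Pool.Agent.H97.S6.Rise

/-!
# Rounded frames

The frames of the windows and the exact frame, rounded to the precisions of the natural boxes:
`Frg`, `Vis`, and the number of digits of the exact frame.
-/

set_option autoImplicit false

namespace Pool.S6N

open Finset Real
open Pool.Agent.H49.Ent Pool.Agent.H32.Dense Pool.STK Pool.KA Pool.KSAT Pool.K2S Pool.PB Pool.KS6
  Pool.S6C

/-- Rounding. -/
noncomputable def rd (n : ℕ) (x : ℝ) : ℝ := ⌊(2 : ℝ) ^ n * x⌋ / 2 ^ n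

theorem rd_near (n : ℕ) (x : ℝ) : |rd n x - x| ≤ 1 / 2 ^ n := by
  rw [abs_sub_comm]
  exact floor_near n x

theorem rd_grid (n : ℕ) (x : ℝ) : ∃ z : ℤ, rd n x = z / 2 ^ n := ⟨_, rfl⟩

/-- The frame of the plank of a window. -/
noncomputable def za (V : ℕ) (z : Pln) : ℝ := rd V z.e

/-- The frame of the plank of a window. -/
noncomputable def zs (H : ℕ) (z : Pln) : ℝ := rd H (-z.s)

/-- The frame of the plank of a window. -/
noncomputable def zt (V H : ℕ) (z : Pln) : ℝ := rd (V + H) (-z.c + (-z.s - zs H z) * za V z)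

/-- The exact frame: `al` is the exact direction, `k` the slope of the normal velocity. -/
noncomputable def xa (V : ℕ) (al : ℝ) : ℝ := rd V al

/-- The exact frame. -/
noncomputable def xs (H : ℕ) (y : Pln) : ℝ := rd H (-y.s)

/-- The exact frame. -/
noncomputable def xt (V H R : ℕ) (al k : ℝ) (y : Pln) : ℝ :=
  rd R (-y.c + k + (-y.s - xs H y) * xa V al)

/-- The exact direction and the exact normal velocity. -/
structure FrE {J : ℕ} (F : Fam 3 J) (B : F.Ω → Prop) (i₀ iu iN : Fin 3) (Pu PN V R : ℕ)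
    (y : F.Ω → Pln) (al nu k b : F.Ω → ℝ) : Prop where
  fp : ∀ ω ω', B ω → B ω' → Fam.pt F ω = Fam.pt F ω' →
    al ω = al ω' ∧ nu ω = nu ω' ∧ k ω = k ω' ∧ b ω = b ω'
  su : ∀ ω, B ω → |F.d ω iu - al ω * F.d ω i₀ - nu ω| ≤ 1 / 2 ^ Pu
  sN : ∀ ω, B ω → |fn i₀ iu iN (y ω).c (y ω).s (F.d ω) - b ω - k ω * F.d ω i₀| ≤ 1 / 2 ^ PN
  ae : ∀ ω, B ω → |al ω - (y ω).e| ≤ 8 / 2 ^ V
  kb : ∀ ω, B ω → |k ω| ≤ 8 / 2 ^ R

theorem inv_pow_mono {m n : ℕ} (h : m ≤ n) : (1 : ℝ) / 2 ^ n ≤ 1 / 2 ^ m :=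
  one_div_le_one_div_of_le (by positivity) (pow_le_pow_right₀ (by norm_num) h)

section fam3

variable {J : ℕ} {F : Fam 3 J} {B : F.Ω → Prop} {i₀ iu iN : Fin 3} {N : ℕ} {w V R : ℕ → ℕ}
  {y : F.Ω → Pln} {z : ℕ → F.Ω → Pln} {Pu PN : ℕ} {al nu k b : F.Ω → ℝ}

/-- The frames of the windows are near the exact frame. -/
theorem frg_of (hX : FrX F B i₀ iu iN N w V R y z)
    (hE : FrE F B i₀ iu iN Pu PN (V 0) (R 0) y al nu k b) {j : ℕ} (hj : j ≤ N)
    {Vx Hx Rx : ℕ} (hVR : V j ≤ R j) (hV0 : V j ≤ V 0) (hR0 : R j ≤ R 0) (hVx : V j ≤ Vx)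
    (hHx : R j - V j ≤ Hx) (hRx : R j ≤ Rx) :
    Frg F B (w j) (V j) (R j - V j) 64 (fun ω => za (V j) (z j ω))
      (fun ω => zs (R j - V j) (z j ω)) (fun ω => zt (V j) (R j - V j) (z j ω))
      (fun ω => xa Vx (al ω)) (fun ω => xs Hx (y ω)) (fun ω => xt Vx Hx Rx (al ω) (k ω) (y ω)) := by
  have hR : V j + (R j - V j) = R j := by omega
  obtain ⟨χ, hχ⟩ := hX.zs j hj
  have pV : (0 : ℝ) < 2 ^ V j := by positivity
  have pH : (0 : ℝ) < 2 ^ (R j - V j) := by positivity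
  have pR : (0 : ℝ) < 2 ^ R j := by positivity
  have eR : (2 : ℝ) ^ R j = 2 ^ V j * 2 ^ (R j - V j) := by rw [← pow_add, hR]
  have ka : ∀ ω, B ω → |xa Vx (al ω) - za (V j) (z j ω)| ≤ 18 / 2 ^ V j := by
    intro ω hω
    have h1 := rd_near Vx (al ω)
    have h2 := rd_near (V j) (z j ω).e
    have h3 := hE.ae ω hω
    have h4 := (hX.nr j hj ω hω).e
    have h5 := inv_pow_mono hVx
    have h6 : (8 : ℝ) / 2 ^ V 0 ≤ 8 / 2 ^ V j :=
      div_le_div_of_nonneg_left (by norm_num) pV (pow_le_pow_right₀ (by norm_num) hV0)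
    have e1 : xa Vx (al ω) - za (V j) (z j ω) = (rd Vx (al ω) - al ω) + (al ω - (y ω).e) +
        ((y ω).e - (z j ω).e) - (rd (V j) (z j ω).e - (z j ω).e) := by
      unfold xa za
      ring
    have e2 : (18 : ℝ) / 2 ^ V j = 1 / 2 ^ V j + 8 / 2 ^ V j + 8 / 2 ^ V j + 1 / 2 ^ V j := by ring
    rw [e1, e2]
    rw [abs_le] at h1 h2 h3 h4 ⊢
    constructor <;> linarith only [h1, h2, h3, h4, h5, h6, h1.1, h1.2, h2.1, h2.2, h3.1, h3.2, h4.1, h4.2]
  have ks : ∀ ω, B ω → |xs Hx (y ω) - zs (R j - V j) (z j ω)| ≤ 10 / 2 ^ (R j - V j) := by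
    intro ω hω
    have h1 := rd_near Hx (-(y ω).s)
    have h2 := rd_near (R j - V j) (-(z j ω).s)
    have h4 := (hX.nr j hj ω hω).s
    have h5 := inv_pow_mono hHx
    have e1 : xs Hx (y ω) - zs (R j - V j) (z j ω) = (rd Hx (-(y ω).s) - -(y ω).s) -
        ((y ω).s - (z j ω).s) - (rd (R j - V j) (-(z j ω).s) - -(z j ω).s) := by
      unfold xs zs
      ring
    have e2 : (10 : ℝ) / 2 ^ (R j - V j) = 1 / 2 ^ (R j - V j) + 8 / 2 ^ (R j - V j) +
      1 / 2 ^ (R j - V j) := by ring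
    rw [e1, e2]
    rw [abs_le] at h1 h2 h4 ⊢
    constructor <;> linarith only [h1, h2, h4, h5, h1.1, h1.2, h2.1, h2.2, h4.1, h4.2]
  refine ⟨?_, fun ω => rd_grid _ _, Or.inr fun ω => rd_grid _ _, fun ω => rd_grid _ _, ?_, ?_,
    ?_⟩
  · intro ω ω' h
    have h1 : z j ω = z j ω' := by rw [hχ, hχ, h]
    simp only [h1, and_self]
  · intro ω hω
    refine (ka ω hω).trans (div_le_div_of_nonneg_right (by norm_num) pV.le)
  · intro ω hω
    refine (ks ω hω).trans (div_le_div_of_nonneg_right (by norm_num) pH.le)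
  · intro ω hω
    rw [hR]
    have h1 := rd_near Rx (-(y ω).c + k ω + (-(y ω).s - xs Hx (y ω)) * xa Vx (al ω))
    have h2 := rd_near (R j) (-(z j ω).c + (-(z j ω).s - zs (R j - V j) (z j ω)) *
      za (V j) (z j ω))
    have h3 := (hX.nr j hj ω hω).c
    have h3s := (hX.nr j hj ω hω).s
    have h4 := hE.kb ω hω
    have h5 := inv_pow_mono hRx
    have h6 : (8 : ℝ) / 2 ^ R 0 ≤ 8 / 2 ^ R j :=
      div_le_div_of_nonneg_left (by norm_num) pR (pow_le_pow_right₀ (by norm_num) hR0)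
    have h7 := rd_near (V j) (z j ω).e
    have h8 := rd_near Hx (-(y ω).s)
    have h9 := inv_pow_mono hHx
    have h10 := ka ω hω
    have m1 : |((y ω).s - (z j ω).s) * (za (V j) (z j ω) - (z j ω).e)| ≤ 8 / 2 ^ R j := by
      rw [abs_mul, eR]
      calc _ ≤ 8 / 2 ^ (R j - V j) * (1 / 2 ^ V j) :=
            mul_le_mul h3s h7 (abs_nonneg _) (by positivity)
        _ = _ := by field_simp
    have m2 : |(-(y ω).s - xs Hx (y ω)) * (xa Vx (al ω) - za (V j) (z j ω))| ≤ 18 / 2 ^ R j := by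
      rw [abs_mul, eR]
      have h8' : |-(y ω).s - xs Hx (y ω)| ≤ 1 / 2 ^ (R j - V j) := by
        rw [abs_sub_comm]
        exact h8.trans h9
      calc _ ≤ 1 / 2 ^ (R j - V j) * (18 / 2 ^ V j) :=
            mul_le_mul h8' h10 (abs_nonneg _) (by positivity)
        _ = _ := by field_simp
    have e1 : xt Vx Hx Rx (al ω) (k ω) (y ω) - zt (V j) (R j - V j) (z j ω) +
        (xs Hx (y ω) - zs (R j - V j) (z j ω)) * za (V j) (z j ω) =
        (rd Rx (-(y ω).c + k ω + (-(y ω).s - xs Hx (y ω)) * xa Vx (al ω)) -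
          (-(y ω).c + k ω + (-(y ω).s - xs Hx (y ω)) * xa Vx (al ω))) -
        (rd (R j) (-(z j ω).c + (-(z j ω).s - zs (R j - V j) (z j ω)) * za (V j) (z j ω)) -
          (-(z j ω).c + (-(z j ω).s - zs (R j - V j) (z j ω)) * za (V j) (z j ω))) -
        Ae (y ω).c (y ω).s (z j ω).c (z j ω).s (z j ω).e + k ω -
        ((y ω).s - (z j ω).s) * (za (V j) (z j ω) - (z j ω).e) +
        (-(y ω).s - xs Hx (y ω)) * (xa Vx (al ω) - za (V j) (z j ω)) := by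
      unfold xt zt Ae
      rw [hR]
      ring
    have e2 : (64 : ℝ) / 2 ^ R j = 1 / 2 ^ R j + 1 / 2 ^ R j + 8 / 2 ^ R j + 8 / 2 ^ R j +
      8 / 2 ^ R j + 18 / 2 ^ R j + 20 / 2 ^ R j := by ring
    have e3 : (0 : ℝ) ≤ 20 / 2 ^ R j := by positivity
    rw [e1, e2]
    rw [abs_le] at h1 h2 h3 h4 m1 m2 ⊢
    constructor <;> linarith only [h1, h2, h3, h4, h5, h6, m1, m2, e3, h1.1, h1.2, h2.1, h2.2, h3.1, h3.2, h4.1, h4.2, m1.1, m1.2,
      m2.1, m2.2]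

/-- Two velocities with the same first digits. -/
theorem vel_near {q : ℕ} {ω ω' : F.Ω} (h : pq F i₀ q ω = pq F i₀ q ω') :
    |F.d ω i₀ - F.d ω' i₀| ≤ 1 / 2 ^ q := floor_close (pq_ext h).1

/-- **Visibility.** -/
theorem vis_of (hX : FrX F B i₀ iu iN N w V R y z)
    (hE : FrE F B i₀ iu iN Pu PN (V 0) (R 0) y al nu k b) {σ : Fin 3 → Fin 3} (hσ0 : σ 0 = i₀)
    (hσ1 : σ 1 = iu) (hσ2 : σ 2 = iN) {Vx Hx Rx q Vj Hj X : ℕ} (h1 : q + Vj + X ≤ Pu)
    (h2 : Vj + X ≤ Vx) (h3 : q + (Vj + Hj) + X ≤ PN) (h4 : Hj ≤ Hx) (h5 : Vj + Hj + X ≤ Rx) :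
    Vis F B σ q Vj Hj X 64 (fun ω => xa Vx (al ω)) (fun ω => xs Hx (y ω))
      (fun ω => xt Vx Hx Rx (al ω) (k ω) (y ω)) := by
  obtain ⟨φ, hφ⟩ := hX.yp
  have hyp : ∀ ω ω', B ω → B ω' → Fam.pt F ω = Fam.pt F ω' → y ω = y ω' := by
    intro ω ω' hω hω' h
    rw [hφ ω hω, hφ ω' hω']
    exact congrArg φ h
  have one : ∀ n : ℕ, (1 : ℝ) / 2 ^ n ≤ 1 := fun n => by
    rw [div_le_one (by positivity)]
    exact one_le_pow₀ (by norm_num)
  have eight : ∀ n : ℕ, (8 : ℝ) / 2 ^ n ≤ 8 := fun n => by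
    rw [div_le_iff₀ (by positivity)]
    have : (1 : ℝ) ≤ 2 ^ n := one_le_pow₀ (by norm_num)
    linarith only [this]
  have ba : ∀ ω, B ω → |xa Vx (al ω)| ≤ 11 := by
    intro ω hω
    have a1 := rd_near Vx (al ω)
    have a2 := hE.ae ω hω
    have a3 := (hX.inc ω hω).e_le
    have a4 := one Vx
    have a5 := eight (V 0)
    unfold xa
    rw [abs_le] at a1 a2 a3 ⊢
    constructor <;> linarith only [a1, a2, a3, a4, a5, a1.1, a1.2, a2.1, a2.2, a3.1, a3.2]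
  have bs0 : ∀ ω, B ω → |-(y ω).s - xs Hx (y ω)| ≤ 1 / 2 ^ Hx := by
    intro ω _
    rw [abs_sub_comm]
    exact rd_near _ _
  have bs : ∀ ω, B ω → |xs Hx (y ω)| ≤ 5 := by
    intro ω hω
    have a1 := bs0 ω hω
    have a3 := (hX.inc ω hω).s_le
    have a4 := one Hx
    rw [abs_le] at a1 a3 ⊢
    constructor <;> linarith only [a1, a3, a4, a1.1, a1.2, a3.1, a3.2]
  have bt0 : ∀ ω, B ω → |-(y ω).c + k ω + (-(y ω).s - xs Hx (y ω)) * xa Vx (al ω) -
      xt Vx Hx Rx (al ω) (k ω) (y ω)| ≤ 1 / 2 ^ Rx := by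
    intro ω _
    rw [abs_sub_comm]
    exact rd_near _ _
  have bt : ∀ ω, B ω → |xt Vx Hx Rx (al ω) (k ω) (y ω)| ≤ 24 := by
    intro ω hω
    have a1 := bt0 ω hω
    have a2 := bs0 ω hω
    have a3 := (hX.inc ω hω).c_le
    have a4 := hE.kb ω hω
    have a5 := eight (R 0)
    have a6 := one Rx
    have a7 : |(-(y ω).s - xs Hx (y ω)) * xa Vx (al ω)| ≤ 11 := by
      rw [abs_mul]
      calc _ ≤ 1 * 11 := mul_le_mul (a2.trans (one Hx)) (ba ω hω) (abs_nonneg _) (by norm_num)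
        _ = 11 := by norm_num
    rw [abs_le] at a1 a3 a4 a7 ⊢
    constructor <;> linarith only [a1, a3, a4, a5, a6, a7, a1.1, a1.2, a3.1, a3.2, a4.1, a4.2, a7.1, a7.2]
  have pvel : ∀ ω ω', B ω → B ω' → pq F (σ 0) q ω = pq F (σ 0) q ω' →
      |(F.d ω iu - xa Vx (al ω) * F.d ω i₀) - (F.d ω' iu - xa Vx (al ω) * F.d ω' i₀)| ≤
        3 / 2 ^ (q + Vj + X) := by
    intro ω ω' hω hω' h
    rw [hσ0] at h
    have g1 := vel_near h
    obtain ⟨g2, g3, g4, g5⟩ := hE.fp ω ω' hω hω' (pq_ext h).2.2.2.2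
    have g6 := hE.su ω hω
    have g7 := hE.su ω' hω'
    have g8 := rd_near Vx (al ω)
    rw [← g2, ← g3] at g7
    have g9 : |(al ω - xa Vx (al ω)) * (F.d ω i₀ - F.d ω' i₀)| ≤ 1 / 2 ^ (q + Vj + X) := by
      rw [abs_mul]
      have g8' : |al ω - xa Vx (al ω)| ≤ 1 / 2 ^ (Vj + X) := by
        rw [abs_sub_comm]
        exact g8.trans (inv_pow_mono h2)
      calc _ ≤ 1 / 2 ^ (Vj + X) * (1 / 2 ^ q) :=
            mul_le_mul g8' g1 (abs_nonneg _) (by positivity)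
        _ = _ := by
            rw [show q + Vj + X = (Vj + X) + q by omega, pow_add _ (Vj + X) q]
            field_simp
    have g10 := inv_pow_mono h1
    have e1 : (F.d ω iu - xa Vx (al ω) * F.d ω i₀) - (F.d ω' iu - xa Vx (al ω) * F.d ω' i₀) =
        (F.d ω iu - al ω * F.d ω i₀ - nu ω) - (F.d ω' iu - al ω * F.d ω' i₀ - nu ω) +
          (al ω - xa Vx (al ω)) * (F.d ω i₀ - F.d ω' i₀) := by ring
    have e2 : (3 : ℝ) / 2 ^ (q + Vj + X) = 1 / 2 ^ (q + Vj + X) + 1 / 2 ^ (q + Vj + X) +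
      1 / 2 ^ (q + Vj + X) := by ring
    rw [e1, e2]
    rw [abs_le] at g6 g7 g9 ⊢
    constructor <;> linarith only [g6, g7, g9, g10, g6.1, g6.2, g7.1, g7.2, g9.1, g9.2]
  refine ⟨?_, ?_, ?_, ?_⟩
  · intro ω ω' hω hω' h
    obtain ⟨g2, g3, g4, g5⟩ := hE.fp ω ω' hω hω' h
    have g6 := hyp ω ω' hω hω' h
    simp only [g2, g4, g6, and_self]
  · intro ω hω i j
    have a1 := ba ω hω
    have a2 := bs ω hω
    have a3 := bt ω hω
    have b0 : ∀ (P : Prop) [Decidable P] (x : ℝ), |x * (if P then (1 : ℝ) else 0)| ≤ |x| := by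
      intro P _ x
      split_ifs
      · rw [mul_one]
      · rw [mul_zero, abs_zero]
        exact abs_nonneg x
    have b1 : ∀ (P : Prop) [Decidable P], |(if P then (1 : ℝ) else 0)| ≤ 1 := by
      intro P _
      split_ifs <;> simp
    unfold fr
    fin_cases i
    · show |(if j = σ 0 then (1 : ℝ) else 0)| ≤ 64
      exact (b1 _).trans (by norm_num)
    · show |(if j = σ 1 then (1 : ℝ) else 0) - xa Vx (al ω) * (if j = σ 0 then 1 else 0)| ≤ 64
      refine (abs_sub _ _).trans ?_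
      have c1 := b1 (j = σ 1)
      have c2 := b0 (j = σ 0) (xa Vx (al ω))
      linarith only [a1, c1, c2]
    · show |(if j = σ 2 then (1 : ℝ) else 0) - xs Hx (y ω) * (if j = σ 1 then 1 else 0) -
        xt Vx Hx Rx (al ω) (k ω) (y ω) * (if j = σ 0 then 1 else 0)| ≤ 64
      refine (abs_sub _ _).trans ((add_le_add (abs_sub _ _) le_rfl).trans ?_)
      have c1 := b1 (j = σ 2)
      have c2 := b0 (j = σ 1) (xs Hx (y ω))
      have c3 := b0 (j = σ 0) (xt Vx Hx Rx (al ω) (k ω) (y ω))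
      linarith only [a2, a3, c1, c2, c3]
  · intro ω ω' hω hω' h
    unfold fr
    rw [Box.mco_tfr1, Box.mco_tfr1, hσ0, hσ1]
    refine (pvel ω ω' hω hω' h).trans ?_
    exact div_le_div_of_nonneg_right (by norm_num) (by positivity)
  · intro ω ω' hω hω' h
    have g0 := pvel ω ω' hω hω' h
    rw [hσ0] at h
    have g1 := vel_near h
    obtain ⟨g2, g3, g4, g5⟩ := hE.fp ω ω' hω hω' (pq_ext h).2.2.2.2
    have gy := hyp ω ω' hω hω' (pq_ext h).2.2.2.2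
    have g6 := hE.sN ω hω
    have g7 := hE.sN ω' hω'
    rw [← g4, ← g5, ← gy] at g7
    have g8 := bs0 ω hω
    have g9 := bt0 ω hω
    unfold fr
    rw [Box.mco_tfr2, Box.mco_tfr2, hσ0, hσ1, hσ2]
    have m1 : |(-(y ω).s - xs Hx (y ω)) * ((F.d ω iu - xa Vx (al ω) * F.d ω i₀) -
        (F.d ω' iu - xa Vx (al ω) * F.d ω' i₀))| ≤ 3 / 2 ^ (q + (Vj + Hj) + X) := by
      rw [abs_mul]
      calc _ ≤ 1 / 2 ^ Hj * (3 / 2 ^ (q + Vj + X)) :=
            mul_le_mul (g8.trans (inv_pow_mono h4)) g0 (abs_nonneg _) (by positivity)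
        _ = _ := by
            rw [show q + (Vj + Hj) + X = Hj + (q + Vj + X) by omega, pow_add _ Hj]
            field_simp
    have m2 : |(-(y ω).c + k ω + (-(y ω).s - xs Hx (y ω)) * xa Vx (al ω) -
        xt Vx Hx Rx (al ω) (k ω) (y ω)) * (F.d ω i₀ - F.d ω' i₀)| ≤
        1 / 2 ^ (q + (Vj + Hj) + X) := by
      rw [abs_mul]
      calc _ ≤ 1 / 2 ^ (Vj + Hj + X) * (1 / 2 ^ q) :=
            mul_le_mul (g9.trans (inv_pow_mono h5)) g1 (abs_nonneg _) (by positivity)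
        _ = _ := by
            rw [show q + (Vj + Hj) + X = (Vj + Hj + X) + q by omega, pow_add _ (Vj + Hj + X) q]
            field_simp
    have m3 := inv_pow_mono h3
    have e1 : F.d ω iN - xs Hx (y ω) * F.d ω iu - xt Vx Hx Rx (al ω) (k ω) (y ω) * F.d ω i₀ -
        (F.d ω' iN - xs Hx (y ω) * F.d ω' iu - xt Vx Hx Rx (al ω) (k ω) (y ω) * F.d ω' i₀) =
        (fn i₀ iu iN (y ω).c (y ω).s (F.d ω) - b ω - k ω * F.d ω i₀) -
          (fn i₀ iu iN (y ω).c (y ω).s (F.d ω') - b ω - k ω * F.d ω' i₀) +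
        (-(y ω).s - xs Hx (y ω)) * ((F.d ω iu - xa Vx (al ω) * F.d ω i₀) -
        (F.d ω' iu - xa Vx (al ω) * F.d ω' i₀)) +
        (-(y ω).c + k ω + (-(y ω).s - xs Hx (y ω)) * xa Vx (al ω) -
        xt Vx Hx Rx (al ω) (k ω) (y ω)) * (F.d ω i₀ - F.d ω' i₀) := by
      unfold fn
      ring
    have e2 : (64 : ℝ) / 2 ^ (q + (Vj + Hj) + X) = 1 / 2 ^ (q + (Vj + Hj) + X) +
        1 / 2 ^ (q + (Vj + Hj) + X) + 3 / 2 ^ (q + (Vj + Hj) + X) +
        1 / 2 ^ (q + (Vj + Hj) + X) + 58 / 2 ^ (q + (Vj + Hj) + X) := by ring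
    have e3 : (0 : ℝ) ≤ 58 / 2 ^ (q + (Vj + Hj) + X) := by positivity
    rw [e1, e2]
    rw [abs_le] at g6 g7 m1 m2 ⊢
    constructor <;> linarith only [g6, g7, m1, m2, m3, e3, g6.1, g6.2, g7.1, g7.2, m1.1, m1.2, m2.1, m2.2]

end fam3

end Pool.S6N
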