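import Pool.Agent.H97.S6.Frg
import Pool.Agent.H59.OC.H1

/-!
# (H1) in the contexts: the time and the exact frames

The time is nearly independent of the line; the exact frame is nearly independent of the digits of
the line in most contexts of a chain with the same window (Principle M).
-/

set_option autoImplicit false

namespace Pool.S6N

open Finset Real
open Pool.Agent.H49.Ent Pool.Agent.H32.Dense Pool.STK Pool.KA Pool.KSAT Pool.K2S

variable {m J : ℕ} {β γ : Type}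

/-- The time given a label of the window, and given the line. -/
theorem time_lab (F : Fam m J) {p : F.Ω → ℝ} (hp : IsLaw p) {w : ℕ} (hw : w ≤ J) (b : F.Ω → β)
    (L : F.Ω → γ) (hb : ∀ ω ω', slam F w ω = slam F w ω' → b ω = b ω' ∧ L ω = L ω')
    (hT1 : ∀ ω ω', b ω = b ω' → F.T1 w ω = F.T1 w ω') {e : ℝ}
    (hT : (J : ℝ) * Real.log 2 - e ≤ CH p F.T (fun ω => (F.l ω, F.Z ω))) :
    CH p F.T b - CH p F.T (fun ω => (L ω, b ω)) ≤ e := by
  have h1 := time_digits (F.ext p hp id) (w := w) (K := J - w) (by omega) (e := e) hT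
  have h2 : CH p (fun ω => (F.T1 (w + (J - w)) ω : ℤ)) (slam F w) ≤
      CH p F.T (fun ω => (L ω, b ω)) := by
    refine (CH_mono_left hp.nonneg (X' := F.T) (fun ω ω' _ _ h => ?_)).trans
      (CH_mono_cond hp.nonneg fun ω ω' _ _ h => ?_)
    · show ((F.T1 (w + (J - w)) ω : ℕ) : ℤ) = F.T1 (w + (J - w)) ω'
      unfold Fam.T1
      have h3 : F.T ω = F.T ω' := (Prod.ext_iff.mp h).1
      rw [h3]
    · obtain ⟨h3, h4⟩ := hb ω ω' h
      exact Prod.ext h4 h3
  have h3 : CH p F.T b ≤ ((J - w : ℕ) : ℝ) * Real.log 2 := by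
    refine (CH_mono_cond hp.nonneg (W := F.T1 w) fun ω ω' _ _ h => hT1 ω ω' h).trans ?_
    refine (CH_le_card hp.nonneg hp.sum_one F.T _
      (fun v => Finset.Ico (v * 2 ^ (J - w)) ((v + 1) * 2 ^ (J - w))) ?_).trans ?_
    · intro ω _
      rw [Finset.mem_Ico]
      show F.T1 w ω * 2 ^ (J - w) ≤ F.T ω ∧ F.T ω < (F.T1 w ω + 1) * 2 ^ (J - w)
      unfold Fam.T1
      constructor
      · exact Nat.div_mul_le_self _ _
      · rw [← Nat.div_lt_iff_lt_mul (by positivity)]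
        exact Nat.lt_succ_self _
    · refine le_of_eq ?_
      have : ∀ v : ℕ, (Finset.Ico (v * 2 ^ (J - w)) ((v + 1) * 2 ^ (J - w))).card =
          2 ^ (J - w) := by
        intro v
        rw [Nat.card_Ico, add_mul, one_mul, Nat.add_sub_cancel_left]
      simp only [this]
      push_cast
      rw [Ex_const hp.sum_one, Real.log_pow]
  have h4 : ((J - w : ℕ) : ℝ) * Real.log 2 - e ≤
      CH p (fun ω => (F.T1 (w + (J - w)) ω : ℤ)) (slam F w) := h1
  linarith

/-- The digits of the time in the window given the line. -/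
theorem time_dig (F : Fam m J) {p : F.Ω → ℝ} (hp : IsLaw p) {w : ℕ} (hw : w ≤ J) (b : F.Ω → β)
    (hb : ∀ ω ω', slam F w ω = slam F w ω' → b ω = b ω') {e : ℝ}
    (hT : (J : ℝ) * Real.log 2 - e ≤ CH p F.T (fun ω => (F.l ω, F.Z ω)))
    {i : ℕ} (hi : w + i ≤ J) :
    i * Real.log 2 - e ≤ CH p (Uni.dg i (F.wt w)) b := by
  have h1 := time_digits (F.ext p hp id) (w := w) (K := i) hi (e := e) hT
  have h4 : (i : ℝ) * Real.log 2 - e ≤
      CH p (fun ω => (F.T1 (w + i) ω : ℤ)) (slam F w) := h1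
  refine h4.trans (le_trans ?_ (CH_mono_cond hp.nonneg (W' := slam F w)
    fun ω ω' _ _ h => hb ω ω' h))
  refine CH_mono_left hp.nonneg fun ω ω' _ _ h => ?_
  have a1 : ⌊(2 : ℝ) ^ i * F.wt w ω⌋ = ⌊(2 : ℝ) ^ i * F.wt w ω'⌋ := (Prod.ext_iff.mp h).1
  have a2 : F.T1 w ω = F.T1 w ω' := (Prod.ext_iff.mp (Prod.ext_iff.mp (Prod.ext_iff.mp h).2).2).2
  rw [← Lab.tw_eq F hw, ← Lab.tw_eq F hw] at a1
  show (F.T1 (w + i) ω : ℤ) = F.T1 (w + i) ω'
  rw [H1.floor_tw F hi ω, H1.floor_tw F hi ω', a1, a2]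

/-- Finer cells determine coarser cells. -/
theorem mlb_coarse (F : Fam m J) {g : ℕ} {k k' c c' : Fin m → ℕ} {M : F.Ω → Fin m → Fin m → ℝ}
    (hk : ∀ i, k i ≤ k' i) (hc : ∀ i, c i ≤ c' i) {ω ω' : F.Ω}
    (h : F.mlb g k' c' M ω = F.mlb g k' c' M ω') : F.mlb g k c M ω = F.mlb g k c M ω' := by
  obtain ⟨h1, h2, h3, h4, h5⟩ := Box.mlb_ext h
  refine Box.mlb_mk h1 h2 ?_ ?_ h5
  · funext i
    have e := congrFun h3 i
    unfold Fam.mps flk at e ⊢
    rw [← Uni.floor_row (hk i) (mco (M ω) (F.x1 g ω) i),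
      ← Uni.floor_row (hk i) (mco (M ω') (F.x1 g ω') i), e]
  · funext i
    have e := congrFun h4 i
    unfold Fam.mvl flk at e ⊢
    rw [← Uni.floor_row (hc i) (mco (M ω) (F.d ω) i),
      ← Uni.floor_row (hc i) (mco (M ω') (F.d ω') i), e]

/-- A number on a grid which is known up to a coarser precision. -/
theorem CH_grid1 {Ω τ : Type} [Fintype Ω] {q : Ω → ℝ} (hq : IsLaw q) (f : Ω → ℝ) (Z : Ω → τ)
    (g : Ω → ℝ) (hg : Det q Z g) {n n' : ℕ} (hn : n ≤ n') {D : ℝ} (hD : 0 ≤ D)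
    (hgr : ∀ ω, ∃ z : ℤ, f ω = z / 2 ^ n') (h : ∀ ω, 0 < q ω → |f ω - g ω| ≤ D / 2 ^ n) :
    CH q f Z ≤ ((n' - n : ℕ) : ℝ) * Real.log 2 + Real.log (2 * D + 1) := by
  have hp : (0 : ℝ) < 2 ^ n' := by positivity
  have h1 := Sel.CH_near hq (fun ω => ⌊(2 : ℝ) ^ n' * f ω⌋) Z (fun ω => 2 ^ n' * g ω)
    (fun ω ω' a b e => by
      show 2 ^ n' * g ω = 2 ^ n' * g ω'
      rw [hg ω ω' a b e]) (K := D * 2 ^ (n' - n)) (by positivity) (fun ω hω => by
      obtain ⟨z, hz⟩ := hgr ω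
      have e1 : (2 : ℝ) ^ n' * f ω = z := by
        rw [hz]
        field_simp
      have e2 : ((⌊(2 : ℝ) ^ n' * f ω⌋ : ℤ) : ℝ) = 2 ^ n' * f ω := by
        rw [e1, Int.floor_intCast]
      rw [e2, ← mul_sub, abs_mul, abs_of_pos hp]
      have h2 := mul_le_mul_of_nonneg_left (h ω hω) hp.le
      refine h2.trans (le_of_eq ?_)
      have e3 : (2 : ℝ) ^ n' = 2 ^ n * 2 ^ (n' - n) := by
        rw [← pow_add]
        congr 1
        omega
      rw [e3]
      field_simp)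
  have h2 : CH q f Z ≤ CH q (fun ω => ⌊(2 : ℝ) ^ n' * f ω⌋) Z := by
    refine CH_mono_left hq.nonneg fun ω ω' _ _ e => ?_
    have e1 : ⌊(2 : ℝ) ^ n' * f ω⌋ = ⌊(2 : ℝ) ^ n' * f ω'⌋ := (Prod.ext_iff.mp e).1
    obtain ⟨z, hz⟩ := hgr ω
    obtain ⟨z', hz'⟩ := hgr ω'
    have f1 : (2 : ℝ) ^ n' * f ω = z := by
      rw [hz]
      field_simp
    have f2 : (2 : ℝ) ^ n' * f ω' = z' := by
      rw [hz']
      field_simp
    rw [f1, f2, Int.floor_intCast, Int.floor_intCast] at e1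
    rw [hz, hz', e1]
  have h3 : Real.log (2 * (D * 2 ^ (n' - n)) + 1) ≤
      ((n' - n : ℕ) : ℝ) * Real.log 2 + Real.log (2 * D + 1) := by
    rw [← Real.log_pow, ← Real.log_mul (by positivity) (by positivity)]
    refine Real.log_le_log (by positivity) ?_
    have h4 : (1 : ℝ) ≤ 2 ^ (n' - n) := one_le_pow₀ (by norm_num)
    nlinarith
  linarith

section fam3

variable {F : Fam 3 J} {A : F.Ω → Prop} {σ : Fin 3 → Fin 3} {w q V H X : ℕ} {D : ℝ}
  {a s t a' s' t' : F.Ω → ℝ}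

/-- The next context of the chain with a fixed window contains the context and the digits of the
line. -/
theorem ctx_next {ω ω' : F.Ω}
    (h : ctx F σ w (q + X) V H a s t ω = ctx F σ w (q + X) V H a s t ω') :
    ctx F σ w q V H a s t ω = ctx F σ w q V H a s t ω' ∧
      blk F σ w q V H X a s t ω = blk F σ w q V H X a s t ω' := by
  have e1 : ctx F σ w (q + X) V H a s t = F.mlb w (fun i => (cv q V H i + w) + X)
      (fun i => cv q V H i + X) (fr σ a s t) := by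
    unfold ctx Fam.blb
    rw [cv_add]
    congr 1
    funext i
    ring
  rw [e1] at h
  have h1 : ctx F σ w q V H a s t ω = ctx F σ w q V H a s t ω' :=
    mlb_coarse F (fun i => Nat.le_add_right _ _) (fun i => Nat.le_add_right _ _) h
  refine ⟨h1, ?_⟩
  have h2 := Box.digits_det h1 h
  unfold blk
  refine Prod.ext ?_ ?_
  · funext i
    exact (h2 i).1
  · funext i
    exact (h2 i).2

/-- **(H1)** -/
theorem h1r (hF : Frg F A w V H D a s t a' s' t') (hw : w ≤ J)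
    (hQ : IsLaw (Pool.Agent.H49.Ent.cond F.p A True)) {e : ℝ}
    (hT : (J : ℝ) * Real.log 2 - e ≤
      CH (Pool.Agent.H49.Ent.cond F.p A True) F.T (fun ω => (F.l ω, F.Z ω))) :
    Pool.KVA.MI (Pool.Agent.H49.Ent.cond F.p A True) (gt F a' s' t')
        (blk F σ w q V H X a s t) (ctx F σ w q V H a s t) ≤
      e + (CH (Pool.Agent.H49.Ent.cond F.p A True) (fun ω => (a' ω, s' ω, t' ω))
          (fun ω => (ctx F σ w q V H a s t ω, F.T ω)) -
        CH (Pool.Agent.H49.Ent.cond F.p A True) (fun ω => (a' ω, s' ω, t' ω))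
          (fun ω => (blk F σ w q V H X a s t ω, (ctx F σ w q V H a s t ω, F.T ω)))) := by
  have h0 := hQ.nonneg
  have h1 := mi_pair h0 F.T (fun ω => (a' ω, s' ω, t' ω)) (blk F σ w q V H X a s t)
    (ctx F σ w q V H a s t)
  have h2 := time_lab F hQ hw (ctx F σ w q V H a s t) (blk F σ w q V H X a s t)
    (fun ω ω' h => ctx_slam hF h) (fun ω ω' h => (Box.mlb_ext h).1) hT
  have h3 : Pool.KVA.MI (Pool.Agent.H49.Ent.cond F.p A True) F.T (blk F σ w q V H X a s t)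
      (ctx F σ w q V H a s t) = CH (Pool.Agent.H49.Ent.cond F.p A True) F.T
        (ctx F σ w q V H a s t) - CH (Pool.Agent.H49.Ent.cond F.p A True) F.T
          (fun ω => (blk F σ w q V H X a s t ω, ctx F σ w q V H a s t ω)) := by
    unfold Pool.KVA.MI
    have := CH_chain h0 F.T (blk F σ w q V H X a s t) (ctx F σ w q V H a s t)
    linarith
  have h4 : Pool.KVA.MI (Pool.Agent.H49.Ent.cond F.p A True) (gt F a' s' t')
      (blk F σ w q V H X a s t) (ctx F σ w q V H a s t) =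
      Pool.KVA.MI (Pool.Agent.H49.Ent.cond F.p A True)
        (fun ω => (F.T ω, (fun ω => (a' ω, s' ω, t' ω)) ω))
        (blk F σ w q V H X a s t) (ctx F σ w q V H a s t) := rfl
  rw [h4, h1, h3]
  linarith

/-- **(H1)**, the digits of the time. -/
theorem h1r_dig (hF : Frg F A w V H D a s t a' s' t') (hw : w + X ≤ J)
    (hQ : IsLaw (Pool.Agent.H49.Ent.cond F.p A True)) {e : ℝ}
    (hT : (J : ℝ) * Real.log 2 - e ≤
      CH (Pool.Agent.H49.Ent.cond F.p A True) F.T (fun ω => (F.l ω, F.Z ω))) :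
    X * Real.log 2 - e ≤ CH (Pool.Agent.H49.Ent.cond F.p A True) (Uni.dg X (F.wt w))
      (fun ω => (blk F σ w q V H X a s t ω, ctx F σ w q V H a s t ω)) :=
  time_dig F hQ (by omega) _ (fun ω ω' h => by
    obtain ⟨h1, h2⟩ := ctx_slam (q := q) (σ := σ) (X := X) hF h
    exact Prod.ext h2 h1) hT hw

/-- **Principle M.** Contexts with the same window and base velocities to `q₀ + k X`. -/
theorem h1r_sum (hQ : IsLaw (Pool.Agent.H49.Ent.cond F.p A True)) (q₀ N : ℕ) :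
    ∑ k ∈ range N, (CH (Pool.Agent.H49.Ent.cond F.p A True) (fun ω => (a' ω, s' ω, t' ω))
          (fun ω => (ctx F σ w (q₀ + k * X) V H a s t ω, F.T ω)) -
        CH (Pool.Agent.H49.Ent.cond F.p A True) (fun ω => (a' ω, s' ω, t' ω))
          (fun ω => (blk F σ w (q₀ + k * X) V H X a s t ω,
            (ctx F σ w (q₀ + k * X) V H a s t ω, F.T ω)))) ≤
      CH (Pool.Agent.H49.Ent.cond F.p A True) (fun ω => (a' ω, s' ω, t' ω))
        (fun ω => (ctx F σ w q₀ V H a s t ω, F.T ω)) := by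
  have h0 := hQ.nonneg
  have h1 := tel_fix h0 (fun ω => (a' ω, s' ω, t' ω))
    (fun k => blk F σ w (q₀ + k * X) V H X a s t) (fun k => ctx F σ w (q₀ + k * X) V H a s t)
    F.T (N := N) (C := 0) le_rfl (fun k _ => by
      refine le_of_eq (CH_eq_zero h0 fun ω ω' _ _ h => ?_)
      have h2 := (Prod.ext_iff.mp h).1
      have e1 : q₀ + (k + 1) * X = (q₀ + k * X) + X := by ring
      simp only [e1] at h2
      obtain ⟨h3, h4⟩ := ctx_next h2
      exact Prod.ext h4 h3)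
  simp only [zero_mul, mul_zero, add_zero] at h1
  exact h1

/-- The exact frame has few digits given the context and the time. -/
theorem frame_dig (hF : Frg F A w V H D a s t a' s' t') (hσ : Function.Injective σ)
    (hQ : IsLaw (Pool.Agent.H49.Ent.cond F.p A True)) {V' H' R' : ℕ} (hV : V ≤ V') (hH : H ≤ H')
    (hR : V + H ≤ R') (ga : ∀ ω, ∃ z : ℤ, a' ω = z / 2 ^ V') (gs : ∀ ω, ∃ z : ℤ, s' ω = z / 2 ^ H')
    (gt : ∀ ω, ∃ z : ℤ, t' ω = z / 2 ^ R') (hD : 0 ≤ D) :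
    CH (Pool.Agent.H49.Ent.cond F.p A True) (fun ω => (a' ω, s' ω, t' ω))
        (fun ω => (ctx F σ w q V H a s t ω, F.T ω)) ≤
      (((V' - V : ℕ) : ℝ) + ((H' - H : ℕ) : ℝ) + ((R' - (V + H) : ℕ) : ℝ)) * Real.log 2 +
        3 * Real.log (2 * D + 1) := by
  have hA : ∀ ω, 0 < Pool.Agent.H49.Ent.cond F.p A True ω → A ω := fun ω hω =>
    of_eq_true ((cond_pos_iff F.isLaw.nonneg A True ω).1 hω).2
  have h0 := hQ.nonneg
  have c1 := CH_grid1 hQ a' (fun ω => (ctx F σ w q V H a s t ω, F.T ω)) a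
    (fun ω ω' _ _ h => (ctx_frm hσ (Prod.ext_iff.mp h).1).1) hV hD ga
    (fun ω hω => hF.ca ω (hA ω hω))
  have c2 := CH_grid1 hQ s' (fun ω => (ctx F σ w q V H a s t ω, F.T ω)) s
    (fun ω ω' _ _ h => (ctx_frm hσ (Prod.ext_iff.mp h).1).2.1) hH hD gs
    (fun ω hω => hF.cs ω (hA ω hω))
  have c3 := CH_grid1 hQ t' (fun ω => (s' ω, (ctx F σ w q V H a s t ω, F.T ω)))
    (fun ω => t ω - (s' ω - s ω) * a ω)
    (fun ω ω' _ _ h => by
      have h1 := (Prod.ext_iff.mp h).1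
      obtain ⟨e1, e2, e3⟩ := ctx_frm hσ (Prod.ext_iff.mp (Prod.ext_iff.mp h).2).1
      simp only at h1
      show t ω - (s' ω - s ω) * a ω = t ω' - (s' ω' - s ω') * a ω'
      rw [h1, e1, e2, e3]) hR hD gt
    (fun ω hω => by
      have h1 := hF.ct ω (hA ω hω)
      have e : t' ω - (t ω - (s' ω - s ω) * a ω) = (t' ω - t ω) + (s' ω - s ω) * a ω := by ring
      rw [e]
      exact h1)
  have d1 := CH_subadd h0 a' (fun ω => (s' ω, t' ω)) (fun ω => (ctx F σ w q V H a s t ω, F.T ω))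
  have d2 : CH (Pool.Agent.H49.Ent.cond F.p A True) (fun ω => (s' ω, t' ω))
      (fun ω => (ctx F σ w q V H a s t ω, F.T ω)) =
      CH (Pool.Agent.H49.Ent.cond F.p A True) (fun ω => (t' ω, s' ω))
      (fun ω => (ctx F σ w q V H a s t ω, F.T ω)) := by
    refine CH_congr h0 ?_ ?_ (fun _ _ _ _ h => h) (fun _ _ _ _ h => h)
    · intro ω ω' _ _ h
      simp only [Prod.mk.injEq] at h ⊢
      tauto
    · intro ω ω' _ _ h
      simp only [Prod.mk.injEq] at h ⊢
      tauto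
  have d3 := CH_chain h0 t' s' (fun ω => (ctx F σ w q V H a s t ω, F.T ω))
  have e1 : (((V' - V : ℕ) : ℝ) + ((H' - H : ℕ) : ℝ) + ((R' - (V + H) : ℕ) : ℝ)) * Real.log 2 =
      ((V' - V : ℕ) : ℝ) * Real.log 2 + ((H' - H : ℕ) : ℝ) * Real.log 2 +
        ((R' - (V + H) : ℕ) : ℝ) * Real.log 2 := by ring
  rw [e1]
  linarith

end fam3

end Pool.S6N
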