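import Pool.Agent.H97.S6.Zne

/-!
# Levels in the zone: arithmetic, and the choice of the base point

The chain of windows `Wt - dw - j M X`, the mesh window below a window, the base velocity levels.
-/

set_option autoImplicit false

namespace Pool.S6N

open Finset Real
open Pool.Agent.H49.Ent Pool.Agent.H32.Dense Pool.STK Pool.KA Pool.KSAT Pool.K2S Pool.PB Pool.KS6
  Pool.S6C Pool.Sel51

/-- **Base point**: a finite family of injective maps of the bases into the places; some base has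
few bad places. -/
theorem base_sel {β ι κ : Type} [DecidableEq κ] (bs : Finset β) (I : Finset ι) (Bad : Finset κ)
    (pl : ι → β → κ) (hne : bs.Nonempty)
    (hinj : ∀ i ∈ I, ∀ b ∈ bs, ∀ b' ∈ bs, pl i b = pl i b' → b = b') :
    ∃ b ∈ bs, bs.card * (I.filter fun i => pl i b ∈ Bad).card ≤ I.card * Bad.card := by
  classical
  by_contra hcon
  push Not at hcon
  have h1 : ∑ b ∈ bs, (I.filter fun i => pl i b ∈ Bad).card ≤ I.card * Bad.card := by
    have e1 : ∀ b ∈ bs, (I.filter fun i => pl i b ∈ Bad).card =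
        ∑ i ∈ I, if pl i b ∈ Bad then 1 else 0 := by
      intro b _
      rw [Finset.card_filter]
    rw [Finset.sum_congr rfl e1, Finset.sum_comm]
    have e2 : ∀ i ∈ I, ∑ b ∈ bs, (if pl i b ∈ Bad then 1 else 0) ≤ Bad.card := by
      intro i hi
      rw [← Finset.card_filter]
      refine Finset.card_le_card_of_injOn (pl i) ?_ ?_
      · intro b hb
        exact (Finset.mem_filter.mp hb).2
      · intro b hb b' hb' h
        exact hinj i hi b (Finset.mem_filter.mp hb).1 b' (Finset.mem_filter.mp hb').1 h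
    calc _ ≤ ∑ i ∈ I, Bad.card := Finset.sum_le_sum e2
      _ = _ := by rw [Finset.sum_const, smul_eq_mul]
  obtain ⟨b₀, hb₀⟩ := hne
  have h2 : ∑ b ∈ bs, (I.card * Bad.card) <
      ∑ b ∈ bs, bs.card * (I.filter fun i => pl i b ∈ Bad).card :=
    Finset.sum_lt_sum_of_nonempty ⟨b₀, hb₀⟩ hcon
  rw [Finset.sum_const, smul_eq_mul, ← Finset.mul_sum] at h2
  have h3 := Nat.mul_le_mul_left bs.card h1
  omega

/-- The mesh window below the window `w`. -/
noncomputable def mix (u : ℕ → ℚ) (J w : ℕ) : ℕ := sInf {m | wl u J m ≤ w}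

theorem mix_spec {u : ℕ → ℚ} {J N w : ℕ} (h : wl u J N ≤ w) (h0 : w < wl u J 0) :
    1 ≤ mix u J w ∧ mix u J w ≤ N ∧ wl u J (mix u J w) ≤ w ∧
      (∀ i < mix u J w, w < wl u J i) ∧ w < wl u J (mix u J w - 1) := by
  have hne : {m | wl u J m ≤ w}.Nonempty := ⟨N, h⟩
  have h1 : wl u J (mix u J w) ≤ w := Nat.sInf_mem hne
  have h2 : ∀ i < mix u J w, w < wl u J i := by
    intro i hi
    have := Nat.notMem_of_lt_sInf hi
    simp only [Set.mem_ofPred_eq, not_le] at this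
    exact this
  have h3 : 1 ≤ mix u J w := by
    rcases Nat.eq_zero_or_pos (mix u J w) with h4 | h4
    · rw [h4] at h1
      omega
    · exact h4
  exact ⟨h3, Nat.sInf_le h, h1, h2, h2 _ (by omega)⟩

section zone

variable {σ : ℝ → Row} {N : ℕ} {u : ℕ → ℚ} {w₀ v₀ v g ρ e : ℝ}

theorem Zon.anti (h : Zon σ N u w₀ v₀ v g ρ e) {i j : ℕ} (hij : i ≤ j) (hj : j ≤ N) :
    u j ≤ u i := by
  induction j, hij using Nat.le_induction with
  | base => exact le_rfl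
  | succ k hk ih => exact (h.dec k (by omega)).le.trans (ih (by omega))

theorem Zon.antiR (h : Zon σ N u w₀ v₀ v g ρ e) {i j : ℕ} (hij : i ≤ j) (hj : j ≤ N) :
    (u j : ℝ) ≤ u i := by exact_mod_cast h.anti hij hj

theorem Zon.posR (h : Zon σ N u w₀ v₀ v g ρ e) {j : ℕ} (hj : j ≤ N) : (0 : ℝ) < u j := by
  have h1 := h.antiR hj le_rfl
  have h2 : (0 : ℝ) < u N := by exact_mod_cast h.pos
  linarith only [h1, h2]

theorem wl_anti (h : Zon σ N u w₀ v₀ v g ρ e) (J : ℕ) {i j : ℕ} (hij : i ≤ j) (hj : j ≤ N) :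
    wl u J j ≤ wl u J i :=
  Nat.floor_le_floor (mul_le_mul_of_nonneg_right (h.antiR hij hj) (Nat.cast_nonneg J))

theorem vl_anti (h : Zon σ N u w₀ v₀ v g ρ e) (J : ℕ) {i j : ℕ} (hij : i ≤ j) (hj : j ≤ N) :
    vl u w₀ v₀ v e J j ≤ vl u w₀ v₀ v e J i := by
  refine Nat.floor_le_floor (mul_le_mul_of_nonneg_right ?_ (Nat.cast_nonneg J))
  have := mul_le_mul_of_nonneg_left (h.antiR hij hj) h.v0
  linarith only [this]

theorem rl_anti (h : Zon σ N u w₀ v₀ v g ρ e) (J : ℕ) {i j : ℕ} (hij : i ≤ j) (hj : j ≤ N) :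
    rl u w₀ g ρ e J j ≤ rl u w₀ g ρ e J i := by
  refine Nat.floor_le_floor (mul_le_mul_of_nonneg_right ?_ (Nat.cast_nonneg J))
  have := mul_le_mul_of_nonneg_left (h.antiR hij hj) h.ρ0
  linarith only [this]

theorem vl_le_rl (h : Zon σ N u w₀ v₀ v g ρ e) (J : ℕ) {j : ℕ} (hj : j ≤ N) :
    vl u w₀ v₀ v e J j ≤ rl u w₀ g ρ e J j := by
  refine Nat.floor_le_floor (mul_le_mul_of_nonneg_right ?_ (Nat.cast_nonneg J))
  have h1 := (h.aff (u j) (h.anti hj le_rfl) (h.anti (Nat.zero_le j) hj)).2.2.2.2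
  have := h.e0
  linarith only [h1, this]

/-- Difference of two levels which are rounded down and truncated at zero. -/
theorem floor_sub_le {a b : ℝ} (h : a ≤ b) : ((⌊b⌋₊ : ℕ) : ℝ) - (⌊a⌋₊ : ℕ) ≤ b - a + 1 := by
  rcases le_total b 0 with hb | hb
  · rw [Nat.floor_of_nonpos hb]
    have := Nat.cast_nonneg (α := ℝ) ⌊a⌋₊
    push_cast
    linarith only [h]
  · have h1 := Nat.floor_le hb
    have h2 := Nat.lt_floor_add_one a
    linarith only [h1, h2]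

theorem floor_sub_ge {a b : ℝ} (ha : 0 ≤ a) :
    b - a - 1 ≤ ((⌊b⌋₊ : ℕ) : ℝ) - (⌊a⌋₊ : ℕ) := by
  have h1 := Nat.floor_le ha
  have h2 := Nat.lt_floor_add_one b
  linarith only [h1, h2]

/-- The mesh window below a window. -/
theorem mesh_near (h : Zon σ N u w₀ v₀ v g ρ e) {J w m : ℕ} (hm1 : 1 ≤ m) (hmN : m ≤ N)
    (h1 : wl u J m ≤ w) (h2 : w < wl u J (m - 1)) :
    (u m : ℝ) * J < w + 1 ∧ (1 + v + ρ) * ((w : ℝ) + 1 - u m * J) ≤ e * J := by
  have hJ : (0 : ℝ) ≤ J := Nat.cast_nonneg J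
  have a1 : (u m : ℝ) * J < w + 1 := by
    have := Nat.lt_of_floor_lt (Nat.lt_succ_of_le h1)
    push_cast at this
    exact this
  refine ⟨a1, ?_⟩
  have a2 : ((w + 1 : ℕ) : ℝ) ≤ u (m - 1) * J := by
    have h3 : w + 1 ≤ wl u J (m - 1) := h2
    have h4 : (0 : ℝ) ≤ u (m - 1) * J := mul_nonneg (h.posR (by omega)).le hJ
    exact (Nat.cast_le.mpr h3).trans (Nat.floor_le h4)
  have a3 := h.stp (m - 1) (by omega)
  rw [show m - 1 + 1 = m by omega] at a3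
  have a4 : 0 ≤ 1 + v + ρ := by linarith only [h, h.v0, h.ρ0]
  push_cast at a2
  calc (1 + v + ρ) * ((w : ℝ) + 1 - u m * J) ≤ (1 + v + ρ) * ((u (m - 1) - u m) * J) :=
        mul_le_mul_of_nonneg_left (by linarith only [a2]) a4
    _ = (1 + v + ρ) * (u (m - 1) - u m) * J := by ring
    _ ≤ e * J := mul_le_mul_of_nonneg_right a3 hJ

end zone

/-- **Arithmetic of the chain**: `N₁` steps of length `M X` from the window `Wt`, base points in
`[0, X)`, rows from `Pt` on. -/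
structure Arc (σ : ℝ → Row) (N : ℕ) (u : ℕ → ℚ) (w₀ v₀ v g ρ P ε l CZ : ℝ)
    (J X M N₁ N₂ Wt Pt : ℕ) : Prop where
  zon : Zon σ N u w₀ v₀ v g ρ (ε * l)
  vρ : v < ρ
  vp : 0 ≤ v₀
  l0 : 0 < l
  ε0 : 0 < ε
  ε1 : ε ≤ 1 / 100
  hX : X = ⌊l * J⌋₊
  X5 : 100 * (1 + ρ) ≤ X
  M1 : 1 ≤ M
  hM : 2 ≤ (ρ - v) * M
  cz : (1 + ρ) * (N₁ * M + 2) + N₂ + 10 ≤ CZ
  top : w₀ + CZ * l < u 0
  bot : (u N : ℝ) < w₀ - CZ * l
  hW : Wt = ⌊w₀ * J⌋₊
  hP : Pt = ⌊P * J⌋₊
  w0p : CZ * l < w₀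
  Pg : CZ * l < P - g
  P1 : P + CZ * l < 1
  gap : CZ * l < g - w₀ - v₀

section arc

variable {σ : ℝ → Row} {N : ℕ} {u : ℕ → ℚ} {w₀ v₀ v g ρ P ε l CZ : ℝ}
  {J X M N₁ N₂ Wt Pt : ℕ}

theorem Arc.basic (h : Arc σ N u w₀ v₀ v g ρ P ε l CZ J X M N₁ N₂ Wt Pt) :
    (X : ℝ) ≤ l * J ∧ l * J < X + 1 ∧ 100 ≤ (X : ℝ) ∧ 0 ≤ ρ ∧ 0 ≤ CZ ∧ (0 : ℝ) ≤ J ∧
      ε * l * J ≤ X / 50 ∧ CZ * X ≤ CZ * l * J ∧ (Wt : ℝ) ≤ w₀ * J ∧ w₀ * J < Wt + 1 ∧
      (Pt : ℝ) ≤ P * J ∧ P * J < Pt + 1 := by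
  have hJ : (0 : ℝ) ≤ J := Nat.cast_nonneg J
  have hl := h.l0
  have h1 : (0 : ℝ) ≤ l * J := by positivity
  have a1 := Nat.floor_le h1
  have a2 := Nat.lt_floor_add_one (l * J)
  rw [← h.hX] at a1 a2
  have hρ := h.zon.ρ0
  have a3 := h.X5
  have a4 : (100 : ℝ) ≤ X := by linarith only [hρ, a3]
  have a5 : (0 : ℝ) ≤ CZ := by
    refine le_trans ?_ h.cz
    positivity
  have a6 : ε * l * J ≤ X / 50 := by
    have b1 : ε * l * J ≤ 1 / 100 * (l * J) := by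
      rw [mul_assoc]
      exact mul_le_mul_of_nonneg_right h.ε1 h1
    linarith only [a2, hρ, a3, b1]
  have a7 : CZ * X ≤ CZ * l * J := by
    rw [mul_assoc]
    exact mul_le_mul_of_nonneg_left a1 a5
  have hw0 : 0 ≤ w₀ * J := by
    have := h.w0p
    have h2 : 0 ≤ CZ * l := by positivity
    exact mul_nonneg (by linarith only [this, h2]) hJ
  have hP0 : 0 ≤ P * J := by
    have b1 := h.Pg
    have b2 := h.gap
    have b3 := h.w0p
    have b4 := h.vp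
    have h2 : 0 ≤ CZ * l := by positivity
    exact mul_nonneg (by linarith only [b1, b2, b3, b4, h2]) hJ
  have c1 := Nat.floor_le hw0
  have c2 := Nat.lt_floor_add_one (w₀ * J)
  have c3 := Nat.floor_le hP0
  have c4 := Nat.lt_floor_add_one (P * J)
  rw [← h.hW] at c1 c2
  rw [← h.hP] at c3 c4
  exact ⟨a1, a2, a4, hρ, a5, hJ, a6, a7, c1, c2, c3, c4⟩

/-- The window of the chain, as a real number. -/
theorem Arc.win (h : Arc σ N u w₀ v₀ v g ρ P ε l CZ J X M N₁ N₂ Wt Pt) {dw j : ℕ} (hdw : dw < X)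
    (hj : j ≤ N₁) : dw + j * (M * X) ≤ Wt ∧
      ((Wt - dw - j * (M * X) : ℕ) : ℝ) = Wt - dw - j * (M * X) ∧
      w₀ * J - (N₁ * M + 2) * X ≤ Wt - dw - j * (M * X) := by
  obtain ⟨a1, a2, a3, a4, a5, a6, a7, a8, a9, a10, a11, a12⟩ := h.basic
  have hdw' : (dw : ℝ) ≤ X := by exact_mod_cast hdw.le
  have hj' : (j : ℝ) ≤ N₁ := by exact_mod_cast hj
  have hMX : (0 : ℝ) ≤ M * X := by positivity
  have b1 : (j : ℝ) * (M * X) ≤ N₁ * (M * X) := mul_le_mul_of_nonneg_right hj' hMX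
  have b2 : ((N₁ : ℝ) * M + 2) * X ≤ w₀ * J := by
    have c1 := h.cz
    have c2 : ((N₁ : ℝ) * M + 2) ≤ CZ := by
      refine le_trans ?_ c1
      have : (0 : ℝ) ≤ ρ * (N₁ * M + 2) := by positivity
      have : (0 : ℝ) ≤ N₂ := Nat.cast_nonneg _
      nlinarith
    have c3 : ((N₁ : ℝ) * M + 2) * X ≤ CZ * X := mul_le_mul_of_nonneg_right c2 (by linarith only [a3])
    have c4 : CZ * l * J ≤ w₀ * J := mul_le_mul_of_nonneg_right h.w0p.le a6
    linarith only [a8, c3, c4]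
  have b3 : (dw : ℝ) + j * (M * X) ≤ Wt := by
    have : ((N₁ : ℝ) * M + 2) * X = N₁ * (M * X) + 2 * X := by ring
    linarith only [a3, a10, hdw', b1, b2]
  have b4 : dw + j * (M * X) ≤ Wt := by exact_mod_cast b3
  refine ⟨b4, ?_, ?_⟩
  · rw [Nat.sub_sub, Nat.cast_sub b4]
    push_cast
    ring
  · have : ((N₁ : ℝ) * M + 2) * X = N₁ * (M * X) + 2 * X := by ring
    linarith only [a3, a10, hdw', b1]

/-- The mesh window and the levels at a window of the chain. -/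
theorem Arc.lev (h : Arc σ N u w₀ v₀ v g ρ P ε l CZ J X M N₁ N₂ Wt Pt) {dw j w : ℕ} (dP : ℕ)
    (hdw : dw < X) (hj : j ≤ N₁) (hw : w = Wt - dw - j * (M * X)) :
    wl u J N ≤ w ∧ w < wl u J 0 ∧ w + X ≤ J ∧
      rl u w₀ g ρ (ε * l) J (mix u J w) + w ≤ Pt + dP ∧
      (rl u w₀ g ρ (ε * l) J (mix u J w) : ℝ) + w ≤ g * J + ρ ∧
      g * J - ((1 + ρ) * (N₁ * M + 2) + 3) * X ≤
        rl u w₀ g ρ (ε * l) J (mix u J w) + w ∧
      (rl u w₀ g ρ (ε * l) J (mix u J w) : ℝ) ≤ (g - w₀) * J + ρ ∧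
      (vl u w₀ v₀ v (ε * l) J (mix u J w) : ℝ) ≤ v₀ * J + v ∧
      (u (mix u J w) : ℝ) * J ≤ w₀ * J + 1 ∧
      0 ≤ (g - w₀ + ρ * (u (mix u J w) - w₀) - 20 * (ε * l)) * J ∧
      (u (mix u J w) : ℝ) * J < w + 1 ∧
      (1 + v + ρ) * ((w : ℝ) + 1 - u (mix u J w) * J) ≤ ε * l * J := by
  obtain ⟨a1, a2, a3, a4, a5, a6, a7, a8, a9, a10, a11, a12⟩ := h.basic
  obtain ⟨b1, b2, b3⟩ := h.win hdw hj
  rw [← hw] at b2
  have hdw' : (0 : ℝ) ≤ dw := Nat.cast_nonneg dw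
  have hMX : (0 : ℝ) ≤ j * (M * X) := by positivity
  have c0 : (w : ℝ) ≤ w₀ * J := by linarith only [a9, b2, hMX]
  have c1 : w₀ * J - (N₁ * M + 2) * X ≤ w := by linarith only [b2, b3]
  have cZ : ((1 + ρ) * (N₁ * M + 2) + N₂ + 10) * X ≤ CZ * X :=
    mul_le_mul_of_nonneg_right h.cz (by linarith only [a3])
  have hN2 : (0 : ℝ) ≤ N₂ * X := by positivity
  have hρN : (0 : ℝ) ≤ ρ * (N₁ * M + 2) * X := by positivity
  have e0 : ((1 + ρ) * (N₁ * M + 2) + N₂ + 10) * X =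
    (N₁ * M + 2) * X + ρ * (N₁ * M + 2) * X + N₂ * X + 10 * X := by ring
  have c2 : wl u J N ≤ w := by
    have d1 : (u N : ℝ) * J ≤ w₀ * J - CZ * l * J := by
      have := mul_le_mul_of_nonneg_right h.bot.le a6
      linarith only [this]
    have d2 : ((wl u J N : ℕ) : ℝ) ≤ w := by
      have d3 : (0 : ℝ) ≤ u N * J := mul_nonneg (h.zon.posR le_rfl).le a6
      have d4 := Nat.floor_le d3
      show ((⌊(u N : ℝ) * J⌋₊ : ℕ) : ℝ) ≤ w
      linarith only [a3, a8, b2, b3, cZ, hN2, hρN, d1, d4]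
    exact_mod_cast d2
  have c3 : w < wl u J 0 := by
    have d1 : w₀ * J + CZ * l * J ≤ (u 0 : ℝ) * J := by
      have := mul_le_mul_of_nonneg_right h.top.le a6
      linarith only [this]
    have d2 : (w : ℝ) + 1 ≤ u 0 * J := by linarith only [a3, a8, a9, b2, b3, hMX, cZ, hN2, hρN, d1]
    have d3 : w + 1 ≤ wl u J 0 := Nat.le_floor (by push_cast; exact d2)
    omega
  obtain ⟨m1, m2, m3, m4, m5⟩ := mix_spec c2 c3
  obtain ⟨n1, n2⟩ := mesh_near h.zon m1 m2 m3 m5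
  have hw1 : w₀ < 1 := by
    have e1 := h.P1
    have e2 := h.Pg
    have e3 := h.gap
    have e4 := h.vp
    have e5 : 0 ≤ CZ * l := mul_nonneg a5 h.l0.le
    linarith only [e1, e2, e3, e4, e5]
  have n3 : ρ * ((w : ℝ) + 1 - u (mix u J w) * J) ≤ ε * l * J := by
    have d1 : 0 ≤ (w : ℝ) + 1 - u (mix u J w) * J := by linarith only [n1]
    have d2 : 0 ≤ (1 + v) * ((w : ℝ) + 1 - u (mix u J w) * J) :=
      mul_nonneg (by linarith only [h, h.zon.v0]) d1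
    have d3 : (1 + v + ρ) * ((w : ℝ) + 1 - u (mix u J w) * J) =
      (1 + v) * ((w : ℝ) + 1 - u (mix u J w) * J) + ρ * ((w : ℝ) + 1 - u (mix u J w) * J) := by
      ring
    linarith only [n2, d2]
  have n4 : (u (mix u J w) : ℝ) * J ≤ w₀ * J + 1 := by linarith only [a9, b2, hMX, n1]
  have hJ1 : (0 : ℝ) < J := by
    rcases Nat.eq_zero_or_pos J with h0 | h0
    · rw [h0] at a1
      push_cast at a1
      rw [mul_zero] at a1
      linarith only [a3, a1]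
    · exact_mod_cast h0
  -- the real level
  obtain ⟨Rr, hRr⟩ : ∃ Rr : ℝ, Rr = (g - w₀ + ρ * (u (mix u J w) - w₀) - 20 * (ε * l)) * J :=
    ⟨_, rfl⟩
  have eR : Rr = (g - w₀) * J + ρ * (u (mix u J w) * J - w₀ * J) - 20 * (ε * l * J) := by
    rw [hRr]
    ring
  have hr1 : ρ * ((w : ℝ) + 1 - w₀ * J) - ε * l * J ≤
      ρ * (u (mix u J w) * J - w₀ * J) := by
    have : ρ * ((w : ℝ) + 1 - w₀ * J) = ρ * (u (mix u J w) * J - w₀ * J) +
      ρ * ((w : ℝ) + 1 - u (mix u J w) * J) := by ring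
    linarith only [n3]
  have hr2 : ρ * (-((N₁ * M + 2) * X)) ≤ ρ * ((w : ℝ) + 1 - w₀ * J) :=
    mul_le_mul_of_nonneg_left (by linarith only [b2, b3]) a4
  have hr3 : ρ * (u (mix u J w) * J - w₀ * J) ≤ ρ * 1 :=
    mul_le_mul_of_nonneg_left (by linarith only [a9, b2, hMX, n1]) a4
  have hgap : CZ * l * J + v₀ * J ≤ (g - w₀) * J := by
    have := mul_le_mul_of_nonneg_right h.gap.le a6
    linarith only [this]
  have hv0J : 0 ≤ v₀ * J := mul_nonneg h.vp a6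
  have er : ρ * (-((N₁ * M + 2) * X)) = -(ρ * (N₁ * M + 2) * X) := by ring
  have hR0 : 0 ≤ Rr := by
    rw [eR]
    linarith only [a3, a7, a8, a9, b3, hMX, cZ, hN2, n3, hr2, hgap, hv0J, mul_nonneg (mul_nonneg (Nat.cast_nonneg (α := ℝ) N₁) (Nat.cast_nonneg (α := ℝ) M))
      (Nat.cast_nonneg (α := ℝ) X)]
  have hRn : ((rl u w₀ g ρ (ε * l) J (mix u J w) : ℕ) : ℝ) ≤ Rr := by
    rw [hRr]
    rw [hRr] at hR0
    exact Nat.floor_le hR0
  have hRm : Rr - 1 ≤ ((rl u w₀ g ρ (ε * l) J (mix u J w) : ℕ) : ℝ) := by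
    rw [hRr]
    have := Nat.lt_floor_add_one ((g - w₀ + ρ * (u (mix u J w) - w₀) - 20 * (ε * l)) * (J : ℝ))
    show _ ≤ ((⌊_⌋₊ : ℕ) : ℝ)
    linarith only [this]
  have hel : 0 ≤ ε * l * J := mul_nonneg (mul_nonneg h.ε0.le h.l0.le) a6
  have r1 : ((rl u w₀ g ρ (ε * l) J (mix u J w) : ℕ) : ℝ) ≤ (g - w₀) * J + ρ := by
    rw [eR] at hRn
    linarith only [hr3, hRn, hel]
  have r2 : ((rl u w₀ g ρ (ε * l) J (mix u J w) : ℕ) : ℝ) + w ≤ g * J + ρ := by
    have : (g - w₀) * J = g * J - w₀ * J := by ring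
    linarith only [a9, b2, hMX, hRr, hr3, hRn, hel]
  have r3 : g * J - ((1 + ρ) * (N₁ * M + 2) + 3) * X ≤
      (rl u w₀ g ρ (ε * l) J (mix u J w) : ℝ) + w := by
    rw [eR] at hRm
    have e1 : (g - w₀) * J = g * J - w₀ * J := by ring
    have e2 : ((1 + ρ) * (N₁ * M + 2) + 3) * X =
      (N₁ * M + 2) * X + ρ * (N₁ * M + 2) * X + 3 * X := by ring
    linarith only [a3, a7, b2, b3, n3, hr2, hRm]
  have hX5 := h.X5
  have hNX : (0 : ℝ) ≤ (N₁ * M + 2) * X := by positivity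
  have hPgJ : CZ * l * J ≤ (P - g) * J := mul_le_mul_of_nonneg_right h.Pg.le a6
  refine ⟨c2, c3, ?_, ?_, r2, r3, r1, ?_, n4, hRr ▸ hR0, n1, n2⟩
  · have d1 : (w : ℝ) + X ≤ J := by
      have f1 : P * J + CZ * l * J ≤ J := by
        have := mul_le_mul_of_nonneg_right h.P1.le a6
        linarith only [this]
      have f2 : (P - g) * J = P * J - g * J := by ring
      have f3 : (g - w₀) * J = g * J - w₀ * J := by ring
      linarith only [a3, a8, a9, b2, b3, hMX, cZ, hN2, hρN, hgap, hv0J, hPgJ, f1]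
    exact_mod_cast d1
  · have d1 : ((rl u w₀ g ρ (ε * l) J (mix u J w) + w : ℕ) : ℝ) ≤ ((Pt + dP : ℕ) : ℝ) := by
      have f2 : (P - g) * J = P * J - g * J := by ring
      push_cast
      have f3 : (0 : ℝ) ≤ dP := Nat.cast_nonneg _
      linarith only [a3, a8, a9, a12, b2, b3, hMX, cZ, hN2, hρN, hRr, hr3, hRn, hel, hX5, hPgJ]
    exact_mod_cast d1
  · rcases le_total ((v₀ + v * (u (mix u J w) - w₀) - 10 * (ε * l)) * J) 0 with hn | hn
    · have : vl u w₀ v₀ v (ε * l) J (mix u J w) = 0 := Nat.floor_of_nonpos hn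
      rw [this]
      push_cast
      linarith only [hv0J, h, h.zon.v0]
    · have f1 := Nat.floor_le hn
      have f2 : (v₀ + v * (u (mix u J w) - w₀) - 10 * (ε * l)) * J =
        v₀ * J + v * (u (mix u J w) * J - w₀ * J) - 10 * (ε * l * J) := by ring
      have f3 : v * (u (mix u J w) * J - w₀ * J) ≤ v * 1 :=
        mul_le_mul_of_nonneg_left (by linarith only [a9, b2, hMX, n1]) h.zon.v0
      show ((⌊_⌋₊ : ℕ) : ℝ) ≤ _
      linarith only [hel, f1, f3]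

theorem mix_anti {u : ℕ → ℚ} {J w w' : ℕ} (h : w' ≤ w) (hne : ∃ m, wl u J m ≤ w') :
    mix u J w ≤ mix u J w' := by
  have h1 : wl u J (mix u J w') ≤ w' := Nat.sInf_mem hne
  exact Nat.sInf_le (h1.trans h)

/-- Two windows of the chain. -/
theorem Arc.two (h : Arc σ N u w₀ v₀ v g ρ P ε l CZ J X M N₁ N₂ Wt Pt) {dw i j w w' : ℕ}
    (hdw : dw < X) (hij : i ≤ j) (hj : j ≤ N₁) (hw : w = Wt - dw - i * (M * X))
    (hw' : w' = Wt - dw - j * (M * X)) :
    (w : ℝ) - w' = (j - i) * (M * X) ∧ mix u J w ≤ mix u J w' ∧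
      vl u w₀ v₀ v (ε * l) J (mix u J w') ≤ vl u w₀ v₀ v (ε * l) J (mix u J w) ∧
      (vl u w₀ v₀ v (ε * l) J (mix u J w) : ℝ) - vl u w₀ v₀ v (ε * l) J (mix u J w') ≤
        v * ((j - i) * (M * X)) + X / 25 + 1 ∧
      (rl u w₀ g ρ (ε * l) J (mix u J w) : ℝ) - rl u w₀ g ρ (ε * l) J (mix u J w') ≤
        ρ * ((j - i) * (M * X)) + X / 25 + 1 ∧
      (ρ - v) * ((j - i) * (M * X)) - X / 50 - 2 ≤
        ((rl u w₀ g ρ (ε * l) J (mix u J w) : ℝ) - vl u w₀ v₀ v (ε * l) J (mix u J w)) -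
        (rl u w₀ g ρ (ε * l) J (mix u J w') - vl u w₀ v₀ v (ε * l) J (mix u J w')) := by
  obtain ⟨a1, a2, a3, a4, a5, a6, a7, a8, a9, a10, a11, a12⟩ := h.basic
  obtain ⟨b1, b2, b3⟩ := h.win hdw (hij.trans hj)
  obtain ⟨d1, d2, d3⟩ := h.win hdw hj
  obtain ⟨p1, p2, p3, p4, p5, p6, p7, p8, p9, p10, p11, p12⟩ := h.lev 0 hdw (hij.trans hj) hw
  obtain ⟨q1, q2, q3, q4, q5, q6, q7, q8, q9, q10, q11, q12⟩ := h.lev 0 hdw hj hw'
  rw [← hw] at b2
  rw [← hw'] at d2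
  have hv := h.zon.v0
  have hww : (w : ℝ) - w' = (j - i) * (M * X) := by
    rw [b2, d2]
    ring
  have hle : w' ≤ w := by
    rw [hw, hw']
    exact Nat.sub_le_sub_left (Nat.mul_le_mul_right _ hij) _
  have hmix : mix u J w ≤ mix u J w' := mix_anti hle ⟨N, q1⟩
  have hN' : mix u J w' ≤ N := (mix_spec q1 q2).2.1
  have hV := vl_anti h.zon J hmix hN'
  have hu := h.zon.antiR hmix hN'
  have huJ : (u (mix u J w') : ℝ) * J ≤ u (mix u J w) * J := mul_le_mul_of_nonneg_right hu a6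
  have hvρ := h.vρ
  -- the differences
  have t1 : ∀ x : ℝ, 0 ≤ x → x ≤ 1 + v + ρ →
      x * ((w : ℝ) + 1 - u (mix u J w) * J) ≤ ε * l * J := fun x _ hx =>
    (mul_le_mul_of_nonneg_right hx (by linarith only [p11])).trans p12
  have t2 : ∀ x : ℝ, 0 ≤ x → x ≤ 1 + v + ρ →
      x * ((w' : ℝ) + 1 - u (mix u J w') * J) ≤ ε * l * J := fun x _ hx =>
    (mul_le_mul_of_nonneg_right hx (by linarith only [q11])).trans q12
  have t3 : ∀ x : ℝ, 0 ≤ x → 0 ≤ x * ((w : ℝ) + 1 - u (mix u J w) * J) := fun x hx =>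
    mul_nonneg hx (by linarith only [p11])
  have t4 : ∀ x : ℝ, 0 ≤ x → 0 ≤ x * ((w' : ℝ) + 1 - u (mix u J w') * J) := fun x hx =>
    mul_nonneg hx (by linarith only [q11])
  have key : ∀ x : ℝ, x * (u (mix u J w) * J - u (mix u J w') * J) =
      x * ((j - i) * (M * X)) - x * ((w : ℝ) + 1 - u (mix u J w) * J) +
        x * ((w' : ℝ) + 1 - u (mix u J w') * J) := by
    intro x
    rw [← hww]
    ring
  have f1 : (vl u w₀ v₀ v (ε * l) J (mix u J w) : ℝ) - vl u w₀ v₀ v (ε * l) J (mix u J w') ≤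
      v * (u (mix u J w) * J - u (mix u J w') * J) + 1 := by
    have g1 : (v₀ + v * (u (mix u J w') - w₀) - 10 * (ε * l)) * J ≤
        (v₀ + v * (u (mix u J w) - w₀) - 10 * (ε * l)) * J := by
      refine mul_le_mul_of_nonneg_right ?_ a6
      have := mul_le_mul_of_nonneg_left hu hv
      linarith only [this]
    refine (floor_sub_le g1).trans (le_of_eq ?_)
    ring
  have f2 : (rl u w₀ g ρ (ε * l) J (mix u J w) : ℝ) - rl u w₀ g ρ (ε * l) J (mix u J w') ≤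
      ρ * (u (mix u J w) * J - u (mix u J w') * J) + 1 := by
    have g1 : (g - w₀ + ρ * (u (mix u J w') - w₀) - 20 * (ε * l)) * J ≤
        (g - w₀ + ρ * (u (mix u J w) - w₀) - 20 * (ε * l)) * J := by
      refine mul_le_mul_of_nonneg_right ?_ a6
      have := mul_le_mul_of_nonneg_left hu a4
      linarith only [this]
    refine (floor_sub_le g1).trans (le_of_eq ?_)
    ring
  have f3 : ρ * (u (mix u J w) * J - u (mix u J w') * J) - 1 ≤
      (rl u w₀ g ρ (ε * l) J (mix u J w) : ℝ) - rl u w₀ g ρ (ε * l) J (mix u J w') := by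
    refine le_trans (le_of_eq ?_) (floor_sub_ge q10)
    ring
  refine ⟨hww, hmix, hV, ?_, ?_, ?_⟩
  · have k1 := key v
    have k2 := t3 v hv
    have k3 := t2 v hv (by linarith only [hv, hvρ])
    linarith only [a3, a7, f1, k1, k2, k3]
  · have k1 := key ρ
    have k2 := t3 ρ a4
    have k3 := t2 ρ a4 (by linarith only [hv])
    linarith only [a3, a7, f2, k1, k2, k3]
  · have k1 := key (ρ - v)
    have k2 := t1 (ρ - v) (by linarith only [hvρ]) (by linarith only [hv])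
    have k3 := t4 (ρ - v) (by linarith only [hvρ])
    have k4 : (ρ - v) * (u (mix u J w) * J - u (mix u J w') * J) =
      ρ * (u (mix u J w) * J - u (mix u J w') * J) -
        v * (u (mix u J w) * J - u (mix u J w') * J) := by ring
    linarith only [a7, f1, f3, k1, k2, k3]

/-- One step of the chain. -/
theorem Arc.step (h : Arc σ N u w₀ v₀ v g ρ P ε l CZ J X M N₁ N₂ Wt Pt) {dw j w w' : ℕ}
    (hdw : dw < X) (hj : j < N₁) (hw : w = Wt - dw - j * (M * X))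
    (hw' : w' = Wt - dw - (j + 1) * (M * X)) :
    w' + X ≤ w ∧
      (rl u w₀ g ρ (ε * l) J (mix u J w') - vl u w₀ v₀ v (ε * l) J (mix u J w')) + X ≤
        rl u w₀ g ρ (ε * l) J (mix u J w) - vl u w₀ v₀ v (ε * l) J (mix u J w) ∧
      vl u w₀ v₀ v (ε * l) J (mix u J w') ≤ vl u w₀ v₀ v (ε * l) J (mix u J w) := by
  obtain ⟨a1, a2, a3, a4, a5, a6, a7, a8, a9, a10, a11, a12⟩ := h.basic
  obtain ⟨b1, b2, b3, b4, b5, b6⟩ := h.two (i := j) (j := j + 1) hdw (by omega) hj hw hw'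
  obtain ⟨p1, p2, p3⟩ := h.lev 0 hdw hj.le hw
  obtain ⟨q1, q2, q3⟩ := h.lev 0 hdw (j := j + 1) hj hw'
  have m1 := (mix_spec p1 p2).2.1
  have m2 := (mix_spec q1 q2).2.1
  have n1 := vl_le_rl h.zon J m1
  have n2 := vl_le_rl h.zon J m2
  have e1 : ((j + 1 : ℕ) : ℝ) - j = 1 := by
    push_cast
    ring
  rw [e1, one_mul] at b1 b6
  have hM1 : (1 : ℝ) ≤ M := by exact_mod_cast h.M1
  have hMX : (X : ℝ) ≤ M * X := by
    have := mul_le_mul_of_nonneg_right hM1 (Nat.cast_nonneg (α := ℝ) X)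
    linarith only [this]
  refine ⟨?_, ?_, b3⟩
  · have : (w' : ℝ) + X ≤ w := by linarith only [b1, hMX]
    exact_mod_cast this
  · have c1 : 2 * (X : ℝ) ≤ (ρ - v) * (M * X) := by
      have := mul_le_mul_of_nonneg_right h.hM (Nat.cast_nonneg (α := ℝ) X)
      linarith only [this]
    have c2 : (((rl u w₀ g ρ (ε * l) J (mix u J w') - vl u w₀ v₀ v (ε * l) J (mix u J w')) + X :
        ℕ) : ℝ) ≤ ((rl u w₀ g ρ (ε * l) J (mix u J w) - vl u w₀ v₀ v (ε * l) J (mix u J w) : ℕ) :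
        ℝ) := by
      rw [Nat.cast_add, Nat.cast_sub n1, Nat.cast_sub n2]
      linarith only [a3, b6, c1]
    exact_mod_cast c2

end arc

end Pool.S6N
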