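import Pool.Agent.H97.S6.Szs
import Pool.Agent.H73.KAF.RST
import Pool.Agent.H32.Dense.Pair

/-!
# The rising case

`rise_of`: the local data of a rising point are contradictory, from theorem RISE for one family and
the inputs of `Inp.lean`, `Zne.lean` and `Zon.lean`.
-/

set_option autoImplicit false

namespace Pool.S6N

open Finset Real
open Pool.Agent.H49.Ent Pool.Agent.H32.Dense Pool.STK Pool.KA Pool.KSAT Pool.K2S Pool.PB Pool.KS6
  Pool.S6C Pool.Sel51

/-- The directions are nonnegative numbers. -/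
theorem rot_nonneg {S : PCl 3} {a R h₁ : ℝ} {i₀ : Fin 3} {c s₂ : ℝ} {r : ℝ → ℝ} {D : Set ℝ}
    {σ : ℝ → Row} (hC : Cs S a R h₁ i₀ c s₂ r D σ) {w : ℚ} (h0 : 0 ≤ w) (h1 : w ≤ 1) :
    0 ≤ (σ 1).rot w := by
  by_contra hcon
  push Not at hcon
  have h2 := ((hC.row 1 one_pos le_rfl hC.D1).rot w h0 h1).2 (-(σ 1).rot w / 2) (by linarith only [hcon])
  refine Clp.not_false hC.ne (Clp.mono (J₂ := 0) h2 ?_)
  intro J _ F A h
  exact h (Or.inl (by linarith only [hcon]))

theorem v0_nonneg {S : PCl 3} {a R h₁ : ℝ} {i₀ : Fin 3} {c s₂ : ℝ} {r : ℝ → ℝ} {D : Set ℝ}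
    {σ : ℝ → Row} (hC : Cs S a R h₁ i₀ c s₂ r D σ) {x v₀ v : ℝ} (hx0 : 0 < x) (hx1 : x < 1)
    (hv : 0 ≤ v) (hs : Slp (σ 1).rot x v₀ v) : 0 ≤ v₀ := by
  by_contra hcon
  push Not at hcon
  obtain ⟨δ, hδ, h1⟩ := hs 1 one_pos
  obtain ⟨q, hq1, hq2⟩ := exists_rat_btwn (show x < x + min (min δ (1 - x)) (-v₀ / (v + 1)) by
    have : 0 < -v₀ / (v + 1) := div_pos (by linarith only [hcon]) (by linarith only [hx0, hx1, hv])
    have := lt_min (lt_min hδ (by linarith only [hx1] : 0 < 1 - x)) this
    linarith only [this])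
  have m1 := min_le_left (min δ (1 - x)) (-v₀ / (v + 1))
  have m2 := min_le_right (min δ (1 - x)) (-v₀ / (v + 1))
  have m3 := min_le_left δ (1 - x)
  have m4 := min_le_right δ (1 - x)
  have hq3 : (q : ℝ) - x < -v₀ / (v + 1) := by linarith only [hq2, m2]
  rw [lt_div_iff₀ (by linarith only [hx0, hv, hq1, hq2, m1, m4])] at hq3
  have h2 := h1 q (by rw [abs_of_pos (by linarith only [hq1])]; linarith only [hq2, m1, m3])
  rw [abs_of_pos (show 0 < (q : ℝ) - x by linarith only [hq1]), one_mul] at h2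
  have h3 : 0 ≤ (σ 1).rot q := rot_nonneg hC (by
    have : (0 : ℝ) ≤ q := by linarith only [hx0, hq1]
    exact_mod_cast this) (by
    have : (q : ℝ) ≤ 1 := by linarith only [hq2, m1, m4]
    exact_mod_cast this)
  have h4 := (abs_le.1 h2).2
  nlinarith only [hq3, h3, h4]

/-- Conditions of (H6), (H7) at a mesh window. -/
theorem mesh_room {σ : ℝ → Row} {N : ℕ} {u : ℕ → ℚ} {w₀ v₀ v g ρ P ε l x₀ CZ G : ℝ} {NM : ℝ}
    (hz : Zon σ N u w₀ v₀ v g ρ (ε * l)) (hl : 0 < l) (hε0 : 0 < ε) (hε : ε ≤ 1 / 100)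
    (hεx : ε ≤ x₀ / 400) (hx₀ : 0 < x₀) (hvρ : v < ρ) (hv₀ : 0 ≤ v₀) (hNM : 0 ≤ NM)
    (hCZ : (x₀ + 2) / ρ + 8 / (ρ - v) + 20 ≤ CZ) (htop : w₀ + CZ * l < u 0)
    (hP1 : P + G < 1) (hPg : G < P - g) (hgap : G < g - w₀ - v₀) (hpi : P - g + v₀ + G < (σ 1).pi)
    (hv1 : v₀ + G < 1) (hG : (4 * (1 + ρ) * (NM + 4) + 2 * x₀ + 4) * l ≤ G) {j : ℕ} (hj : 1 ≤ j)
    (hjN : j ≤ N) (hju : (u j : ℝ) ≤ w₀ + l) :
    100 * (ε * l) < x₀ * l / 2 ∧
    x₀ * l / 2 + 100 * (ε * l) ≤ ρ * (u 0 - u j) ∧ (σ 1).th (u (j - 1)) + x₀ * l / 2 < 1 ∧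
    (σ 1).rot (u (j - 1)) + x₀ * l / 2 < (σ 1).pi ∧ (σ 1).rot (u (j - 1)) + x₀ * l / 2 < 1 ∧
    2 * l ≤ (ρ - v) * (u 0 - u j) ∧
    (w₀ - (NM + 4) * l ≤ u j →
      v₀ + v * (u j - w₀) + x₀ * l / 2 < g - w₀ + ρ * (u j - w₀)) := by
  have hv := hz.v0
  have hρv : 0 < ρ - v := by linarith only [hvρ]
  have hρ : 0 < ρ := by linarith only [hvρ, hv]
  have hel : 0 < ε * l := mul_pos hε0 hl
  have hel1 : 100 * (ε * l) ≤ l := by
    have := mul_le_mul_of_nonneg_right hε hl.le
    linarith only [this]
  have hxl : 0 < x₀ * l := mul_pos hx₀ hl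
  have a1 : 100 * (ε * l) < x₀ * l / 2 := by
    have := mul_le_mul_of_nonneg_right hεx hl.le
    have e : x₀ / 400 * l = x₀ * l / 400 := by ring
    rw [e] at this
    linarith only [hel, this]
  have b1 : (x₀ + 2) / ρ * ρ = x₀ + 2 := div_mul_cancel₀ _ hρ.ne'
  have b2 : 8 / (ρ - v) * (ρ - v) = 8 := div_mul_cancel₀ _ hρv.ne'
  have b3 : 0 < (x₀ + 2) / ρ := by positivity
  have b4 : 0 < 8 / (ρ - v) := by positivity
  have c0 : (CZ - 1) * l ≤ u 0 - u j := by
    have : (CZ - 1) * l = CZ * l - l := by ring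
    linarith only [htop, hju]
  have c1 : ρ * ((CZ - 1) * l) ≤ ρ * (u 0 - u j) := mul_le_mul_of_nonneg_left c0 hρ.le
  have c2 : (x₀ + 2) * l ≤ ρ * ((CZ - 1) * l) := by
    have : x₀ + 2 ≤ ρ * (CZ - 1) := by
      calc x₀ + 2 = ρ * ((x₀ + 2) / ρ) := by rw [mul_comm]; exact b1.symm
        _ ≤ ρ * (CZ - 1) := mul_le_mul_of_nonneg_left (by linarith only [hε0, hε, hCZ, b4]) hρ.le
    calc _ ≤ ρ * (CZ - 1) * l := mul_le_mul_of_nonneg_right this hl.le
      _ = _ := by ring
  have c3 : (ρ - v) * ((CZ - 1) * l) ≤ (ρ - v) * (u 0 - u j) :=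
    mul_le_mul_of_nonneg_left c0 hρv.le
  have c4 : 8 * l ≤ (ρ - v) * ((CZ - 1) * l) := by
    have : 8 ≤ (ρ - v) * (CZ - 1) := by
      calc 8 = (ρ - v) * (8 / (ρ - v)) := by rw [mul_comm]; exact b2.symm
        _ ≤ (ρ - v) * (CZ - 1) := mul_le_mul_of_nonneg_left (by linarith only [hε0, hε, hCZ, b3]) hρv.le
    calc _ ≤ (ρ - v) * (CZ - 1) * l := mul_le_mul_of_nonneg_right this hl.le
      _ = _ := by ring
  exact by
   have e1 : (x₀ + 2) * l = x₀ * l + 2 * l := by ring
   have e2 : (4 * (1 + ρ) * (NM + 4) + 2 * x₀ + 4) * l =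
       4 * (NM * l) + 4 * (ρ * (NM * l)) + 20 * l + 16 * (ρ * l) + 2 * (x₀ * l) := by ring
   have f1 : 0 ≤ NM * l := mul_nonneg hNM hl.le
   have f2 : 0 ≤ ρ * (NM * l) := mul_nonneg hρ.le f1
   have f3 : 0 < ρ * l := mul_pos hρ hl
   have f4 : 0 ≤ v * l := mul_nonneg hv hl.le
   have f5 : v * l ≤ ρ * l := mul_le_mul_of_nonneg_right hvρ.le hl.le
   -- the mesh window above
   have g0 := hz.stp (j - 1) (by omega)
   rw [show j - 1 + 1 = j by omega] at g0
   have g1 : u N ≤ u (j - 1) := hz.anti (by omega) le_rfl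
   have g2 : u (j - 1) ≤ u 0 := hz.anti (Nat.zero_le _) (by omega)
   have g3 : (u j : ℝ) ≤ u (j - 1) := hz.antiR (by omega) hjN
   have g4 : (u (j - 1) : ℝ) - u j ≤ ε * l := by
     have h1 : 0 ≤ (v + ρ) * ((u (j - 1) : ℝ) - u j) :=
       mul_nonneg (by linarith only [hvρ, hv]) (by linarith only [g3])
     have h2 : (1 + v + ρ) * ((u (j - 1) : ℝ) - u j) =
       ((u (j - 1) : ℝ) - u j) + (v + ρ) * ((u (j - 1) : ℝ) - u j) := by ring
     linarith only [g0, h1]
   have g5 : (u (j - 1) : ℝ) - w₀ ≤ 2 * l := by linarith only [hju, hel, hel1, g4]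
   obtain ⟨h1, h2, -, -, -⟩ := hz.aff (u (j - 1)) g1 g2
   have h1' := (abs_le.1 h1).2
   have h2' := (abs_le.1 h2).2
   have i1 : v * ((u (j - 1) : ℝ) - w₀) ≤ v * (2 * l) := mul_le_mul_of_nonneg_left g5 hv
   have i2 : (1 + ρ) * ((u (j - 1) : ℝ) - w₀) ≤ (1 + ρ) * (2 * l) :=
     mul_le_mul_of_nonneg_left g5 (by linarith only [hvρ, hv₀, hv1, hG, hv, hel, hel1, a1, f1, f2, f3])
   have i3 : (1 + ρ) * (2 * l) = 2 * l + 2 * (ρ * l) := by ring
   have i4 : v * (2 * l) = 2 * (v * l) := by ring
   refine ⟨a1, by linarith only [hel, hel1, a1, c1, c2], by linarith only [hP1, hPg, hG, hel, hel1, a1, f1, f2, f3, h2', i2], by linarith only [hPg, hpi, hG, hel, hel1, a1, f1, f2, f3, f5, h1', i1], by linarith only [hv1, hG, hel, hel1, a1, f1, f2, f3, f5, h1', i1], by linarith only [hel, hel1, c3, c4], ?_⟩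
   exact by
    intro hlow
    have k1 : (ρ - v) * (w₀ - u j) ≤ (ρ - v) * ((NM + 4) * l) :=
      mul_le_mul_of_nonneg_left (by linarith only [hlow]) hρv.le
    have k2 : (ρ - v) * ((NM + 4) * l) = ρ * (NM * l) + 4 * (ρ * l) - v * (NM * l) - 4 * (v * l) := by
      ring
    have k3 : 0 ≤ v * (NM * l) := mul_nonneg hv f1
    have k4 : (ρ - v) * (w₀ - u j) = v * (u j - w₀) - ρ * (u j - w₀) := by ring
    linarith only [hgap, hG, hel, hel1, a1, f1, f2, f3, f4, k1, k3]

theorem exists_bad {β : Type} {s : Finset β} {p : β → Prop} [DecidablePred fun x => ¬ p x] {M : ℝ}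
    (h : ((s.filter fun x => ¬ p x).card : ℝ) ≤ M) :
    ∃ Bad : Finset β, (∀ x ∈ s, x ∉ Bad → p x) ∧ (Bad.card : ℝ) ≤ M := by
  refine ⟨_, ?_, h⟩
  intro x h1 h2
  by_contra h3
  exact h2 (Finset.mem_filter.mpr ⟨h1, h3⟩)

/-- **The rising case** from the inputs. -/
theorem rise_of (hR : RiseStmt) (hZ : ZNEStmt) (hT : TIMEStmt) (hM : FMSStmt) (hA : H4Stmt)
    (hE : H3Stmt) (hD : H5Stmt) (h6 : H6Stmt) (h7 : H7Stmt) : RISEStmt := by
  classical
  intro S a R h₁ i₀ c s₂ r D σ hC act K W v₁ t e₁ Q₀ P g v₀ v ρ a₀ α hL hvρ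
  have hc := hC.c0
  have hα := hL.α0
  have hv := hL.v0
  have hρv : 0 < ρ - v := by linarith only [hvρ]
  have hρ0 : 0 < ρ := by linarith only [hvρ, hv]
  obtain ⟨x₀, lm, κ, ϖ, ι, ε', X₀, n₀, N₁, hx₀, hlm, hκ, hκ1, hϖ, hι, hε', hN₁, hR'⟩ :=
    hR (c / 2) (α / 2) 64 64 (by linarith only [hc]) (by linarith only [hα]) (by norm_num) (by norm_num)
  obtain ⟨M, hM1, hM2⟩ : ∃ M : ℕ, 1 ≤ M ∧ 2 ≤ (ρ - v) * M := by
    refine ⟨⌈2 / (ρ - v)⌉₊ + 1, by omega, ?_⟩
    have h1 := Nat.le_ceil (2 / (ρ - v))
    rw [div_le_iff₀ hρv] at h1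
    push_cast
    nlinarith only [hvρ, h1]
  obtain ⟨E₁, hE₁⟩ : ∃ E₁ : ℕ, x₀ + 2 * ρ + 5 ≤ (E₁ : ℝ) := exists_nat_ge _
  obtain ⟨N₂, hN₂, hR2⟩ := hR' (3 * E₁ + (v + 2 * ρ) * (N₁ * M + 3) + 10 + 3 * Real.log 129)
  obtain ⟨CZ, hCZ⟩ : ∃ CZ : ℝ, CZ = (1 + ρ) * (N₁ * M + 2) + N₂ + 30 + (x₀ + 2) / ρ +
    8 / (ρ - v) := ⟨_, rfl⟩
  have hNM : (0 : ℝ) ≤ N₁ * M := by positivity
  have b3 : 0 < (x₀ + 2) / ρ := by positivity
  have b4 : 0 < 8 / (ρ - v) := by positivity
  have hρNM : 0 ≤ (1 + ρ) * (N₁ * M + 2) := by positivity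
  have hN₂' : (0 : ℝ) < N₂ := by exact_mod_cast hN₂
  have hN₁' : (0 : ℝ) < N₁ := by exact_mod_cast hN₁
  have hCZ30 : 30 < CZ := by linarith only [hCZ, b3, b4, hρNM, hN₂']
  have hE₁0 : (0 : ℝ) < E₁ := by linarith only [hvρ, hv, hx₀, hE₁]
  obtain ⟨θ, hθ⟩ : ∃ θ : ℝ, θ = lm / (30 * (N₁ * N₂) * (CZ + 1)) := ⟨_, rfl⟩
  have hθ0 : 0 < θ := by
    rw [hθ]
    have : 0 < CZ + 1 := by linarith only [hCZ, b3, b4, hρNM, hN₂']
    positivity
  exact by
   obtain ⟨Y₀, hY₀, hE1⟩ := hE S a R h₁ i₀ c s₂ r D σ hC act K W v₁ t e₁ Q₀ P g v₀ v ρ a₀ α hL hvρ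
     ι θ (lm / 4) (CZ + 1) E₁ hι hθ0 (by linarith only [hlm]) (by linarith only [hCZ, b3, b4, hρNM, hN₂']) hE₁0
   obtain ⟨Y, hY⟩ : ∃ Y : ℕ, Y₀ + CZ ≤ (Y : ℝ) := exists_nat_ge _
   have hY0 : (0 : ℝ) < Y := by linarith only [hCZ, b3, b4, hρNM, hN₂', hY₀, hY]
   obtain ⟨C₂, hC₂⟩ : ∃ C₂ : ℝ, C₂ = (2 + v + ρ) * (CZ + 1 + 2 * Y) + E₁ + 10 := ⟨_, rfl⟩
   have hC₂1 : (2 + v + ρ) * (CZ + 1 + 2 * Y) ≤ C₂ := by linarith only [hvρ, hv, hx₀, hE₁, hC₂]
   have hC₂2 : (E₁ : ℝ) + 2 * Y + 10 ≤ C₂ := by
     have h1 : 0 ≤ (1 + v + ρ) * (CZ + 1 + 2 * Y) := by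
       have : 0 < CZ := by linarith only [hCZ, b3, b4, hρNM, hN₂']
       positivity
     have h2 : (2 + v + ρ) * (CZ + 1 + 2 * Y) = (1 + v + ρ) * (CZ + 1 + 2 * Y) +
       (CZ + 1 + 2 * Y) := by ring
     linarith only [hCZ, b3, b4, hρNM, hN₂', hC₂, h1]
   obtain ⟨κ₁, ε₁, l₁, hκ₁, hκ₁l, hε₁, hl₁, hE2⟩ := hE1 (2 * Y) C₂ (by linarith only [hCZ, b3, b4, hρNM, hN₂', hY₀, hY]) hC₂1
   obtain ⟨ε₂, l₂, hε₂, hl₂, hM'⟩ := hM S a R h₁ i₀ c s₂ r D σ hC act K W v₁ t e₁ Q₀ P g v₀ v ρ
     a₀ α hL hvρ (CZ + 1) C₂ (by linarith only [hCZ, b3, b4, hρNM, hN₂']) (by linarith only [hvρ, hv, hx₀, hE₁, hCZ, b3, b4, hρNM, hN₂', hY₀, hY, hC₂2])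
   obtain ⟨l₃, hl₃, hA'⟩ := hA S a R h₁ i₀ c s₂ r D σ hC act K W v₁ t e₁ Q₀ P g v₀ v ρ
     a₀ α hL hvρ (2 * Y) (by linarith only [hCZ, b3, b4, hρNM, hN₂', hY₀, hY])
   obtain ⟨ε₄, l₄, hε₄, hl₄, hD'⟩ := hD S a R h₁ i₀ c s₂ r D σ hC act K W v₁ t e₁ Q₀ P g v₀ v ρ
     a₀ α hL hvρ κ ϖ (CZ + 1 + 2 * Y) C₂ hκ hκ1 hϖ (by linarith only [hCZ, b3, b4, hρNM, hN₂', hY₀, hY]) hC₂1
   obtain ⟨ε, hε⟩ : ∃ ε : ℝ, ε = min (min (min ε₁ ε₂) (min ε₄ (1 / 100))) (x₀ / 400) := ⟨_, rfl⟩
   have e1 := min_le_left (min (min ε₁ ε₂) (min ε₄ (1 / 100))) (x₀ / 400)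
   have e2 := min_le_right (min (min ε₁ ε₂) (min ε₄ (1 / 100))) (x₀ / 400)
   have e3 := min_le_left (min ε₁ ε₂) (min ε₄ (1 / 100))
   have e4 := min_le_right (min ε₁ ε₂) (min ε₄ (1 / 100))
   have e5 := min_le_left ε₁ ε₂
   have e6 := min_le_right ε₁ ε₂
   have e7 := min_le_left ε₄ (1 / 100)
   have e8 := min_le_right ε₄ (1 / 100)
   have hε0 : 0 < ε := by
     rw [hε]
     refine lt_min (lt_min (lt_min hε₁ hε₂) (lt_min hε₄ (by norm_num))) (by positivity)
   exact by
    rw [← hε] at e1 e2
    obtain ⟨l₅, hl₅, hZ'⟩ := hZ S a R h₁ i₀ c s₂ r D σ hC act K W v₁ t e₁ Q₀ P g v₀ v ρ a₀ α hL hvρ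
      CZ ε (by linarith only [hCZ, b3, b4, hρNM, hN₂', e1, e4, e8, hε0]) hε0
    obtain ⟨N', u', z0, z1, z2, z3, z4, z5, z6, rpi, rv1, rsn, rt, re, ru, rP1, rPg, rw0, rgap,
      rv0⟩ := hZ' l₅ hl₅ le_rfl
    obtain ⟨G, hG⟩ : ∃ G : ℝ, G = CZ * l₅ := ⟨_, rfl⟩
    rw [← hG] at rpi rv1 rP1 rPg rw0 rgap rv0 z1
    have hG0 : 0 < G := by
      rw [hG]
      have : 0 < CZ := by linarith only [hCZ, b3, b4, hρNM, hN₂', e1, e4, e8, hε0]
      positivity
    have hw01 : W g < 1 := by
      have : (u' 0 : ℝ) < 1 := by exact_mod_cast z0.lt1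
      linarith only [z1, hG0, this]
    have hv₀ : 0 ≤ v₀ := v0_nonneg hC (by linarith only [rw0, hG0]) hw01 hv hL.rot
    obtain ⟨Kc, hKc⟩ : ∃ Kc : ℝ, Kc = 4 * (1 + ρ) * (N₁ * M + 4) + 2 * x₀ + 4 + (2 * Y + N₂ + 4) :=
      ⟨_, rfl⟩
    have hKc0 : 0 < Kc := by rw [hKc]; positivity
    obtain ⟨l, hl⟩ : ∃ l : ℝ, l = min (min (min l₁ l₂) (min l₃ l₄)) (min l₅ (G / Kc)) := ⟨_, rfl⟩
    have f1 := min_le_left (min (min l₁ l₂) (min l₃ l₄)) (min l₅ (G / Kc))
    have f2 := min_le_right (min (min l₁ l₂) (min l₃ l₄)) (min l₅ (G / Kc))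
    have f3 := min_le_left (min l₁ l₂) (min l₃ l₄)
    have f4 := min_le_right (min l₁ l₂) (min l₃ l₄)
    have f5 := min_le_left l₁ l₂
    have f6 := min_le_right l₁ l₂
    have f7 := min_le_left l₃ l₄
    have f8 := min_le_right l₃ l₄
    have f9 := min_le_left l₅ (G / Kc)
    have f10 := min_le_right l₅ (G / Kc)
    rw [← hl] at f1 f2
    exact by
     have hl0 : 0 < l := by
       rw [hl]
       exact lt_min (lt_min (lt_min hl₁ hl₂) (lt_min hl₃ hl₄)) (lt_min hl₅ (div_pos hG0 hKc0))
     have hlK : Kc * l ≤ G := by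
       have h1 : l ≤ G / Kc := f2.trans f10
       rw [le_div_iff₀ hKc0] at h1
       linarith only [h1]
     obtain ⟨N, u, zon, ztop, ztop', zbot', zbot, -, -, -, -, -, -, -, -, gP1, gPg, gw0, ggap, -⟩ :=
       hZ' l hl0 (f2.trans f9)
     have zsc : Zsc σ N u (W g) v₀ v g ρ ε l (CZ + 1) := by
       refine ⟨zon, ?_, ?_⟩
       · rw [abs_le]
         have : 0 ≤ CZ * l := by
           have : 0 < CZ := by linarith only [hCZ, b3, b4, hρNM, hN₂', e1, e4, e8, hε0]
           positivity
         have h2 : (CZ + 1) * l = CZ * l + l := by ring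
         constructor <;> linarith
       · rw [abs_le]
         have : 0 ≤ CZ * l := by
           have : 0 < CZ := by linarith only [hCZ, b3, b4, hρNM, hN₂', e1, e4, e8, hε0]
           positivity
         have h2 : (CZ + 1) * l = CZ * l + l := by ring
         constructor <;> linarith
     have zsc' : Zsc σ N u (W g) v₀ v g ρ ε l (CZ + 1 + 2 * Y) := by
       have h1 : (CZ + 1 + 2 * Y) * l = (CZ + 1) * l + 2 * Y * l := by ring
       have h2 : 0 ≤ 2 * Y * l := by positivity
       exact ⟨zon, zsc.top.trans (by linarith only [h2]), zsc.bot.trans (by linarith only [h2])⟩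
     have hwid : l ≤ (u 0 : ℝ) - u N := by
       have : 30 * l ≤ CZ * l := mul_le_mul_of_nonneg_right hCZ30.le hl0.le
       linarith only [ztop, ztop', zbot, this]
     exact by
      have cM := hM' ε l hε0 (by linarith only [e1, e3, e6]) hl0 (by linarith only [f1, f3, f6]) N u zsc
      have cT := hT S a R h₁ i₀ c s₂ r D σ hC (lm * l / 2) (by positivity)
      have cA := hA' l hl0 (by linarith only [f1, f4, f7])
      have cE := hE2 ε l hε0 (by linarith only [e1, e3, e5]) hl0 (by linarith only [f1, f3, f5]) N u zsc hwid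
      have cD := hD' ε l hε0 (by linarith only [e1, e4, e7]) hl0 (by linarith only [f1, f4, f8]) N u zsc'
      have cS : Clp S (fun J F A => 0 < Pe F.p A) := Clp.of one_pos 0 fun J _ F A hA =>
        (Real.exp_pos _).trans_le (hC.st 1 J F A hA).2.2.2
      have room := fun (j : ℕ) (h1 : 1 ≤ j) (h2 : j ≤ N) (h3 : (u j : ℝ) ≤ W g + l) =>
        mesh_room (G := G) (NM := N₁ * M) (x₀ := x₀) (P := P) zon hl0 hε0 (by linarith only [e1, e4, e8]) e2 hx₀ hvρ hv₀
          hNM (CZ := CZ) (by linarith only [hCZ, hρNM, hN₂', e1, e4, e8, hε0]) ztop rP1 rPg rgap rpi rv0 (by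
            refine le_trans (mul_le_mul_of_nonneg_right ?_ hl0.le) hlK
            rw [hKc]
            linarith only [hCZ, b3, b4, hρNM, hN₂', hY₀, hY, e1, e4, e8, hε0]) h1 h2 h3
      have c6 := Clp.all (S := S) (N + 1) (fun j (_ : j < N + 1) =>
        Clp.cnd (P := 1 ≤ j ∧ j ≤ N ∧ (u j : ℝ) ≤ W g + l) fun h =>
          h6 S a R h₁ i₀ c s₂ r D σ hC N u (W g) v₀ v g ρ (ε * l) zon j (x₀ * l / 2) ε' h.1 h.2.1
            (room j h.1 h.2.1 h.2.2).1 (room j h.1 h.2.1 h.2.2).2.1
            (room j h.1 h.2.1 h.2.2).2.2.1 hε')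
      have c7 := Clp.all (S := S) (N + 1) (fun j (_ : j < N + 1) =>
        Clp.cnd (P := (1 ≤ j ∧ j ≤ N ∧ (u j : ℝ) ≤ W g + l) ∧ W g - (N₁ * M + 4) * l ≤ u j) fun h =>
          h7 S a R h₁ i₀ c s₂ r D σ hC N u (W g) v₀ v g ρ (ε * l) zon j (x₀ * l / 2) ε' h.1.1 h.1.2.1
            (room j h.1.1 h.1.2.1 h.1.2.2).1
            (room j h.1.1 h.1.2.1 h.1.2.2).2.2.2.1 (room j h.1.1 h.1.2.1 h.1.2.2).2.2.2.2.1
            ((room j h.1.1 h.1.2.1 h.1.2.2).2.2.2.2.2.2 h.2) hε')
      refine Clp.not_false hC.ne (Clp.mono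
        (J₂ := ⌈((X₀ : ℝ) + 100 * (1 + ρ) + (n₀ + 1) / κ₁ + 2) / l⌉₊)
        (((((((cM.and cT).and cA).and cE).and cD).and c6).and c7).and cS) ?_)
      rintro J hJ F A ⟨⟨⟨⟨⟨⟨⟨hM3, hT3⟩, hA3⟩, hE3⟩, hD3⟩, h63⟩, h73⟩, hS3⟩
      obtain ⟨B, hBA, hPe, τ, y, z, al, nu, k, b, hF⟩ := hM3
      have hPB : 0 < Pe F.p B := by linarith only [hS3, hPe]
      exact by
       have hQ : IsLaw (Pool.Agent.H49.Ent.cond F.p B True) := isLaw_cond F.isLaw hPB
       have hnk : 0 < ((n₀ : ℝ) + 1) / κ₁ := by positivity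
       have hJ1 : (X₀ : ℝ) + 100 * (1 + ρ) + (n₀ + 1) / κ₁ + 2 ≤ l * J := by
         have h1 := Nat.le_ceil (((X₀ : ℝ) + 100 * (1 + ρ) + (n₀ + 1) / κ₁ + 2) / l)
         have h2 : ((⌈((X₀ : ℝ) + 100 * (1 + ρ) + (n₀ + 1) / κ₁ + 2) / l⌉₊ : ℕ) : ℝ) ≤ J := by
           exact_mod_cast hJ
         have h3 := h1.trans h2
         rw [div_le_iff₀ hl0] at h3
         linarith only [h3]
       have hJR : (0 : ℝ) ≤ J := Nat.cast_nonneg J
       have hX₀0 : (0 : ℝ) ≤ X₀ := Nat.cast_nonneg _
       obtain ⟨X, hX⟩ : ∃ X : ℕ, X = ⌊l * J⌋₊ := ⟨_, rfl⟩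
       obtain ⟨n, hn⟩ : ∃ n : ℕ, n = ⌊κ₁ * X⌋₊ := ⟨_, rfl⟩
       have hXl : (X : ℝ) ≤ l * J := by
         rw [hX]
         exact Nat.floor_le (by positivity)
       have hXu : l * J < X + 1 := by
         rw [hX]
         exact Nat.lt_floor_add_one _
       have hX5 : 100 * (1 + ρ) ≤ (X : ℝ) := by linarith only [e1, e4, e8, hε0, hnk, hJ1, hXu]
       have hXX₀ : X₀ ≤ X := by
         have : (X₀ : ℝ) ≤ X := by linarith only [hvρ, hv, e1, e4, e8, hε0, hnk, hJ1, hXu]
         exact_mod_cast this
       have hX100 : (100 : ℝ) ≤ X := by linarith only [hvρ, hv, e1, e4, e8, hε0, hnk, hJ1, hXu]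
       have hX0 : (0 : ℝ) < X := by linarith only [hvρ, hv, e1, e4, e8, hε0, hnk, hJ1, hXu]
       have hXn : 0 < X := by exact_mod_cast hX0
       have hJ0 : (0 : ℝ) < J := by
         rcases hJR.eq_or_lt with h0 | h0
         · rw [← h0, mul_zero] at hXl
           linarith only [hvρ, hv, e1, e4, e8, hε0, hnk, hJ1, hXl, hXu]
         · exact h0
       exact by
        have hlJ : 1 ≤ l * J := by linarith only [hvρ, hv, e1, e4, e8, hε0, hnk, hJ1]
        have hnn : n₀ + 1 ≤ n := by
          rw [hn]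
          refine Nat.le_floor ?_
          have h1 : ((n₀ : ℝ) + 1) / κ₁ ≤ X := by linarith only [hvρ, hv, e1, e4, e8, hε0, hJ1, hXu]
          rw [div_le_iff₀ hκ₁] at h1
          push_cast
          linarith only [h1]
        have hnX : (n : ℝ) ≤ lm / 4 * X := by
          have h1 : (n : ℝ) ≤ κ₁ * X := by
            rw [hn]
            exact Nat.floor_le (by positivity)
          exact h1.trans (mul_le_mul_of_nonneg_right hκ₁l hX0.le)
        obtain ⟨Wt, hWt⟩ : ∃ W' : ℕ, W' = ⌊W g * J⌋₊ := ⟨_, rfl⟩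
        obtain ⟨Pt, hPt⟩ : ∃ W' : ℕ, W' = ⌊P * J⌋₊ := ⟨_, rfl⟩
        have arc : Arc σ N u (W g) v₀ v g ρ P ε l CZ J X M N₁ N₂ Wt Pt := {
          zon := zon
          vρ := hvρ
          vp := hv₀
          l0 := hl0
          ε0 := hε0
          ε1 := by linarith only [e1, e4, e8]
          hX := hX
          X5 := hX5
          M1 := hM1
          hM := hM2
          cz := by linarith only [hCZ, b3, b4, e1, e4, e8, hε0]
          top := ztop
          bot := zbot
          hW := hWt
          hP := hPt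
          w0p := gw0
          Pg := gPg
          P1 := gP1
          gap := ggap }
        exact by
         have hKJ : Kc * X ≤ G * J := by
           have h1 : Kc * X ≤ Kc * (l * J) := mul_le_mul_of_nonneg_left hXl hKc0.le
           have h2 : Kc * l * J ≤ G * J := mul_le_mul_of_nonneg_right hlK hJR
           have h3 : Kc * (l * J) = Kc * l * J := by ring
           linarith only [h1, h2]
         obtain ⟨Vx, hVx⟩ : ∃ V : ℕ, V = ⌊v₀ * J⌋₊ + E₁ * X := ⟨_, rfl⟩
         obtain ⟨Hx, hHx⟩ : ∃ V : ℕ, V = ⌊(g - W g - v₀) * J⌋₊ + E₁ * X := ⟨_, rfl⟩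
         obtain ⟨Rx, hRx⟩ : ∃ V : ℕ, V = ⌊(g - W g) * J⌋₊ + E₁ * X := ⟨_, rfl⟩
         obtain ⟨Pu, hPu⟩ : ∃ V : ℕ, V = ⌊(P - g + v₀ + C₂ * l) * J⌋₊ := ⟨_, rfl⟩
         obtain ⟨PN, hPN⟩ : ∃ V : ℕ, V = ⌊(P - W g + C₂ * l) * J⌋₊ := ⟨_, rfl⟩
         have hg1 : g * J + (x₀ + 1) * X ≤ J := by
           have h1 : (x₀ + 1) * X ≤ Kc * X := by
             refine mul_le_mul_of_nonneg_right ?_ hX0.le
             rw [hKc]
             have : 0 ≤ 4 * (1 + ρ) * (N₁ * M + 4) := by positivity
             linarith only [hvρ, hv, hCZ, b3, b4, hρNM, hN₂', hY₀, hY, e1, e2, e4, e8, hε0]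
           have h2 : (g + G) * J ≤ 1 * J := mul_le_mul_of_nonneg_right (by linarith only [rPg, rP1, hG0]) hJR
           have h3 : (g + G) * J = g * J + G * J := by ring
           linarith only [hKJ, h1, h2]
         have sz : Szs (W g) v₀ v g ρ P l x₀ C₂ J X M N₁ N₂ E₁ Y Vx Hx Rx Pu PN := {
           v0 := hv
           vρ := hvρ.le
           vp := hv₀
           gap := by linarith only [rgap, hG0]
           Pg := by linarith only [rPg, hG0]
           lJ := hXl
           lJ' := hXu
           X5 := hX5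
           x0 := hx₀
           E := hE₁
           Yl := by linarith only [hCZ, b3, b4, hY₀, hY, e1, e4, e8, hε0]
           C := hC₂2
           g1 := hg1
           hV := hVx
           hH := hHx
           hR := hRx
           hu := hPu
           hN := hPN }
         exact by
          rw [← hPu, ← hPN] at hF
          obtain ⟨s1, s2, s3, s4, s5, s6, s7, s8, s9, s10, s11, s12, s13⟩ := sz.basic
          have hE1X : (E₁ : ℝ) * X ≤ E₁ * (l * J) := mul_le_mul_of_nonneg_left hXl hE₁0.le
          have hEX1 : (1 : ℝ) ≤ E₁ * X := by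
            have h1 : (5 : ℝ) * 100 ≤ E₁ * X :=
              mul_le_mul (by linarith only [hvρ, hv, hE₁, e2, hε0]) hX100 (by norm_num) hE₁0.le
            linarith only [e1, e4, e8, hε0, h1]
          have hElJ : 0 ≤ (E₁ : ℝ) * (l * J) := mul_nonneg hE₁0.le (by linarith only [hvρ, hv, e1, e4, e8, hε0, hnk, hJ1])
          -- bad places
          have hE4 := hE3 B hBA hPe τ y z al nu k b
          rw [← hPu, ← hPN] at hE4
          obtain ⟨Bad, hBad1, hBad2⟩ := exists_bad (hE4 hF Vx Hx Rx
            (s2.trans (le_of_le_of_eq (add_le_add le_rfl hE1X) (by ring)))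
            (s4.trans (le_of_le_of_eq (add_le_add le_rfl hE1X) (by ring)))
            (s6.trans (le_of_le_of_eq (add_le_add le_rfl hE1X) (by ring)))
            (by
              have h1 : (v₀ - E₁ * l) * J = v₀ * J - E₁ * (l * J) := by ring
              rw [h1]
              linarith only [e1, e4, e8, hε0, s1, hE1X, hEX1])
            (by
              have h1 : (g - W g - v₀ - E₁ * l) * J = (g - W g - v₀) * J - E₁ * (l * J) := by ring
              rw [h1]
              linarith only [e1, e4, e8, hε0, s3, hE1X, hEX1]) _ _ rfl rfl)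
          -- the base point
          obtain ⟨wf, hwf⟩ : ∃ wf : ℕ → ℕ → ℕ, wf = fun dw j => Wt - dw - j * (M * X) := ⟨_, rfl⟩
          obtain ⟨pl, hpl⟩ : ∃ pl : ℕ × ℕ × ℕ → ℕ × ℕ → ℕ × ℕ, pl = fun i b =>
            (wf b.1 i.1, Pt + b.2 - rl u (W g) g ρ (ε * l) J (mix u J (wf b.1 i.1)) - wf b.1 i.1 +
              i.2.1 * X + i.2.2 * n) := ⟨_, rfl⟩
          have hinj : ∀ i ∈ range N₁ ×ˢ range N₂ ×ˢ range (X / n), ∀ b ∈ range X ×ˢ range (Y * X),
              ∀ b' ∈ range X ×ˢ range (Y * X), pl i b = pl i b' → b = b' := by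
            rintro ⟨j, k', r'⟩ hi ⟨dw, dP⟩ hb ⟨dw', dP'⟩ hb' h
            simp only [Finset.mem_product, Finset.mem_range] at hi hb hb'
            rw [hpl] at h
            simp only [Prod.mk.injEq] at h
            obtain ⟨h1, h2⟩ := h
            obtain ⟨w1, w2, w3⟩ := arc.win hb.1 hi.1.le
            obtain ⟨w1', w2', w3'⟩ := arc.win hb'.1 hi.1.le
            have hdw : dw = dw' := by
              rw [hwf] at h1
              simp only at h1
              omega
            subst hdw
            obtain ⟨v1, v2, v3, v4, -⟩ := arc.lev dP hb.1 hi.1.le (w := wf dw j) (by rw [hwf])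
            obtain ⟨v1', v2', v3', v4', -⟩ := arc.lev dP' hb.1 hi.1.le (w := wf dw j) (by rw [hwf])
            have : dP = dP' := by omega
            rw [this]
          exact by
           obtain ⟨⟨dw, dP⟩, hb, hsel⟩ := base_sel (range X ×ˢ range (Y * X))
             (range N₁ ×ˢ range N₂ ×ˢ range (X / n)) Bad pl ⟨(0, 0), by
               simp only [Finset.mem_product, Finset.mem_range]
               refine ⟨hXn, Nat.mul_pos ?_ hXn⟩
               exact_mod_cast hY0⟩ hinj
           simp only [Finset.mem_product, Finset.mem_range] at hb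
           obtain ⟨hdw, hdP⟩ := hb
           rw [Finset.card_product, Finset.card_product, Finset.card_product, Finset.card_range,
             Finset.card_range, Finset.card_range, Finset.card_range, Finset.card_range] at hsel
           have hYn : 0 < Y := by exact_mod_cast hY0
           have hwl : ((wl u J 0 - wl u J N : ℕ) : ℝ) ≤ 3 * (CZ + 1) * X := by
             have h1 : wl u J N ≤ wl u J 0 := wl_anti zon J (Nat.zero_le N) le_rfl
             rw [Nat.cast_sub h1]
             have h2 : (u N : ℝ) * J ≤ u 0 * J := mul_le_mul_of_nonneg_right (by linarith only [ztop, ztop', hwid]) hJR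
             refine (floor_sub_le h2).trans ?_
             have h3 : (u 0 : ℝ) * J - u N * J = (u 0 - u N) * J := by ring
             have h4 : ((u 0 : ℝ) - u N) * J ≤ (2 * (CZ + 1) * l) * J :=
               mul_le_mul_of_nonneg_right (by linarith only [ztop', zbot']) hJR
             have h5 : (2 * (CZ + 1) * l) * J = 2 * (CZ + 1) * (l * J) := by ring
             have h6 : 2 * (CZ + 1) * (l * J) ≤ 2 * (CZ + 1) * (X + 1) :=
               mul_le_mul_of_nonneg_left hXu.le (by linarith only [hCZ, b3, b4, hρNM, hN₂', e1, e4, e8, hε0])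
             have h7 : (CZ + 1) * 100 ≤ (CZ + 1) * X := mul_le_mul_of_nonneg_left hX100 (by linarith only [hCZ, b3, b4, hρNM, hN₂', e1, e4, e8, hε0])
             rw [h3]
             linarith only [hCZ, b3, b4, hρNM, hN₂', e1, e4, e8, hε0, h4, h6, h7]
           have hql : ((⌊(P - g + 2 * Y * l) * J⌋₊ - ⌊(P - g - 2 * Y * l) * J⌋₊ : ℕ) : ℝ) ≤
               5 * (Y * X) := by
             have h0 : 0 ≤ 2 * (Y : ℝ) * l := by positivity
             have h1 : (P - g - 2 * Y * l) * J ≤ (P - g + 2 * Y * l) * J :=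
               mul_le_mul_of_nonneg_right (by linarith only [h0]) hJR
             rw [Nat.cast_sub (Nat.floor_le_floor h1)]
             refine (floor_sub_le h1).trans ?_
             have h2 : (P - g + 2 * Y * l) * J - (P - g - 2 * Y * l) * J = 4 * (Y * (l * J)) := by ring
             have h3 : (Y : ℝ) * (l * J) ≤ Y * (X + 1) := mul_le_mul_of_nonneg_left hXu.le hY0.le
             have h4 : (Y : ℝ) * 100 ≤ Y * X := mul_le_mul_of_nonneg_left hX100 hY0.le
             have h5 : (1 : ℝ) ≤ Y := by exact_mod_cast hYn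
             rw [h2]
             linarith only [hCZ, b3, b4, hρNM, hN₂', hY₀, hY, e1, e4, e8, hε0, h3, h4]
           -- the windows of the chain
           exact by
            obtain ⟨mf, hmf⟩ : ∃ mf : ℕ → ℕ, mf = fun j => mix u J (wf dw j) := ⟨_, rfl⟩
            obtain ⟨Vf, hVf⟩ : ∃ f : ℕ → ℕ, f = fun j => vl u (W g) v₀ v (ε * l) J (mf j) := ⟨_, rfl⟩
            obtain ⟨Rf, hRf⟩ : ∃ f : ℕ → ℕ, f = fun j => rl u (W g) g ρ (ε * l) J (mf j) := ⟨_, rfl⟩
            obtain ⟨qf, hqf⟩ : ∃ f : ℕ → ℕ, f = fun j => Pt + dP - Rf j - wf dw j := ⟨_, rfl⟩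
            have cell : ∀ j, j ≤ N₁ → Cell u (W g) v₀ v g ρ P J X M N₁ N Wt Pt dP (wf dw j) (mf j) (Vf j)
                (Rf j) (qf j) := by
              intro j hj
              have h1 := arc.cell (dP := dP) hdw hj (w := wf dw j) (by rw [hwf])
              rw [hqf, hVf, hRf, hmf]
              exact h1
            have hVm : ∀ j, j ≤ N₁ → Vf j = vl u (W g) v₀ v (ε * l) J (mf j) := fun j _ => by rw [hVf]
            have hRm : ∀ j, j ≤ N₁ → Rf j = rl u (W g) g ρ (ε * l) J (mf j) := fun j _ => by rw [hRf]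
            have hwJ : ∀ j, j ≤ N₁ → wf dw j ≤ J := by
              intro j hj
              have := (arc.lev dP hdw hj (w := wf dw j) (by rw [hwf])).2.2.1
              omega
            have hP0J : 0 ≤ P * J := mul_nonneg (by linarith only [rgap, rw0, rPg, hG0, hv₀]) hJR
            have prec : ∀ j, j ≤ N₁ → Vf j ≤ Vx ∧ Rf j - Vf j ≤ Hx ∧ Rf j ≤ Rx ∧
                ((Rf j - Vf j : ℕ) : ℝ) = Rf j - Vf j ∧ Vf j + (Rf j - Vf j) = Rf j := by
              intro j hj
              have hc := cell j hj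
              obtain ⟨p1, p2, p3, p4, p5, p6, p7, p8, p9, p10⟩ := sz.prec hc
              have hx0X : 0 < x₀ * X := mul_pos hx₀ hX0
              have hVR := hc.VR
              refine ⟨?_, ?_, ?_, Nat.cast_sub hVR, by omega⟩
              · have : (Vf j : ℝ) ≤ Vx := by linarith only [hvρ, hv, e1, e4, e8, hε0, hnk, hJ1, hXu, p4]
                exact_mod_cast this
              · have : ((Rf j - Vf j : ℕ) : ℝ) ≤ Hx := by
                  rw [Nat.cast_sub hVR]
                  linarith only [hvρ, hv, e1, e4, e8, hε0, hnk, hJ1, hXu, p5]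
                exact_mod_cast this
              · have : (Rf j : ℝ) ≤ Rx := by linarith only [p3, hx0X]
                exact_mod_cast this
            exact by
             have frg : ∀ j, j ≤ N₁ → Frg F B (wf dw j) (Vf j) (Rf j - Vf j) 64
                 (fun ω => za (Vf j) (z (mf j) ω)) (fun ω => zs (Rf j - Vf j) (z (mf j) ω))
                 (fun ω => zt (Vf j) (Rf j - Vf j) (z (mf j) ω)) (fun ω => xa Vx (al ω))
                 (fun ω => xs Hx (y ω)) (fun ω => xt Vx Hx Rx (al ω) (k ω) (y ω)) := by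
               intro j hj
               have hc := cell j hj
               obtain ⟨g1, g2, g3, -, -⟩ := prec j hj
               have g4 := frg_of hF.frx hF.fre hc.mN (Vx := Vx) (Hx := Hx) (Rx := Rx)
                 (vl_le_rl zon J hc.mN) (vl_anti zon J (Nat.zero_le _) hc.mN)
                 (rl_anti zon J (Nat.zero_le _) hc.mN) (by rw [← hVm j hj]; exact g1)
                 (by rw [← hVm j hj, ← hRm j hj]; exact g2) (by rw [← hRm j hj]; exact g3)
               rw [← hVm j hj, ← hRm j hj] at g4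
               exact g4.lift hc.wm (hwJ j hj)
             -- the mesh window of a window of the chain
             have mesh : ∀ j, j ≤ N₁ → (u (mf j) : ℝ) ≤ W g + l ∧ W g - (N₁ * M + 4) * l ≤ u (mf j) := by
               intro j hj
               have hc := cell j hj
               have h1 := hc.uu
               have h2 := hc.ub
               constructor
               · have h3 : (u (mf j) : ℝ) * J ≤ (W g + l) * J := by
                   have : (W g + l) * J = W g * J + l * J := by ring
                   linarith only [hvρ, hv, e1, e4, e8, hε0, hnk, hJ1, h1]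
                 exact le_of_mul_le_mul_right h3 hJ0
               · have h3 : (W g - (N₁ * M + 4) * l) * J ≤ (u (mf j) : ℝ) * J := by
                   have h4 : (W g - (N₁ * M + 4) * l) * J = W g * J - (N₁ * M + 3) * (l * J) - l * J := by
                     ring
                   have h5 : ((N₁ : ℝ) * M + 3) * X ≤ (N₁ * M + 3) * (l * J) :=
                     mul_le_mul_of_nonneg_left hXl (by positivity)
                   linarith only [hvρ, hv, e1, e4, e8, hε0, hnk, hJ1, h2, h5]
                 exact le_of_mul_le_mul_right h3 hJ0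
             exact by
              have hxX : ∀ {x : ℝ}, x < (2 : ℝ) ^ (-(x₀ * X)) → x < (2 : ℝ) ^ (-(x₀ * l / 2 * J)) := by
                intro x hx
                refine hx.trans_le (Real.rpow_le_rpow_of_exponent_le (by norm_num) ?_)
                linarith only [s9]
              have hfin := hR2 J F B τ (wf dw) Vf (fun j => Rf j - Vf j) qf (Pt + dP) X n
                (fun j ω => za (Vf j) (z (mf j) ω)) (fun j ω => zs (Rf j - Vf j) (z (mf j) ω))
                (fun j ω => zt (Vf j) (Rf j - Vf j) (z (mf j) ω)) (fun ω => xa Vx (al ω))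
                (fun ω => xs Hx (y ω)) (fun ω => xt Vx Hx Rx (al ω) (k ω) (y ω)) (lm * l / 2 * J) hF.inj hQ
                hXX₀ (by omega) (hnX.trans (mul_le_mul_of_nonneg_right (by linarith only [hκ₁, hκ₁l]) hX0.le)) ?_
                (hT3 B hBA hPe) ?_ ?_ ?_ ?_ ?_ ?_ ?_ ?_ ?_ ?_
              · exact hfin
              · -- e ≤ lm X
                have h1 : lm * l / 2 * J = lm * (l * J / 2) := by ring
                rw [h1]
                exact mul_le_mul_of_nonneg_left (by linarith only [hvρ, hv, e1, e4, e8, hε0, hnk, hJ1, hXu]) hlm.le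
              · -- the frames
                intro j hj
                have hc := cell j hj
                refine ⟨frg j hj, ?_, ?_⟩
                · have h1 := hc.qq
                  have h2 := hc.VR
                  show qf j + (Vf j + (Rf j - Vf j)) + wf dw j = Pt + dP
                  omega
                · intro ω hω i l'
                  exact fr_bd hF.frx hc.mN (Vf j) (Rf j - Vf j) τ hω i l'
              · -- the steps
                intro j hj
                have h1 := arc.step hdw hj (w := wf dw j) (w' := wf dw (j + 1)) (by rw [hwf]) (by rw [hwf])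
                rw [hVf, hRf, hmf]
                exact h1
              · -- the top row
                have h1 : (Pt : ℝ) ≤ P * J := by
                  rw [hPt]
                  exact Nat.floor_le hP0J
                have h2 : (dP : ℝ) ≤ Y * X := by exact_mod_cast hdP.le
                have h3 : (2 * Y + N₂ + 4 : ℝ) * X ≤ Kc * X := by
                  refine mul_le_mul_of_nonneg_right ?_ hX0.le
                  rw [hKc]
                  have : 0 ≤ 4 * (1 + ρ) * (N₁ * M + 4) := by positivity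
                  linarith only [hvρ, hv, hρNM, e1, e2, e4, e8, hε0]
                have h4 : (P + G) * J ≤ 1 * J := mul_le_mul_of_nonneg_right rP1.le hJR
                have h5 : (P + G) * J = P * J + G * J := by ring
                have h6 : (2 * Y + N₂ + 4 : ℝ) * X = 2 * (Y * X) + N₂ * X + 4 * X := by ring
                have h7 : (0 : ℝ) ≤ Y * X := by positivity
                have h8 : ((Pt + dP + (N₂ + 1) * X : ℕ) : ℝ) ≤ J := by
                  push_cast
                  linarith only [hvρ, hv, e1, e4, e8, hε0, hnk, hJ1, hXu, hKJ, hql, h1, h2, h3, h4]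
                exact_mod_cast h8
              · -- the digits of the exact frame
                intro j hj
                have hc := cell j hj
                obtain ⟨g1, g2, g3, -, g5⟩ := prec j hj
                refine (frame_dig (frg j hj) hF.inj hQ g1 g2 (by rw [g5]; exact g3)
                  (fun ω => rd_grid _ _) (fun ω => rd_grid _ _) (fun ω => rd_grid _ _)
                  (by norm_num)).trans ?_
                exact sz.dig hc
              · -- visibility
                intro j hj k' hk'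
                have hc := cell j hj.le
                obtain ⟨g1, g2, g3, g4, g5⟩ := prec j hj.le
                obtain ⟨p1, p2, p3, p4, p5, p6, p7, p8, p9, p10⟩ := sz.prec hc
                obtain ⟨v1, v2, v3, v4, v5⟩ := sz.vel hc hPt hP0J hdP hk' (Nat.zero_le X)
                refine vis_of hF.frx hF.fre rfl rfl rfl ?_ ?_ ?_ g2 ?_
                · have : ((qf j + k' * X + Vf j + X : ℕ) : ℝ) ≤ Pu := by
                    push_cast
                    exact v1
                  exact_mod_cast this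
                · have : ((Vf j + X : ℕ) : ℝ) ≤ Vx := by
                    push_cast
                    exact p4
                  exact_mod_cast this
                · have : ((qf j + k' * X + (Vf j + (Rf j - Vf j)) + X : ℕ) : ℝ) ≤ PN := by
                    rw [g5]
                    push_cast
                    exact v2
                  exact_mod_cast this
                · have : ((Vf j + (Rf j - Vf j) + X : ℕ) : ℝ) ≤ Rx := by
                    rw [g5]
                    push_cast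
                    exact p6
                  exact_mod_cast this
              · -- (H3)
                intro j hj k' hk'
                have hc := cell j hj.le
                obtain ⟨g1, g2, g3, g4, g5⟩ := prec j hj.le
                obtain ⟨L, hLd⟩ : ∃ L : ℕ, L = ⌊lm / 4 * X⌋₊ := ⟨_, rfl⟩
                have hL : (L : ℝ) ≤ lm / 4 * X := by
                  rw [hLd]
                  exact Nat.floor_le (by positivity)
                have hθN : N₁ * N₂ * θ * (3 * (CZ + 1) * 5) ≤ lm / 2 := by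
                  rw [hθ]
                  have h1 : 0 < CZ + 1 := by linarith only [hCZ, b3, b4, hρNM, hN₂', e1, e4, e8, hε0]
                  refine le_of_eq ?_
                  field_simp
                  ring
                refine ⟨_, bad_tiles (n := n) (L := L) (pl := fun i => pl i (dw, dP)) (j := j) (k := k') hXn hYn
                  hsel hBad2 hθ0.le (Nat.cast_nonneg _) (Nat.cast_nonneg _) hwl hql hθN hL hnX hj hk', ?_⟩
                intro r' hr' hr2
                simp only [Finset.mem_union, Finset.mem_filter, Finset.mem_range, not_or, not_and,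
                  not_lt] at hr'
                obtain ⟨hr3, hr4⟩ := hr'
                have hn0 : 0 < n := by omega
                have hrX : r' < X / n := by
                  have : r' + 1 ≤ X / n := (Nat.le_div_iff_mul_le hn0).mpr hr2
                  omega
                have hLr : L ≤ r' * n := by
                  have h1 : L < (L / n + 1) * n := by
                    have := Nat.lt_div_mul_add hn0 (a := L)
                    linarith only [this, this, Nat.add_mul (L / n) 1 n]
                  have h2 : (L / n + 1) * n ≤ r' * n := Nat.mul_le_mul_right n hr3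
                  omega
                have hrn : r' * n ≤ X := by
                  have : (r' + 1) * n = r' * n + n := by ring
                  omega
                have hnb := hr4 hrX
                obtain ⟨v1, v2, v3, v4, v5⟩ := sz.vel hc hPt hP0J hdP hk' hrn
                have hplace : pl (j, k', r') (dw, dP) = (wf dw j, qf j + k' * X + r' * n) := by
                  rw [hpl, hqf, hRf, hmf]
                rw [hplace] at hnb
                have hmem : (wf dw j, qf j + k' * X + r' * n) ∈ Finset.Ico (wl u J N) (wl u J 0) ×ˢ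
                    Finset.Ico ⌊(P - g - 2 * Y * l) * J⌋₊ ⌊(P - g + 2 * Y * l) * J⌋₊ := by
                  obtain ⟨l1, l2, -⟩ := arc.lev dP hdw hj.le (w := wf dw j) (by rw [hwf])
                  rw [Finset.mem_product, Finset.mem_Ico, Finset.mem_Ico]
                  have hYX : (Y : ℝ) * X ≤ Y * (l * J) := mul_le_mul_of_nonneg_left hXl hY0.le
                  have hYX' : (0 : ℝ) < Y * X := by positivity
                  have hX1 : (X : ℝ) ≤ Y * X := by
                    have h1 : (1 : ℝ) ≤ Y := by exact_mod_cast hYn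
                    have := mul_le_mul_of_nonneg_right h1 hX0.le
                    linarith only [this]
                  refine ⟨⟨l1, l2⟩, ?_, ?_⟩
                  · refine Nat.floor_le_of_le ?_
                    have h1 : (P - g - 2 * Y * l) * J = (P - g) * J - 2 * (Y * (l * J)) := by ring
                    rw [h1]
                    push_cast at v3 ⊢
                    linarith only [hvρ, hv, e1, e4, e8, hε0, hnk, hJ1, hXu, hYX, hX1, v3]
                  · have h1 : qf j + k' * X + r' * n + 1 ≤ ⌊(P - g + 2 * Y * l) * J⌋₊ := by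
                      refine Nat.le_floor ?_
                      have h1 : (P - g + 2 * Y * l) * J = (P - g) * J + 2 * (Y * (l * J)) := by ring
                      have h2 : (2 * (Y : ℝ) - 1) * X = 2 * (Y * X) - X := by ring
                      rw [h1]
                      push_cast at v4 ⊢
                      linarith only [hvρ, hv, e1, e4, e8, hε0, hnk, hJ1, hXu, hYX, v4]
                    omega
                have h1 := hBad1 _ hmem hnb (mf j) hc.mN hc.wm hc.mi
                simp only at h1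
                rw [← hX, ← hn, ← hVm j hj.le, ← hRm j hj.le, ← hLd] at h1
                exact h1.trans (h3_conv hQ hLr)
              · -- (H4)
                intro j hj k' hk'
                have hc := cell j hj.le
                obtain ⟨v1, v2, v3, v4, v5⟩ := sz.vel hc hPt hP0J hdP hk' (Nat.zero_le X)
                have hYX : (Y : ℝ) * X ≤ Y * (l * J) := mul_le_mul_of_nonneg_left hXl hY0.le
                have hX1 : (X : ℝ) ≤ Y * X := by
                  have h1 : (1 : ℝ) ≤ Y := by exact_mod_cast hYn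
                  have := mul_le_mul_of_nonneg_right h1 hX0.le
                  linarith only [this]
                have h1 := hA3 B hBA hPe (qf j + k' * X) X hX (by
                  have h2 : (2 * (Y : ℝ) - 1) * X = 2 * (Y * X) - X := by ring
                  have h3 : 2 * (Y : ℝ) * l * J = 2 * (Y * (l * J)) := by ring
                  push_cast at v3 v4 ⊢
                  rw [abs_le]
                  constructor <;> linarith)
                rw [← hF.i0] at h1
                exact h1
              · -- (H5)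
                intro j hj k' hk' i hi E hE
                have hc := cell j hj.le
                obtain ⟨g1, g2, g3, g4, g5⟩ := prec j hj.le
                obtain ⟨m1, m2⟩ := mesh j hj.le
                obtain ⟨p1, p2, p3, p4, p5, p6, p7, p8, p9, p10⟩ := sz.prec hc
                obtain ⟨v1, v2, v3, v4, v5⟩ := sz.vel hc hPt hP0J hdP hk' (Nat.zero_le X)
                have hYX : (Y : ℝ) * X ≤ Y * (l * J) := mul_le_mul_of_nonneg_left hXl hY0.le
                have hEC : (E₁ : ℝ) * (l * J) ≤ C₂ * (l * J) :=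
                  mul_le_mul_of_nonneg_right (by linarith only [hCZ, b3, b4, hρNM, hN₂', hY₀, hY, hC₂2, e1, e4, e8, hε0]) (by linarith only [hvρ, hv, e1, e4, e8, hε0, hnk, hJ1])
                have e9 : qf j + k' * X + (Vf j + (Rf j - Vf j)) + wf dw j = Pt + dP + k' * X := by
                  have h1 := hc.qq
                  omega
                have hD4 := hD3 B hBA hPe τ y z al nu k b
                rw [← hPu, ← hPN] at hD4
                have h1 := hD4 hF Vx Hx Rx
                  (s2.trans (le_of_le_of_eq (add_le_add le_rfl (hE1X.trans hEC)) (by ring)))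
                  (s4.trans (le_of_le_of_eq (add_le_add le_rfl (hE1X.trans hEC)) (by ring)))
                  (s6.trans (le_of_le_of_eq (add_le_add le_rfl (hE1X.trans hEC)) (by ring)))
                  (mf j) hc.m1 hc.mN (wf dw j) (qf j + k' * X) X hX hc.wm hc.wt (Vf j) (Rf j - Vf j)
                  (hVm j hj.le) (by rw [g5]; exact hRm j hj.le)
                  (room (mf j) hc.m1 hc.mN m1).2.2.2.2.2.1 p4 (by rw [g4]; exact p5) (by
                    rw [g4]
                    linarith only [p6]) (by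
                    rw [g5]
                    refine v5.trans ?_
                    have h2 : (CZ + 1 + 2 * Y) * l * J = (CZ + 1) * (l * J) + 2 * (Y * (l * J)) := by ring
                    have h3 : 0 ≤ (CZ + 1) * (l * J) := mul_nonneg (by linarith only [hCZ, b3, b4, hρNM, hN₂', e1, e4, e8, hε0]) (by linarith only [hvρ, hv, e1, e4, e8, hε0, hnk, hJ1])
                    linarith only [hYX, h3]) i hi E hE
                rw [e9] at h1
                exact h1
              · -- (H6)
                intro j hj k' hk'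
                have hc := cell j hj.le
                obtain ⟨g1, g2, g3, g4, g5⟩ := prec j hj.le
                obtain ⟨m1, m2⟩ := mesh j hj.le
                obtain ⟨p1, p2, p3, p4, p5, p6, p7, p8, p9, p10⟩ := sz.prec hc
                have hmN := hc.mN
                refine le_trans (Pool.KAF.Pr_mono ?_ ?_) (h63 (mf j) (by omega) ⟨hc.m1, hc.mN, m1⟩ B hBA hPe
                  Pu PN τ y z al nu k b hF Vx Hx Rx (wf dw j) (qf j + k' * X) X hc.wm hc.wt.le (Vf j)
                  (Rf j - Vf j) (hVm j hj.le) (by rw [g5]; exact hRm j hj.le) (by linarith only [s9, p1])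
                  (by rw [g4]; linarith only [s9, p2]) (by rw [g4]; linarith only [s9, p3]) (by linarith only [s9, p7]) (by rw [g4]; linarith only [s9, p9])
                  (by rw [g4]; linarith only [s9, p10]))
                · intro ω
                  exact dbl_nonneg hQ.nonneg ω
                · intro p _ hp i
                  exact hxX (hp i)
              · -- (H7)
                intro j hj k' hk'
                have hc := cell j hj.le
                obtain ⟨g1, g2, g3, g4, g5⟩ := prec j hj.le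
                obtain ⟨m1, m2⟩ := mesh j hj.le
                obtain ⟨p1, p2, p3, p4, p5, p6, p7, p8, p9, p10⟩ := sz.prec hc
                have hmN := hc.mN
                have hVR : (Vf j : ℝ) ≤ Rf j := by exact_mod_cast hc.VR
                refine le_trans (Pool.KAF.Pr_mono ?_ ?_) (h73 (mf j) (by omega) ⟨⟨hc.m1, hc.mN, m1⟩, m2⟩ B hBA
                  hPe Pu PN τ y z al nu k b hF Vx (wf dw j) (qf j + k' * X) X hc.wm hc.wt.le (Vf j)
                  (Rf j - Vf j) (hVm j hj.le) (by rw [g5]; exact hRm j hj.le) (by linarith only [s9, p1]) (by linarith only [s9, p7])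
                  (by linarith only [s9, p8]) (by linarith only [s9, g4, p10]))
                · intro ω
                  exact dbl_nonneg hQ.nonneg ω
                · intro p _ hp
                  exact hxX hp

end Pool.S6N
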