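import Pool.Agent.H97.S6.Asm
import Pool.Agent.H97.S6.Rise
import Pool.Agent.H76.S6.Fms
import Pool.Agent.H33.S6.Zne
import Pool.Agent.H90.S6R.Zh6
import Pool.Agent.H90.S6R.Zh7
import Pool.Agent.H25.S6.InpA
import Pool.Agent.H8.OCS.Ocb88
import Pool.Agent.H88.OCS.All

/-!
# The rising case, from (H3) and (H5)
-/

set_option autoImplicit false

namespace Pool.S6N

open Pool.K2S Pool.S6C

theorem riseOne : RiseStmt := rise_thm (Pool.K2S.ocsb_thm Pool.OCS.ocs_thm)

/-- **The rising case**, from the fullness of the tangential positions and the rows of the normal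
position. -/
theorem rise_from (hE : H3Stmt) (hD : H5Stmt) : RISEStmt :=
  rise_of riseOne zne_thm time_thm fms_thm h4_thm hE hD h6_zon h7_zon

end Pool.S6N
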