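import Pool.Agent.H97.S6.H2R

/-!
# (H3) in the contexts: tiles of the position

The position at the time of the sample, in a tile of digits, is full given the position and the
velocity before the tile, if it is full given the natural tube which is finer by the digits before
the tile, except for the normal position, which stays at the row of the context.
-/

set_option autoImplicit false

namespace Pool.S6N

open Finset Real
open Pool.Agent.H49.Ent Pool.Agent.H32.Dense Pool.STK Pool.KA Pool.KSAT Pool.K2S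

variable {J : ℕ}

/-- The exponents of the tube which is finer by `r` digits in the tangential directions. -/
def cl (q V H r : ℕ) (i : Fin 3) : ℕ := ![q + r, q + r + V, q + (V + H)] i

/-- The tube. -/
noncomputable def ctl (F : Fam 3 J) (σ : Fin 3 → Fin 3) (w q V H r : ℕ) (a s t : F.Ω → ℝ) :=
  F.blb w (cl q V H r) (fr σ a s t)

/-- The first `n` digits of the tangential position at the time of the sample. -/
noncomputable def pd2 (F : Fam 3 J) (σ : Fin 3 → Fin 3) (w q V n : ℕ) (a s t : F.Ω → ℝ)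
    (ω : F.Ω) : ℤ × ℤ :=
  (⌊(2 : ℝ) ^ (q + w + n) * mco (fr σ a s t ω) (F.x ω) 0⌋,
    ⌊(2 : ℝ) ^ (q + V + w + n) * mco (fr σ a s t ω) (F.x ω) 1⌋)

section fam3

variable {F : Fam 3 J} {A : F.Ω → Prop} {σ : Fin 3 → Fin 3} {w q V H X : ℕ} {D : ℝ}
  {a s t a' s' t' : F.Ω → ℝ}

/-- A pair of integers which are known up to `K`. -/
theorem CH_near2 {Ω τ : Type} [Fintype Ω] {q : Ω → ℝ} (hq : IsLaw q) (Y : Ω → ℤ × ℤ) (Z : Ω → τ)
    (g₁ g₂ : Ω → ℝ) (hg₁ : Det q Z g₁) (hg₂ : Det q Z g₂) {K : ℝ} (hK : 0 ≤ K)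
    (h₁ : ∀ ω, 0 < q ω → |((Y ω).1 : ℝ) - g₁ ω| ≤ K)
    (h₂ : ∀ ω, 0 < q ω → |((Y ω).2 : ℝ) - g₂ ω| ≤ K) :
    CH q Y Z ≤ 2 * Real.log (2 * K + 1) := by
  have a1 := Sel.CH_near hq (fun ω => (Y ω).1) Z g₁ hg₁ hK h₁
  have a2 := Sel.CH_near hq (fun ω => (Y ω).2) Z g₂ hg₂ hK h₂
  have a3 := CH_subadd hq.nonneg (fun ω => (Y ω).1) (fun ω => (Y ω).2) Z
  have a4 : CH q Y Z = CH q (fun ω => ((Y ω).1, (Y ω).2)) Z := rfl
  rw [a4]
  linarith

/-- The tube contains the context and the first digits of the velocity and of the position. -/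
theorem ctl_ext {r : ℕ} {ω ω' : F.Ω}
    (h : ctl F σ w q V H r a s t ω = ctl F σ w q V H r a s t ω') :
    ctx F σ w q V H a s t ω = ctx F σ w q V H a s t ω' ∧
      (∀ j : Fin 2, ⌊(2 : ℝ) ^ r * F.mu w (fun i => cv q V H i + w) (fr σ a s t) ω
          (Fin.castSucc j)⌋ =
        ⌊(2 : ℝ) ^ r * F.mu w (fun i => cv q V H i + w) (fr σ a s t) ω' (Fin.castSucc j)⌋) ∧
      ∀ j : Fin 2, ⌊(2 : ℝ) ^ r * F.md (cv q V H) (fr σ a s t) ω (Fin.castSucc j)⌋ =
        ⌊(2 : ℝ) ^ r * F.md (cv q V H) (fr σ a s t) ω' (Fin.castSucc j)⌋ := by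
  have le : ∀ i, cv q V H i ≤ cl q V H r i := by
    intro i
    fin_cases i
    · show q ≤ q + r
      omega
    · show q + V ≤ q + r + V
      omega
    · exact le_rfl
  have h1 : ctx F σ w q V H a s t ω = ctx F σ w q V H a s t ω' :=
    mlb_coarse F (fun i => Nat.add_le_add_right (le i) w) le h
  obtain ⟨k1, k2, k3, k4, k5⟩ := Box.mlb_ext h
  obtain ⟨g1, g2, g3, g4, g5⟩ := Box.mlb_ext h1
  refine ⟨h1, ?_, ?_⟩
  · intro j
    rw [Box.fl_mu, Box.fl_mu]
    have e1 := congrFun k3 (Fin.castSucc j)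
    have e2 := congrFun g3 (Fin.castSucc j)
    have e3 : ∀ v, F.mps w (fun i => cv q V H i + w + r) (fr σ a s t) v (Fin.castSucc j) =
        F.mps w (fun i => cl q V H r i + w) (fr σ a s t) v (Fin.castSucc j) := by
      intro v
      unfold Fam.mps flk
      fin_cases j
      · show ⌊(2 : ℝ) ^ (q + w + r) * _⌋ = ⌊(2 : ℝ) ^ (q + r + w) * _⌋
        rw [show q + w + r = q + r + w by omega]
      · show ⌊(2 : ℝ) ^ (q + V + w + r) * _⌋ = ⌊(2 : ℝ) ^ (q + r + V + w) * _⌋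
        rw [show q + V + w + r = q + r + V + w by omega]
    rw [e3, e3, e1, e2]
  · intro j
    rw [Box.fl_md, Box.fl_md]
    have e1 := congrFun k4 (Fin.castSucc j)
    have e2 := congrFun g4 (Fin.castSucc j)
    have e3 : ∀ v, F.mvl (fun i => cv q V H i + r) (fr σ a s t) v (Fin.castSucc j) =
        F.mvl (cl q V H r) (fr σ a s t) v (Fin.castSucc j) := by
      intro v
      unfold Fam.mvl flk
      fin_cases j
      · rfl
      · show ⌊(2 : ℝ) ^ (q + V + r) * _⌋ = ⌊(2 : ℝ) ^ (q + r + V) * _⌋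
        rw [show q + V + r = q + r + V by omega]
    rw [e3, e3, e1, e2]

theorem floor_floor_div {r X : ℕ} (h : r ≤ X) (x : ℝ) :
    ⌊(2 : ℝ) ^ r * ((⌊(2 : ℝ) ^ X * x⌋ : ℝ) / 2 ^ X)⌋ = ⌊(2 : ℝ) ^ r * x⌋ := by
  have e1 : (2 : ℝ) ^ r * ((⌊(2 : ℝ) ^ X * x⌋ : ℝ) / 2 ^ X) =
      (⌊(2 : ℝ) ^ X * x⌋ : ℝ) / ((2 ^ (X - r) : ℕ) : ℝ) := by
    have e2 : (2 : ℝ) ^ X = 2 ^ r * 2 ^ (X - r) := by
      rw [← pow_add]
      congr 1
      omega
    push_cast
    nth_rw 2 [e2]
    field_simp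
  rw [e1, Int.floor_div_natCast, Int.floor_intCast, ← Uni.floor_row h x]
  norm_num

/-- The position at the time of the sample. -/
theorem yt_mx (j : Fin 2) (ω : F.Ω) :
    |F.mx w (cv q V H) (fr σ a s t) ω (Fin.castSucc j) -
      Ocs.yt (fun j => yy F σ w q V H X a s t (Fin.castSucc j))
        (fun j => om F σ q V H X a s t (Fin.castSucc j)) (F.wt w) j ω| ≤ 2 / 2 ^ X := by
  have hwt := Lab.wt_mem F w ω
  have k1 := floor_div_near (F.mu w (fun i => cv q V H i + w) (fr σ a s t) ω (Fin.castSucc j)) X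
  have k2 := floor_div_near (F.md (cv q V H) (fr σ a s t) ω (Fin.castSucc j)) X
  have e1 : F.mx w (cv q V H) (fr σ a s t) ω (Fin.castSucc j) -
      Ocs.yt (fun j => yy F σ w q V H X a s t (Fin.castSucc j))
        (fun j => om F σ q V H X a s t (Fin.castSucc j)) (F.wt w) j ω =
      -(yy F σ w q V H X a s t (Fin.castSucc j) ω -
          F.mu w (fun i => cv q V H i + w) (fr σ a s t) ω (Fin.castSucc j)) -
        F.wt w ω * (om F σ q V H X a s t (Fin.castSucc j) ω -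
          F.md (cv q V H) (fr σ a s t) ω (Fin.castSucc j)) := by
    unfold Fam.mx Ocs.yt
    ring
  rw [e1]
  refine (abs_sub _ _).trans ?_
  rw [abs_neg, abs_mul, abs_of_nonneg hwt.1]
  have k3 : F.wt w ω * |om F σ q V H X a s t (Fin.castSucc j) ω -
      F.md (cv q V H) (fr σ a s t) ω (Fin.castSucc j)| ≤
      1 * (1 / 2 ^ X) := mul_le_mul hwt.2.le k2 (abs_nonneg _) zero_le_one
  have e2 : (2 : ℝ) / 2 ^ X = 1 / 2 ^ X + 1 * (1 / 2 ^ X) := by ring
  rw [e2]
  exact add_le_add k1 k3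

/-- **(H3)**, one tile. -/
theorem h3_tile (hQ : IsLaw (Pool.Agent.H49.Ent.cond F.p A True)) (hw : w ≤ J) {r n : ℕ}
    (hn : r + n ≤ X) :
    CH (Pool.Agent.H49.Ent.cond F.p A True) (pd2 F σ w q V (r + n) a s t)
        (fun ω => (ctl F σ w q V H r a s t ω, gt F a' s' t' ω)) ≤
      CH (Pool.Agent.H49.Ent.cond F.p A True)
        (Ocs.dg2 (r + n) (Ocs.yt (fun j => yy F σ w q V H X a s t (Fin.castSucc j))
          (fun j => om F σ q V H X a s t (Fin.castSucc j)) (F.wt w)))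
        (fun ω => (Ocs.dg2 r (Ocs.yt (fun j => yy F σ w q V H X a s t (Fin.castSucc j))
          (fun j => om F σ q V H X a s t (Fin.castSucc j)) (F.wt w)) ω,
          (Ocs.dg2 r (fun j => om F σ q V H X a s t (Fin.castSucc j)) ω,
            (ctx F σ w q V H a s t ω, gt F a' s' t' ω)))) + 4 * Real.log 11 := by
  have h0 := hQ.nonneg
  obtain ⟨y, hy⟩ : ∃ y, y = Ocs.yt (fun j => yy F σ w q V H X a s t (Fin.castSucc j))
    (fun j => om F σ q V H X a s t (Fin.castSucc j)) (F.wt w) := ⟨_, rfl⟩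
  obtain ⟨o, ho⟩ : ∃ o : Fin 2 → F.Ω → ℝ, o = fun j => om F σ q V H X a s t (Fin.castSucc j) :=
    ⟨_, rfl⟩
  obtain ⟨mk, hmk⟩ : ∃ mk : Fin 3 → F.Ω → ℝ, mk = fun i ω => F.mkn w (cv q V H) (fr σ a s t) ω i :=
    ⟨_, rfl⟩
  have hnear : ∀ (j : Fin 2) (ω : F.Ω), |F.mx w (cv q V H) (fr σ a s t) ω (Fin.castSucc j) -
      y j ω| ≤ 2 / 2 ^ X := by
    intro j ω
    rw [hy]
    exact yt_mx j ω
  rw [← hy, ← ho]
  have hkd : ∀ ω ω', ctx F σ w q V H a s t ω = ctx F σ w q V H a s t ω' →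
      gt F a' s' t' ω = gt F a' s' t' ω' → ∀ i, mk i ω = mk i ω' := by
    intro ω ω' h h' i
    rw [hmk]
    exact congrFun (Box.mkn_det h (gt_ext h').1) i
  have hpow : ∀ k : ℕ, k ≤ X → (2 : ℝ) ^ k * (2 / 2 ^ X) ≤ 2 := by
    intro k hk
    have h1 : (2 : ℝ) ^ k ≤ 2 ^ X := pow_le_pow_right₀ (by norm_num) hk
    rw [← mul_div_assoc, div_le_iff₀ (by positivity)]
    linarith
  -- the position given the digits
  have s1 : CH (Pool.Agent.H49.Ent.cond F.p A True) (pd2 F σ w q V (r + n) a s t)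
      (fun ω => (Ocs.dg2 (r + n) y ω, (ctl F σ w q V H r a s t ω, gt F a' s' t' ω))) ≤
      2 * Real.log (2 * 4 + 1) := by
    refine CH_near2 hQ _ _
      (fun ω => (Uni.dg (r + n) (y 0) ω : ℝ) + 2 ^ (r + n) * mk 0 ω)
      (fun ω => (Uni.dg (r + n) (y 1) ω : ℝ) + 2 ^ (r + n) * mk 1 ω) ?_ ?_ (by norm_num) ?_ ?_
    · intro ω ω' _ _ h
      obtain ⟨h1, h2⟩ := Prod.ext_iff.mp h
      obtain ⟨h3, h4⟩ := Prod.ext_iff.mp h2
      simp only at h1 h3 h4
      have e1 : Uni.dg (r + n) (y 0) ω = Uni.dg (r + n) (y 0) ω' := (Prod.ext_iff.mp h1).1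
      have e2 := hkd ω ω' (ctl_ext h3).1 h4 0
      simp only
      rw [e1, e2]
    · intro ω ω' _ _ h
      obtain ⟨h1, h2⟩ := Prod.ext_iff.mp h
      obtain ⟨h3, h4⟩ := Prod.ext_iff.mp h2
      simp only at h1 h3 h4
      have e1 : Uni.dg (r + n) (y 1) ω = Uni.dg (r + n) (y 1) ω' := (Prod.ext_iff.mp h1).2
      have e2 := hkd ω ω' (ctl_ext h3).1 h4 1
      simp only
      rw [e1, e2]
    · intro ω _
      have p0 := Box.pos_eq F hw (cv q V H) (fr σ a s t) ω 0
      have e1 : (2 : ℝ) ^ (q + w + (r + n)) * mco (fr σ a s t ω) (F.x ω) 0 =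
          2 ^ (r + n) * (F.mx w (cv q V H) (fr σ a s t) ω 0 + mk 0 ω) := by
        rw [hmk]
        have e2 : (2 : ℝ) ^ (q + w + (r + n)) = 2 ^ (r + n) * 2 ^ (cv q V H 0 + w) := by
          rw [← pow_add]
          congr 1
          show q + w + (r + n) = r + n + (q + w)
          omega
        rw [e2, mul_assoc, p0]
      have b1 := hnear 0 ω
      have b2 : |2 ^ (r + n) * (F.mx w (cv q V H) (fr σ a s t) ω 0 - y 0 ω)| ≤ 2 := by
        rw [abs_mul, abs_of_pos (by positivity : (0 : ℝ) < 2 ^ (r + n))]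
        exact (mul_le_mul_of_nonneg_left b1 (by positivity)).trans (hpow _ hn)
      have b3 := abs_le.1 b2
      show |((⌊(2 : ℝ) ^ (q + w + (r + n)) * mco (fr σ a s t ω) (F.x ω) 0⌋ : ℤ) : ℝ) -
        (Uni.dg (r + n) (y 0) ω + 2 ^ (r + n) * mk 0 ω)| ≤ 4
      unfold Uni.dg
      have f1 := Int.floor_le ((2 : ℝ) ^ (q + w + (r + n)) * mco (fr σ a s t ω) (F.x ω) 0)
      have f2 := Int.lt_floor_add_one ((2 : ℝ) ^ (q + w + (r + n)) *
        mco (fr σ a s t ω) (F.x ω) 0)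
      have f3 := Int.floor_le ((2 : ℝ) ^ (r + n) * y 0 ω)
      have f4 := Int.lt_floor_add_one ((2 : ℝ) ^ (r + n) * y 0 ω)
      rw [abs_le]
      constructor <;> nlinarith
    · intro ω _
      have p0 := Box.pos_eq F hw (cv q V H) (fr σ a s t) ω 1
      have e1 : (2 : ℝ) ^ (q + V + w + (r + n)) * mco (fr σ a s t ω) (F.x ω) 1 =
          2 ^ (r + n) * (F.mx w (cv q V H) (fr σ a s t) ω 1 + mk 1 ω) := by
        rw [hmk]
        have e2 : (2 : ℝ) ^ (q + V + w + (r + n)) = 2 ^ (r + n) * 2 ^ (cv q V H 1 + w) := by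
          rw [← pow_add]
          congr 1
          show q + V + w + (r + n) = r + n + (q + V + w)
          omega
        rw [e2, mul_assoc, p0]
      have b1 := hnear 1 ω
      have b2 : |2 ^ (r + n) * (F.mx w (cv q V H) (fr σ a s t) ω 1 - y 1 ω)| ≤ 2 := by
        rw [abs_mul, abs_of_pos (by positivity : (0 : ℝ) < 2 ^ (r + n))]
        exact (mul_le_mul_of_nonneg_left b1 (by positivity)).trans (hpow _ hn)
      have b3 := abs_le.1 b2
      show |((⌊(2 : ℝ) ^ (q + V + w + (r + n)) * mco (fr σ a s t ω) (F.x ω) 1⌋ : ℤ) : ℝ) -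
        (Uni.dg (r + n) (y 1) ω + 2 ^ (r + n) * mk 1 ω)| ≤ 4
      unfold Uni.dg
      have f1 := Int.floor_le ((2 : ℝ) ^ (q + V + w + (r + n)) * mco (fr σ a s t ω) (F.x ω) 1)
      have f2 := Int.lt_floor_add_one ((2 : ℝ) ^ (q + V + w + (r + n)) *
        mco (fr σ a s t ω) (F.x ω) 1)
      have f3 := Int.floor_le ((2 : ℝ) ^ (r + n) * y 1 ω)
      have f4 := Int.lt_floor_add_one ((2 : ℝ) ^ (r + n) * y 1 ω)
      rw [abs_le]
      constructor <;> nlinarith
  -- the first digits of the position given the tube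
  have s2 : CH (Pool.Agent.H49.Ent.cond F.p A True) (Ocs.dg2 r y)
      (fun ω => (ctl F σ w q V H r a s t ω, gt F a' s' t' ω)) ≤ 2 * Real.log (2 * 5 + 1) := by
    have key : ∀ (j : Fin 2) (ω : F.Ω), |(Uni.dg r (y j) ω : ℝ) -
        (⌊(2 : ℝ) ^ r * F.mu w (fun i => cv q V H i + w) (fr σ a s t) ω (Fin.castSucc j)⌋ +
          F.wt w ω * ⌊(2 : ℝ) ^ r * F.md (cv q V H) (fr σ a s t) ω (Fin.castSucc j)⌋)| ≤ 5 := by
      intro j ω
      have hwt := Lab.wt_mem F w ω
      have b1 := hnear j ω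
      have b2 : |2 ^ r * (F.mx w (cv q V H) (fr σ a s t) ω (Fin.castSucc j) - y j ω)| ≤ 2 := by
        rw [abs_mul, abs_of_pos (by positivity : (0 : ℝ) < 2 ^ r)]
        exact (mul_le_mul_of_nonneg_left b1 (by positivity)).trans (hpow _ (by omega))
      have b3 := abs_le.1 b2
      unfold Uni.dg
      unfold Fam.mx at b3
      have f1 := Int.floor_le ((2 : ℝ) ^ r * F.mu w (fun i => cv q V H i + w) (fr σ a s t) ω
        (Fin.castSucc j))
      have f2 := Int.lt_floor_add_one ((2 : ℝ) ^ r * F.mu w (fun i => cv q V H i + w)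
        (fr σ a s t) ω (Fin.castSucc j))
      have f3 := Int.floor_le ((2 : ℝ) ^ r * F.md (cv q V H) (fr σ a s t) ω (Fin.castSucc j))
      have f4 := Int.lt_floor_add_one ((2 : ℝ) ^ r * F.md (cv q V H) (fr σ a s t) ω
        (Fin.castSucc j))
      have f5 := Int.floor_le ((2 : ℝ) ^ r * y j ω)
      have f6 := Int.lt_floor_add_one ((2 : ℝ) ^ r * y j ω)
      have g1 : 0 ≤ F.wt w ω * (2 ^ r * F.md (cv q V H) (fr σ a s t) ω (Fin.castSucc j) -
          ⌊(2 : ℝ) ^ r * F.md (cv q V H) (fr σ a s t) ω (Fin.castSucc j)⌋) :=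
        mul_nonneg hwt.1 (by linarith)
      have g2 : F.wt w ω * (2 ^ r * F.md (cv q V H) (fr σ a s t) ω (Fin.castSucc j) -
          ⌊(2 : ℝ) ^ r * F.md (cv q V H) (fr σ a s t) ω (Fin.castSucc j)⌋) ≤ 1 * 1 :=
        mul_le_mul hwt.2.le (by linarith) (by linarith) zero_le_one
      rw [abs_le]
      constructor <;> nlinarith
    refine CH_near2 hQ _ _ _ _ ?_ ?_ (by norm_num) (fun ω _ => key 0 ω) (fun ω _ => key 1 ω)
    · intro ω ω' _ _ h
      obtain ⟨h3, h4⟩ := Prod.ext_iff.mp h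
      obtain ⟨c1, c2, c3⟩ := ctl_ext h3
      have c4 : F.wt w ω = F.wt w ω' := by
        unfold Fam.wt
        rw [(gt_ext h4).1]
      simp only
      rw [c2 0, c3 0, c4]
    · intro ω ω' _ _ h
      obtain ⟨h3, h4⟩ := Prod.ext_iff.mp h
      obtain ⟨c1, c2, c3⟩ := ctl_ext h3
      have c4 : F.wt w ω = F.wt w ω' := by
        unfold Fam.wt
        rw [(gt_ext h4).1]
      simp only
      rw [c2 1, c3 1, c4]
  -- assembly
  have t1 := CH_le_add h0 (pd2 F σ w q V (r + n) a s t) (Ocs.dg2 (r + n) y)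
    (fun ω => (ctl F σ w q V H r a s t ω, gt F a' s' t' ω))
  have t2 := CH_le_add h0 (Ocs.dg2 (r + n) y) (Ocs.dg2 r y)
    (fun ω => (ctl F σ w q V H r a s t ω, gt F a' s' t' ω))
  have t3 : CH (Pool.Agent.H49.Ent.cond F.p A True) (Ocs.dg2 (r + n) y)
      (fun ω => (Ocs.dg2 r y ω, (ctl F σ w q V H r a s t ω, gt F a' s' t' ω))) ≤
      CH (Pool.Agent.H49.Ent.cond F.p A True) (Ocs.dg2 (r + n) y)
        (fun ω => (Ocs.dg2 r y ω, (Ocs.dg2 r o ω,
          (ctx F σ w q V H a s t ω, gt F a' s' t' ω)))) := by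
    refine CH_mono_cond h0 fun ω ω' _ _ h => ?_
    obtain ⟨h1, h2⟩ := Prod.ext_iff.mp h
    obtain ⟨h3, h4⟩ := Prod.ext_iff.mp h2
    simp only at h1 h3 h4
    obtain ⟨c1, c2, c3⟩ := ctl_ext h3
    have c5 : ∀ j : Fin 2, Uni.dg r (o j) ω = Uni.dg r (o j) ω' := by
      intro j
      rw [ho]
      show ⌊(2 : ℝ) ^ r * ((⌊(2 : ℝ) ^ X * F.md (cv q V H) (fr σ a s t) ω
        (Fin.castSucc j)⌋ : ℝ) / 2 ^ X)⌋ = ⌊(2 : ℝ) ^ r * ((⌊(2 : ℝ) ^ X *
        F.md (cv q V H) (fr σ a s t) ω' (Fin.castSucc j)⌋ : ℝ) / 2 ^ X)⌋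
      rw [floor_floor_div (by omega), floor_floor_div (by omega), c3 j]
    refine Prod.ext h1 (Prod.ext ?_ (Prod.ext c1 h4))
    exact Prod.ext (c5 0) (c5 1)
  have l1 : Real.log (2 * 4 + 1) ≤ Real.log 11 := Real.log_le_log (by norm_num) (by norm_num)
  have l2 : Real.log (2 * 5 + 1) ≤ Real.log 11 := Real.log_le_log (by norm_num) (by norm_num)
  linarith

/-- **(H3)**, if few tiles are not full. -/
theorem h3r (hQ : IsLaw (Pool.Agent.H49.Ent.cond F.p A True)) (hw : w ≤ J) {n : ℕ}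
    {bd : Finset ℕ} {ε : ℝ}
    (hn : 0 < n) (hU : ∀ r, r ∉ bd → (r + 1) * n ≤ X → (2 - ε) * n * Real.log 2 ≤
      CH (Pool.Agent.H49.Ent.cond F.p A True) (pd2 F σ w q V (r * n + n) a s t)
        (fun ω => (ctl F σ w q V H (r * n) a s t ω, gt F a' s' t' ω)))
    (hε : 0 ≤ ε) (hε2 : ε ≤ 2) :
    (2 - ε) * X * Real.log 2 - 2 * (bd.card + 1) * n * Real.log 2 - 4 * Real.log 11 * (X / n) ≤
      ∑ r ∈ range (X / n), CH (Pool.Agent.H49.Ent.cond F.p A True)
        (Ocs.dg2 ((r + 1) * n) (Ocs.yt (fun j => yy F σ w q V H X a s t (Fin.castSucc j))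
          (fun j => om F σ q V H X a s t (Fin.castSucc j)) (F.wt w)))
        (fun ω => (Ocs.dg2 (r * n) (Ocs.yt (fun j => yy F σ w q V H X a s t (Fin.castSucc j))
          (fun j => om F σ q V H X a s t (Fin.castSucc j)) (F.wt w)) ω,
          (Ocs.dg2 (r * n) (fun j => om F σ q V H X a s t (Fin.castSucc j)) ω,
            (ctx F σ w q V H a s t ω, gt F a' s' t' ω)))) := by
  have h0 := hQ.nonneg
  have hl2 : 0 < Real.log 2 := Real.log_pos (by norm_num)
  have hl11 : 0 < Real.log 11 := Real.log_pos (by norm_num)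
  have key : ∀ r ∈ range (X / n), (2 - ε) * n * Real.log 2 - 4 * Real.log 11 -
      (if r ∈ bd then 2 * n * Real.log 2 else 0) ≤
      CH (Pool.Agent.H49.Ent.cond F.p A True)
        (Ocs.dg2 ((r + 1) * n) (Ocs.yt (fun j => yy F σ w q V H X a s t (Fin.castSucc j))
          (fun j => om F σ q V H X a s t (Fin.castSucc j)) (F.wt w)))
        (fun ω => (Ocs.dg2 (r * n) (Ocs.yt (fun j => yy F σ w q V H X a s t (Fin.castSucc j))
          (fun j => om F σ q V H X a s t (Fin.castSucc j)) (F.wt w)) ω,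
          (Ocs.dg2 (r * n) (fun j => om F σ q V H X a s t (Fin.castSucc j)) ω,
            (ctx F σ w q V H a s t ω, gt F a' s' t' ω)))) := by
    intro r hr
    have hr' : (r + 1) * n ≤ X := by
      have h1 := Finset.mem_range.mp hr
      calc (r + 1) * n ≤ X / n * n := Nat.mul_le_mul_right n h1
        _ ≤ X := Nat.div_mul_le_self X n
    split_ifs with h2
    · refine le_trans ?_ (CH_nonneg h0 _ _)
      have : ε * n * Real.log 2 ≥ 0 := by positivity
      nlinarith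
    · have h3 := hU r h2 hr'
      have h4 := h3_tile (F := F) (σ := σ) (w := w) (q := q) (V := V) (H := H) (X := X)
        (a := a) (s := s) (t := t) (a' := a') (s' := s') (t' := t') hQ hw (r := r * n) (n := n)
        (by linarith)
      have e : (r + 1) * n = r * n + n := by ring
      rw [e]
      linarith
  refine le_trans ?_ (Finset.sum_le_sum key)
  rw [Finset.sum_sub_distrib, Finset.sum_const, Finset.card_range, nsmul_eq_mul]
  have h5 : ∑ r ∈ range (X / n), (if r ∈ bd then 2 * (n : ℝ) * Real.log 2 else 0) ≤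
      bd.card * (2 * n * Real.log 2) := by
    rw [← Finset.sum_filter, Finset.sum_const, nsmul_eq_mul]
    refine mul_le_mul_of_nonneg_right ?_ (by positivity)
    have h6 : ((range (X / n)).filter fun r => r ∈ bd).card ≤ bd.card :=
      Finset.card_le_card fun r hr => (Finset.mem_filter.mp hr).2
    exact_mod_cast h6
  have h7 : (X : ℝ) - n ≤ ((X / n : ℕ) : ℝ) * n := by
    have h8 := Nat.div_add_mod X n
    have h9 := Nat.mod_lt X hn
    have h10 : X ≤ X / n * n + n := by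
      rw [Nat.mul_comm]
      omega
    have : (X : ℝ) ≤ ((X / n : ℕ) : ℝ) * n + n := by exact_mod_cast h10
    linarith
  have h11 : ((X / n : ℕ) : ℝ) ≤ (X : ℝ) / n := Nat.cast_div_le
  have h12 : (2 - ε) * Real.log 2 * ((X : ℝ) - n) ≤
      (2 - ε) * Real.log 2 * (((X / n : ℕ) : ℝ) * n) :=
    mul_le_mul_of_nonneg_left h7 (mul_nonneg (by linarith) hl2.le)
  have h13 : 4 * Real.log 11 * ((X / n : ℕ) : ℝ) ≤ 4 * Real.log 11 * ((X : ℝ) / n) :=
    mul_le_mul_of_nonneg_left h11 (by positivity)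
  have h14 : 0 ≤ ε * n * Real.log 2 := by positivity
  nlinarith

end fam3

end Pool.S6N
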