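import Pool.Agent.H97.S6.Zne

/-!
# The inputs of the rising case at class level

All of them start from the local data (`Loc`) with `v < ρ`; the constants may depend on the local
data. `l` is the scale of the blocks, `ε l` the error of the affine numbers in the zone, the zone
lies within `CZ l` of the window `W g`.
-/

set_option autoImplicit false

namespace Pool.S6N

open Finset Real
open Pool.Agent.H49.Ent Pool.Agent.H32.Dense Pool.STK Pool.KA Pool.KSAT Pool.K2S Pool.PB Pool.KS6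
  Pool.S6C Pool.Sel51

/-- A statement on the local data of the rising case. -/
def RLoc (Φ : PCl 3 → Fin 3 → ℝ → (ℝ → Row) → ℝ → ℝ → ℝ → ℝ → ℝ → ℝ → ℝ → Prop) : Prop :=
  ∀ (S : PCl 3) (a R h₁ : ℝ) (i₀ : Fin 3) (c s₂ : ℝ) (r : ℝ → ℝ) (D : Set ℝ) (σ : ℝ → Row),
    Cs S a R h₁ i₀ c s₂ r D σ → ∀ (act : ℚ → ℝ) (K : Set ℝ) (W : ℝ → ℝ) (v₁ t : ℚ)
    (e₁ Q₀ P g v₀ v ρ a₀ α : ℝ), Loc S i₀ c s₂ r D σ act K W v₁ t e₁ Q₀ P g v₀ v ρ a₀ α → v < ρ →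
    Φ S i₀ c σ (W g) P g v₀ v ρ α

/-- The zone at the scale `l` with error `ε l`. -/
structure Zsc (σ : ℝ → Row) (N : ℕ) (u : ℕ → ℚ) (w₀ v₀ v g ρ ε l CZ : ℝ) : Prop where
  zon : Zon σ N u w₀ v₀ v g ρ (ε * l)
  top : |(u 0 : ℝ) - w₀| ≤ CZ * l
  bot : |(u N : ℝ) - w₀| ≤ CZ * l

/-- **(TIME)** -/
def TIMEStmt : Prop :=
  ∀ (S : PCl 3) (a R h₁ : ℝ) (i₀ : Fin 3) (c s₂ : ℝ) (r : ℝ → ℝ) (D : Set ℝ) (σ : ℝ → Row),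
    Cs S a R h₁ i₀ c s₂ r D σ → ∀ e : ℝ, 0 < e → Clp S (fun J F A => ∀ B : F.Ω → Prop, Sub B A →
      Pe F.p A ≤ 4 * Pe F.p B → (J : ℝ) * Real.log 2 - e * J ≤
        CH (Pool.Agent.H49.Ent.cond F.p B True) F.T (fun ω => (F.l ω, F.Z ω)))

/-- **(FMS)** The frames exist. -/
def FMSStmt : Prop :=
  RLoc fun S i₀ _ σ w₀ P g v₀ v ρ _ => ∀ CZ C₂ : ℝ, 0 < CZ → 0 < C₂ → ∃ ε₀ l₀ : ℝ, 0 < ε₀ ∧ 0 < l₀ ∧
    ∀ ε l : ℝ, 0 < ε → ε ≤ ε₀ → 0 < l → l ≤ l₀ → ∀ (N : ℕ) (u : ℕ → ℚ),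
    Zsc σ N u w₀ v₀ v g ρ ε l CZ → Clp S (fun J F A => ∃ B : F.Ω → Prop, Sub B A ∧
      Pe F.p A ≤ 4 * Pe F.p B ∧ ∃ (τ : Fin 3 → Fin 3) (y : F.Ω → Pln) (z : ℕ → F.Ω → Pln)
      (al nu k b : F.Ω → ℝ), Fms F B i₀ N (wl u J) (vl u w₀ v₀ v (ε * l) J)
        (rl u w₀ g ρ (ε * l) J) ⌊(P - g + v₀ + C₂ * l) * J⌋₊ ⌊(P - w₀ + C₂ * l) * J⌋₊ τ y z
        al nu k b)

/-- **(H4)** Activity given the exact point. -/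
def H4Stmt : Prop :=
  RLoc fun S i₀ _ _ _ P g _ _ _ α => ∀ CZ : ℝ, 0 < CZ → ∃ l₀ : ℝ, 0 < l₀ ∧
    ∀ l : ℝ, 0 < l → l ≤ l₀ → Clp S (fun J F A => ∀ B : F.Ω → Prop, Sub B A →
      Pe F.p A ≤ 4 * Pe F.p B → ∀ q X : ℕ, X = ⌊l * J⌋₊ → |(q : ℝ) - (P - g) * J| ≤ CZ * l * J →
      α / 2 * X * Real.log 2 ≤ CH (Pool.Agent.H49.Ent.cond F.p B True)
        (fun ω => ⌊(2 : ℝ) ^ (q + X) * F.d ω i₀⌋) (pq F i₀ q))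

open Classical in
/-- **(H3)** The tangential positions are full in most natural boxes of the zone, given the exact
frame; the normal position lags behind by `lm l J` digits. The exact frame has `Cx l J` digits more
than the top frame, the rows of the base velocity are within `Y l J` of `(P - g) J`; `Y` is large
compared to `Cx`. -/
def H3Stmt : Prop :=
  RLoc fun S i₀ _ σ w₀ P g v₀ v ρ _ => ∀ ι θ lm CZ Cx : ℝ, 0 < ι → 0 < θ → 0 < lm → 0 < CZ →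
    0 < Cx → ∃ Y₀ : ℝ, 0 < Y₀ ∧ ∀ Y C₂ : ℝ, Y₀ ≤ Y → (2 + v + ρ) * (CZ + Y) ≤ C₂ →
    ∃ κ₁ ε₀ l₀ : ℝ, 0 < κ₁ ∧ κ₁ ≤ lm ∧ 0 < ε₀ ∧ 0 < l₀ ∧
    ∀ ε l : ℝ, 0 < ε → ε ≤ ε₀ → 0 < l → l ≤ l₀ → ∀ (N : ℕ) (u : ℕ → ℚ),
    Zsc σ N u w₀ v₀ v g ρ ε l CZ → l ≤ (u 0 : ℝ) - u N → Clp S (fun J F A =>
      ∀ B : F.Ω → Prop, Sub B A →
      Pe F.p A ≤ 4 * Pe F.p B → ∀ (τ : Fin 3 → Fin 3) (y : F.Ω → Pln) (z : ℕ → F.Ω → Pln)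
      (al nu k b : F.Ω → ℝ), Fms F B i₀ N (wl u J) (vl u w₀ v₀ v (ε * l) J)
        (rl u w₀ g ρ (ε * l) J) ⌊(P - g + v₀ + C₂ * l) * J⌋₊ ⌊(P - w₀ + C₂ * l) * J⌋₊ τ y z
        al nu k b →
      ∀ Vx Hx Rx : ℕ, Vx ≤ (v₀ + Cx * l) * J → Hx ≤ (g - w₀ - v₀ + Cx * l) * J →
        Rx ≤ (g - w₀ + Cx * l) * J → (v₀ - Cx * l) * J ≤ Vx →
        (g - w₀ - v₀ - Cx * l) * J ≤ Hx → ∀ ql qh : ℕ, ql = ⌊(P - g - Y * l) * J⌋₊ →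
        qh = ⌊(P - g + Y * l) * J⌋₊ →
      ((((Finset.Ico (wl u J N) (wl u J 0)) ×ˢ (Finset.Ico ql qh)).filter fun wq =>
        ¬ ∀ j, j ≤ N → wl u J j ≤ wq.1 → (∀ i < j, wq.1 < wl u J i) →
          (2 - ι) * ⌊κ₁ * ⌊l * J⌋₊⌋₊ * Real.log 2 ≤ CH (Pool.Agent.H49.Ent.cond F.p B True)
            (pd2 F τ wq.1 wq.2 (vl u w₀ v₀ v (ε * l) J j) ⌊κ₁ * ⌊l * J⌋₊⌋₊
              (fun ω => za (vl u w₀ v₀ v (ε * l) J j) (z j ω))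
              (fun ω => zs (rl u w₀ g ρ (ε * l) J j - vl u w₀ v₀ v (ε * l) J j) (z j ω))
              (fun ω => zt (vl u w₀ v₀ v (ε * l) J j)
                (rl u w₀ g ρ (ε * l) J j - vl u w₀ v₀ v (ε * l) J j) (z j ω)))
            (fun ω => (ctx F τ wq.1 wq.2 (vl u w₀ v₀ v (ε * l) J j)
                (rl u w₀ g ρ (ε * l) J j - vl u w₀ v₀ v (ε * l) J j - ⌊lm * ⌊l * J⌋₊⌋₊)
                (fun ω => za (vl u w₀ v₀ v (ε * l) J j) (z j ω))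
                (fun ω => zs (rl u w₀ g ρ (ε * l) J j - vl u w₀ v₀ v (ε * l) J j) (z j ω))
                (fun ω => zt (vl u w₀ v₀ v (ε * l) J j)
                  (rl u w₀ g ρ (ε * l) J j - vl u w₀ v₀ v (ε * l) J j) (z j ω)) ω,
              gt F (fun ω => xa Vx (al ω)) (fun ω => xs Hx (y ω))
                (fun ω => xt Vx Hx Rx (al ω) (k ω) (y ω)) ω))).card : ℝ) ≤
        θ * (wl u J 0 - wl u J N : ℕ) * (qh - ql : ℕ))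

/-- **(H5)** The rows of the normal position are not full, on events. -/
def H5Stmt : Prop :=
  RLoc fun S i₀ c σ w₀ P g v₀ v ρ _ => ∀ κ ϖ CZ C₂ : ℝ, 0 < κ → κ ≤ 1 → 0 < ϖ → 0 < CZ →
    (2 + v + ρ) * CZ ≤ C₂ → ∃ ε₀ l₀ : ℝ, 0 < ε₀ ∧ 0 < l₀ ∧ ∀ ε l : ℝ, 0 < ε → ε ≤ ε₀ → 0 < l → l ≤ l₀ →
    ∀ (N : ℕ) (u : ℕ → ℚ), Zsc σ N u w₀ v₀ v g ρ ε l CZ → Clp S (fun J F A =>
      ∀ B : F.Ω → Prop, Sub B A → Pe F.p A ≤ 4 * Pe F.p B →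
      ∀ (τ : Fin 3 → Fin 3) (y : F.Ω → Pln) (z : ℕ → F.Ω → Pln) (al nu k b : F.Ω → ℝ),
      Fms F B i₀ N (wl u J) (vl u w₀ v₀ v (ε * l) J)
        (rl u w₀ g ρ (ε * l) J) ⌊(P - g + v₀ + C₂ * l) * J⌋₊ ⌊(P - w₀ + C₂ * l) * J⌋₊ τ y z
        al nu k b →
      ∀ Vx Hx Rx : ℕ, Vx ≤ (v₀ + C₂ * l) * J → Hx ≤ (g - w₀ - v₀ + C₂ * l) * J →
        Rx ≤ (g - w₀ + C₂ * l) * J → ∀ j, 1 ≤ j → j ≤ N → ∀ w q X : ℕ, X = ⌊l * J⌋₊ →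
        wl u J j ≤ w → w < wl u J (j - 1) → ∀ V H : ℕ, V = vl u w₀ v₀ v (ε * l) J j →
        V + H = rl u w₀ g ρ (ε * l) J j → 2 * l ≤ (ρ - v) * (u 0 - u j) →
        (V : ℝ) + X ≤ Vx → (H : ℝ) + X ≤ Hx → (V : ℝ) + H + X ≤ Rx →
        |((q + (V + H) + w : ℕ) : ℝ) - P * J| ≤ CZ * l * J → ∀ i : ℕ, (i + 1) * ⌊κ * X⌋₊ ≤ X →
        ∀ E : F.Ω → Prop, ϖ ≤ Pe (Pool.Agent.H49.Ent.cond F.p B True) E →
        CH (Pool.Agent.H49.Ent.cond (Pool.Agent.H49.Ent.cond F.p B True) E True)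
          (Uni.dg (q + (V + H) + w + (i + 1) * ⌊κ * X⌋₊) (ps F τ (fun ω => xa Vx (al ω))
            (fun ω => xs Hx (y ω)) (fun ω => xt Vx Hx Rx (al ω) (k ω) (y ω))))
          (fun ω => (Uni.dg (q + (V + H) + w + i * ⌊κ * X⌋₊) (ps F τ (fun ω => xa Vx (al ω))
            (fun ω => xs Hx (y ω)) (fun ω => xt Vx Hx Rx (al ω) (k ω) (y ω))) ω,
            (ctx F τ w q V H (fun ω => za V (z j ω)) (fun ω => zs H (z j ω))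
              (fun ω => zt V H (z j ω)) ω,
            gt F (fun ω => xa Vx (al ω)) (fun ω => xs Hx (y ω))
              (fun ω => xt Vx Hx Rx (al ω) (k ω) (y ω)) ω))) ≤
          (1 - c / 2) * ⌊κ * X⌋₊ * Real.log 2)

end Pool.S6N
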