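import Pool.Agent.H97.S6.Tel
import Pool.Agent.H88.OCS.OcbDefs

/-!
# Contexts with one generalised time

The frame of a window `w` has slopes `a` (direction of the fans, `V` digits), `s` and `t` (normal
form, `H` and `V + H` digits); the generalised time is the time and the exact frame `a'`, `s'`,
`t'`. The context is the natural box with base velocity to `q`.
-/

set_option autoImplicit false

namespace Pool.S6N

open Finset Real
open Pool.Agent.H49.Ent Pool.Agent.H32.Dense Pool.STK Pool.KA Pool.KSAT Pool.K2S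

variable {J : ℕ}

/-- The exponents of the velocities of the context. -/
def cv (q V H : ℕ) (i : Fin 3) : ℕ := ![q, q + V, q + (V + H)] i

/-- The frame. -/
def fr {Ω : Type} (σ : Fin 3 → Fin 3) (a s t : Ω → ℝ) (ω : Ω) : Fin 3 → Fin 3 → ℝ :=
  tfr σ (a ω) (s ω) (t ω)

/-- The context. -/
noncomputable def ctx (F : Fam 3 J) (σ : Fin 3 → Fin 3) (w q V H : ℕ) (a s t : F.Ω → ℝ) :=
  F.blb w (cv q V H) (fr σ a s t)

/-- The generalised time. -/
def gt (F : Fam 3 J) (a' s' t' : F.Ω → ℝ) (ω : F.Ω) : ℕ × (ℝ × ℝ × ℝ) :=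
  (F.T ω, (a' ω, s' ω, t' ω))

/-- The digits of the line in the context. -/
noncomputable def blk (F : Fam 3 J) (σ : Fin 3 → Fin 3) (w q V H X : ℕ) (a s t : F.Ω → ℝ)
    (ω : F.Ω) : (Fin 3 → ℤ) × (Fin 3 → ℤ) :=
  (fun i => ⌊(2 : ℝ) ^ X * F.mu w (fun i => cv q V H i + w) (fr σ a s t) ω i⌋,
    fun i => ⌊(2 : ℝ) ^ X * F.md (cv q V H) (fr σ a s t) ω i⌋)

/-- The frame of the window `w`, of the precisions `V` and `H`. The slope `s` is the exact one, or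
it is rounded. -/
structure Frg (F : Fam 3 J) (A : F.Ω → Prop) (w V H : ℕ) (D : ℝ) (a s t a' s' t' : F.Ω → ℝ) :
    Prop where
  fn : ∀ ω ω', slam F w ω = slam F w ω' → a ω = a ω' ∧ s ω = s ω' ∧ t ω = t ω'
  ga : ∀ ω, ∃ z : ℤ, a ω = z / 2 ^ V
  gs : (∀ ω, s ω = s' ω) ∨ ∀ ω, ∃ z : ℤ, s ω = z / 2 ^ H
  gt : ∀ ω, ∃ z : ℤ, t ω = z / 2 ^ (V + H)
  ca : ∀ ω, A ω → |a' ω - a ω| ≤ D / 2 ^ V
  cs : ∀ ω, A ω → |s' ω - s ω| ≤ D / 2 ^ H
  ct : ∀ ω, A ω → |(t' ω - t ω) + (s' ω - s ω) * a ω| ≤ D / 2 ^ (V + H)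

/-- The relative slopes. -/
noncomputable def SS {Ω : Type} (V H : ℕ) (a s t s' t' : Ω → ℝ) (j : Fin 2) (ω : Ω) : ℝ :=
  ![2 ^ (V + H) * ((t' ω - t ω) + (s' ω - s ω) * a ω), 2 ^ H * (s' ω - s ω)] j

/-- The relative direction. -/
noncomputable def EE {Ω : Type} (V : ℕ) (a a' : Ω → ℝ) (ω : Ω) : ℝ := 2 ^ V * (a' ω - a ω)

/-- The position of the line. -/
noncomputable def yy (F : Fam 3 J) (σ : Fin 3 → Fin 3) (w q V H X : ℕ) (a s t : F.Ω → ℝ)
    (i : Fin 3) (ω : F.Ω) : ℝ :=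
  ⌊(2 : ℝ) ^ X * F.mu w (fun i => cv q V H i + w) (fr σ a s t) ω i⌋ / 2 ^ X

/-- The velocity of the line. -/
noncomputable def om (F : Fam 3 J) (σ : Fin 3 → Fin 3) (q V H X : ℕ) (a s t : F.Ω → ℝ)
    (i : Fin 3) (ω : F.Ω) : ℝ := ⌊(2 : ℝ) ^ X * F.md (cv q V H) (fr σ a s t) ω i⌋ / 2 ^ X

/-- The normal position. -/
noncomputable def nn (F : Fam 3 J) (σ : Fin 3 → Fin 3) (w q V H X : ℕ)
    (a s t s' t' : F.Ω → ℝ) (ω : F.Ω) : ℝ :=
  yy F σ w q V H X a s t 2 ω + F.wt w ω * om F σ q V H X a s t 2 ω -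
    ∑ j : Fin 2, SS V H a s t s' t' j ω *
      (yy F σ w q V H X a s t (Fin.castSucc j) ω +
        F.wt w ω * om F σ q V H X a s t (Fin.castSucc j) ω)

section lemmas

variable {F : Fam 3 J} {A : F.Ω → Prop} {σ : Fin 3 → Fin 3} {w q V H X : ℕ} {D : ℝ}
  {a s t a' s' t' : F.Ω → ℝ}

theorem cv0 (q V H : ℕ) : cv q V H 0 = q := rfl
theorem cv1 (q V H : ℕ) : cv q V H 1 = q + V := rfl
theorem cv2 (q V H : ℕ) : cv q V H 2 = q + (V + H) := rfl

theorem cv_add (q V H X : ℕ) : cv (q + X) V H = fun i => cv q V H i + X := by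
  funext i
  fin_cases i <;> simp [cv] <;> omega

theorem fr_det (hF : Frg F A w V H D a s t a' s' t') {ω ω' : F.Ω}
    (h : slam F w ω = slam F w ω') : fr σ a s t ω = fr σ a s t ω' := by
  obtain ⟨h1, h2, h3⟩ := hF.fn ω ω' h
  unfold fr
  rw [h1, h2, h3]

theorem T1_slam {ω ω' : F.Ω} (h : slam F w ω = slam F w ω') : F.T1 w ω = F.T1 w ω' :=
  (Prod.ext_iff.mp (Prod.ext_iff.mp h).2).2

theorem l_slam {ω ω' : F.Ω} (h : slam F w ω = slam F w ω') : F.l ω = F.l ω' :=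
  (Prod.ext_iff.mp h).1

theorem Z_slam {ω ω' : F.Ω} (h : slam F w ω = slam F w ω') : F.Z ω = F.Z ω' :=
  (Prod.ext_iff.mp (Prod.ext_iff.mp h).2).1

/-- The context is a function of the line and the window. -/
theorem ctx_slam (hF : Frg F A w V H D a s t a' s' t') {ω ω' : F.Ω}
    (h : slam F w ω = slam F w ω') :
    ctx F σ w q V H a s t ω = ctx F σ w q V H a s t ω' ∧
      blk F σ w q V H X a s t ω = blk F σ w q V H X a s t ω' := by
  have h1 := Box.label_det F (g := w) (k := fun i => cv q V H i + w) (c := cv q V H)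
    (M := fr σ a s t) (l_slam h) (T1_slam h) (fr_det hF h) (Z_slam h)
  refine ⟨h1.1, ?_⟩
  unfold blk
  rw [h1.2.1, h1.2.2]

/-- The label of the context contains the frame. -/
theorem ctx_fr {ω ω' : F.Ω} (h : ctx F σ w q V H a s t ω = ctx F σ w q V H a s t ω') :
    fr σ a s t ω = fr σ a s t ω' := (Box.mlb_ext h).2.1

theorem fr_ext (hσ : Function.Injective σ) {ω ω' : F.Ω}
    (h : fr σ a s t ω = fr σ a s t ω') : a ω = a ω' ∧ s ω = s ω' ∧ t ω = t ω' := by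
  have n01 : σ 0 ≠ σ 1 := fun e => by have := hσ e; omega
  have n02 : σ 0 ≠ σ 2 := fun e => by have := hσ e; omega
  have n12 : σ 1 ≠ σ 2 := fun e => by have := hσ e; omega
  have h1 := congrFun (congrFun h 1) (σ 0)
  have h2 := congrFun (congrFun h 2) (σ 1)
  have h3 := congrFun (congrFun h 2) (σ 0)
  simp only [fr, tfr, Matrix.cons_val_one, Matrix.cons_val_zero, Matrix.cons_val_two,
    Matrix.tail_cons, Matrix.head_cons, if_neg n01, if_neg n02, if_neg n12, if_neg n01.symm,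
    if_true, mul_one, mul_zero, sub_zero, zero_sub, neg_inj] at h1 h2 h3
  exact ⟨h1, h2, h3⟩

theorem ctx_frm (hσ : Function.Injective σ) {ω ω' : F.Ω}
    (h : ctx F σ w q V H a s t ω = ctx F σ w q V H a s t ω') :
    a ω = a ω' ∧ s ω = s ω' ∧ t ω = t ω' := fr_ext hσ (ctx_fr h)

theorem floor_div_mem {x : ℝ} (h0 : 0 ≤ x) (h1 : x < 1) (X : ℕ) :
    0 ≤ (⌊(2 : ℝ) ^ X * x⌋ : ℝ) / 2 ^ X ∧ (⌊(2 : ℝ) ^ X * x⌋ : ℝ) / 2 ^ X < 1 := by
  have h2 : (0 : ℝ) < 2 ^ X := by positivity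
  refine ⟨div_nonneg (by exact_mod_cast Int.floor_nonneg.2 (by positivity)) h2.le, ?_⟩
  rw [div_lt_one h2]
  refine (Int.floor_le _).trans_lt ?_
  nlinarith

theorem floor_div_near (x : ℝ) (X : ℕ) :
    |(⌊(2 : ℝ) ^ X * x⌋ : ℝ) / 2 ^ X - x| ≤ 1 / 2 ^ X := by
  have h2 : (0 : ℝ) < 2 ^ X := by positivity
  have e1 : (⌊(2 : ℝ) ^ X * x⌋ : ℝ) / 2 ^ X - x = (⌊(2 : ℝ) ^ X * x⌋ - 2 ^ X * x) / 2 ^ X := by
    field_simp
  rw [e1, abs_div, abs_of_pos h2]
  refine div_le_div_of_nonneg_right ?_ h2.le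
  rw [abs_le]
  have h3 := Int.floor_le ((2 : ℝ) ^ X * x)
  have h4 := Int.lt_floor_add_one ((2 : ℝ) ^ X * x)
  constructor <;> linarith

theorem yy_mem (i : Fin 3) (ω : F.Ω) : 0 ≤ yy F σ w q V H X a s t i ω ∧
    yy F σ w q V H X a s t i ω < 1 := by
  obtain ⟨h0, h1⟩ := Box.mu_mem F w (fun i => cv q V H i + w) (fr σ a s t) ω i
  exact floor_div_mem h0 h1 X

theorem om_mem (i : Fin 3) (ω : F.Ω) : 0 ≤ om F σ q V H X a s t i ω ∧
    om F σ q V H X a s t i ω < 1 := by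
  obtain ⟨h0, h1⟩ := Box.md_mem F (cv q V H) (fr σ a s t) ω i
  exact floor_div_mem h0 h1 X

theorem SS_le (hF : Frg F A w V H D a s t a' s' t') (j : Fin 2) {ω : F.Ω} (hω : A ω) :
    |SS V H a s t s' t' j ω| ≤ D := by
  have key : ∀ (n : ℕ) (x : ℝ), |x| ≤ D / 2 ^ n → |2 ^ n * x| ≤ D := by
    intro n x hx
    rw [abs_mul, abs_of_pos (by positivity : (0 : ℝ) < 2 ^ n)]
    calc (2 : ℝ) ^ n * |x| ≤ 2 ^ n * (D / 2 ^ n) := mul_le_mul_of_nonneg_left hx (by positivity)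
      _ = D := by field_simp
  fin_cases j
  · exact key _ _ (hF.ct ω hω)
  · exact key _ _ (hF.cs ω hω)

theorem EE_le (hF : Frg F A w V H D a s t a' s' t') {ω : F.Ω} (hω : A ω) :
    |EE V a a' ω| ≤ D := by
  unfold EE
  rw [abs_mul, abs_of_pos (by positivity : (0 : ℝ) < 2 ^ V)]
  calc (2 : ℝ) ^ V * |a' ω - a ω| ≤ 2 ^ V * (D / 2 ^ V) :=
        mul_le_mul_of_nonneg_left (hF.ca ω hω) (by positivity)
    _ = D := by field_simp

theorem gt_ext {ω ω' : F.Ω} (h : gt F a' s' t' ω = gt F a' s' t' ω') :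
    F.T ω = F.T ω' ∧ a' ω = a' ω' ∧ s' ω = s' ω' ∧ t' ω = t' ω' := by
  have h1 := Prod.ext_iff.mp h
  have h2 := Prod.ext_iff.mp h1.2
  have h3 := Prod.ext_iff.mp h2.2
  exact ⟨h1.1, h2.1, h3.1, h3.2⟩

theorem SS_det (hσ : Function.Injective σ) (j : Fin 2) {ω ω' : F.Ω}
    (h : ctx F σ w q V H a s t ω = ctx F σ w q V H a s t ω')
    (h' : gt F a' s' t' ω = gt F a' s' t' ω') :
    SS V H a s t s' t' j ω = SS V H a s t s' t' j ω' := by
  obtain ⟨h1, h2, h3⟩ := ctx_frm hσ h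
  obtain ⟨g0, g1, g2, g3⟩ := gt_ext h'
  unfold SS
  rw [h1, h2, h3, g2, g3]

theorem EE_det (hσ : Function.Injective σ) {ω ω' : F.Ω}
    (h : ctx F σ w q V H a s t ω = ctx F σ w q V H a s t ω')
    (h' : gt F a' s' t' ω = gt F a' s' t' ω') : EE V a a' ω = EE V a a' ω' := by
  obtain ⟨h1, h2, h3⟩ := ctx_frm hσ h
  obtain ⟨g0, g1, g2, g3⟩ := gt_ext h'
  unfold EE
  rw [h1, g1]

/-- **The dictionary.** -/
theorem ocsdata (hσ : Function.Injective σ) {B : ℕ} (hDB : D ≤ 2 ^ B)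
    (hF : Frg F A w V H D a s t a' s' t') (hQ : IsLaw (Pool.Agent.H49.Ent.cond F.p A True)) :
    OCSData B (Pool.Agent.H49.Ent.cond F.p A True) (ctx F σ w q V H a s t)
      (blk F σ w q V H X a s t) (gt F a' s' t')
      (fun j => yy F σ w q V H X a s t (Fin.castSucc j))
      (fun j => om F σ q V H X a s t (Fin.castSucc j)) (om F σ q V H X a s t 2)
      (yy F σ w q V H X a s t 2) (F.wt w) (SS V H a s t s' t') (EE V a a')
      (nn F σ w q V H X a s t s' t') := by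
  have hA : ∀ ω, 0 < Pool.Agent.H49.Ent.cond F.p A True ω → A ω := fun ω hω =>
    of_eq_true ((cond_pos_iff F.isLaw.nonneg A True ω).1 hω).2
  have hy : ∀ i, Det (Pool.Agent.H49.Ent.cond F.p A True)
      (fun ω => (ctx F σ w q V H a s t ω, blk F σ w q V H X a s t ω))
      (yy F σ w q V H X a s t i) := by
    intro i ω ω' _ _ h
    have h1 := congrFun (Prod.ext_iff.mp (Prod.ext_iff.mp h).2).1 i
    unfold yy
    simp only [blk] at h1
    rw [h1]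
  have ho : ∀ i, Det (Pool.Agent.H49.Ent.cond F.p A True)
      (fun ω => (ctx F σ w q V H a s t ω, blk F σ w q V H X a s t ω))
      (om F σ q V H X a s t i) := by
    intro i ω ω' _ _ h
    have h1 := congrFun (Prod.ext_iff.mp (Prod.ext_iff.mp h).2).2 i
    unfold om
    simp only [blk] at h1
    rw [h1]
  refine ⟨hQ, fun j => hy _, fun j => ho _, ho 2, hy 2, ?_, ?_, ?_, ?_, ?_, ?_, ?_, ?_, ?_, ?_⟩
  · intro ω ω' _ _ h
    have h1 := (gt_ext (Prod.ext_iff.mp h).2).1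
    unfold Fam.wt
    rw [h1]
  · intro j ω ω' _ _ h
    exact SS_det hσ j (Prod.ext_iff.mp h).1 (Prod.ext_iff.mp h).2
  · intro ω ω' _ _ h
    exact EE_det hσ (Prod.ext_iff.mp h).1 (Prod.ext_iff.mp h).2
  · intro j ω _
    exact yy_mem _ ω
  · intro j ω _
    exact om_mem _ ω
  · intro ω _
    exact om_mem _ ω
  · intro ω _
    exact Lab.wt_mem F w ω
  · intro j ω hω
    exact (SS_le hF j (hA ω hω)).trans hDB
  · intro ω hω
    exact (EE_le hF (hA ω hω)).trans hDB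
  · intro ω _
    rfl

end lemmas

end Pool.S6N
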