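import Pool.Agent.H97.S6.Rnd

/-!
# The zone

A grid of rational windows `u 0 > u 1 > ... > u N` near `w₀`, on which the numbers `rot`, `th` of
exact points are affine up to `e`. At the integer windows between two windows of the grid the frame
of the lower one is used.
-/

set_option autoImplicit false

namespace Pool.S6N

open Finset Real
open Pool.Agent.H49.Ent Pool.Agent.H32.Dense Pool.STK Pool.KA Pool.KSAT Pool.K2S Pool.PB Pool.KS6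
  Pool.S6C

/-- **The zone.** -/
structure Zon (σ : ℝ → Row) (N : ℕ) (u : ℕ → ℚ) (w₀ v₀ v g ρ e : ℝ) : Prop where
  v0 : 0 ≤ v
  ρ0 : 0 ≤ ρ
  vρ : v ≤ ρ
  e0 : 0 < e
  dec : ∀ j < N, u (j + 1) < u j
  stp : ∀ j < N, (1 + v + ρ) * ((u j : ℝ) - u (j + 1)) ≤ e
  pos : 0 < u N
  lt1 : u 0 < 1
  aff : ∀ q : ℚ, u N ≤ q → q ≤ u 0 → |(σ 1).rot q - v₀ - v * (q - w₀)| ≤ e ∧
    |(σ 1).th q - g - (1 + ρ) * (q - w₀)| ≤ e ∧ (σ 1).rot q + 20 * e < (σ 1).pi ∧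
    (σ 1).th q < 1 ∧ v₀ + v * (q - w₀) + 40 * e < g - w₀ + ρ * (q - w₀)

/-- The windows of the grid. -/
noncomputable def wl (u : ℕ → ℚ) (J j : ℕ) : ℕ := ⌊(u j : ℝ) * J⌋₊

/-- The precisions of the slopes. -/
noncomputable def vl (u : ℕ → ℚ) (w₀ v₀ v e : ℝ) (J j : ℕ) : ℕ :=
  ⌊(v₀ + v * (u j - w₀) - 10 * e) * J⌋₊

/-- The precisions of the normal forms. -/
noncomputable def rl (u : ℕ → ℚ) (w₀ g ρ e : ℝ) (J j : ℕ) : ℕ :=
  ⌊(g - w₀ + ρ * (u j - w₀) - 20 * e) * J⌋₊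

/-- **The frames of a family**: frames of the windows of the grid, exact frame. -/
structure Fms {J : ℕ} (F : Fam 3 J) (B : F.Ω → Prop) (i₀ : Fin 3) (N : ℕ) (w V R : ℕ → ℕ)
    (Pu PN : ℕ) (σ : Fin 3 → Fin 3) (y : F.Ω → Pln) (z : ℕ → F.Ω → Pln) (al nu k b : F.Ω → ℝ) :
    Prop where
  inj : Function.Injective σ
  i0 : σ 0 = i₀
  frx : FrX F B (σ 0) (σ 1) (σ 2) N w V R y z
  fre : FrE F B (σ 0) (σ 1) (σ 2) Pu PN (V 0) (R 0) y al nu k b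

/-- **(H6)** in the zone, for the integer windows between `u j` and `u (j - 1)`. -/
def H6Stmt : Prop :=
  ∀ (S : PCl 3) (a R h₁ : ℝ) (i₀ : Fin 3) (c s₂ : ℝ) (r : ℝ → ℝ) (D : Set ℝ) (σ : ℝ → Row),
    Cs S a R h₁ i₀ c s₂ r D σ → ∀ (N : ℕ) (u : ℕ → ℚ) (w₀ v₀ v g ρ e : ℝ),
    Zon σ N u w₀ v₀ v g ρ e → ∀ (j : ℕ) (x ε : ℝ), 1 ≤ j → j ≤ N → 100 * e < x →
    x + 100 * e ≤ ρ * (u 0 - u j) → (σ 1).th (u (j - 1)) + x < 1 → 0 < ε →
    Clp S (fun J F A => ∀ B : F.Ω → Prop, Sub B A → Pe F.p A ≤ 4 * Pe F.p B →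
      ∀ (Pu PN : ℕ) (τ : Fin 3 → Fin 3) (y : F.Ω → Pln) (z : ℕ → F.Ω → Pln) (al nu k b : F.Ω → ℝ),
      Fms F B i₀ N (wl u J) (vl u w₀ v₀ v e J) (rl u w₀ g ρ e J) Pu PN τ y z al nu k b →
      ∀ (Vx Hx Rx w q X : ℕ), wl u J j ≤ w → w ≤ wl u J (j - 1) →
      ∀ (V H : ℕ), V = vl u w₀ v₀ v e J j → V + H = rl u w₀ g ρ e J j →
      V + x * J ≤ Vx → H + x * J ≤ Hx → V + H + x * J ≤ Rx → V + x * J ≤ Pu →
      V + H + x * J ≤ PN → w + (V + H) + x * J ≤ J →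
      Pool.KAF.Pr (dbl (Pool.Agent.H49.Ent.cond F.p B True)
        (fun ω => (blk F τ w q V H X (fun ω => za V (z j ω)) (fun ω => zs H (z j ω))
            (fun ω => zt V H (z j ω)) ω,
          ctx F τ w q V H (fun ω => za V (z j ω)) (fun ω => zs H (z j ω))
            (fun ω => zt V H (z j ω)) ω)))
        {p | ∀ i, |SS V H (fun ω => za V (z j ω)) (fun ω => zs H (z j ω)) (fun ω => zt V H (z j ω))
              (fun ω => xs Hx (y ω)) (fun ω => xt Vx Hx Rx (al ω) (k ω) (y ω)) i p.1 -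
            SS V H (fun ω => za V (z j ω)) (fun ω => zs H (z j ω)) (fun ω => zt V H (z j ω))
              (fun ω => xs Hx (y ω)) (fun ω => xt Vx Hx Rx (al ω) (k ω) (y ω)) i p.2| <
          (2 : ℝ) ^ (-(x * J))} ≤ ε)

/-- **(H7)** in the zone: the exact direction is not a function of the window, to `x J` digits more
than those of the frame. -/
def H7Stmt : Prop :=
  ∀ (S : PCl 3) (a R h₁ : ℝ) (i₀ : Fin 3) (c s₂ : ℝ) (r : ℝ → ℝ) (D : Set ℝ) (σ : ℝ → Row),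
    Cs S a R h₁ i₀ c s₂ r D σ → ∀ (N : ℕ) (u : ℕ → ℚ) (w₀ v₀ v g ρ e : ℝ),
    Zon σ N u w₀ v₀ v g ρ e → ∀ (j : ℕ) (x ε : ℝ), 1 ≤ j → j ≤ N → 100 * e < x →
    (σ 1).rot (u (j - 1)) + x < (σ 1).pi → (σ 1).rot (u (j - 1)) + x < 1 →
    v₀ + v * (u j - w₀) + x < g - w₀ + ρ * (u j - w₀) → 0 < ε →
    Clp S (fun J F A => ∀ B : F.Ω → Prop, Sub B A → Pe F.p A ≤ 4 * Pe F.p B →
      ∀ (Pu PN : ℕ) (τ : Fin 3 → Fin 3) (y : F.Ω → Pln) (z : ℕ → F.Ω → Pln) (al nu k b : F.Ω → ℝ),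
      Fms F B i₀ N (wl u J) (vl u w₀ v₀ v e J) (rl u w₀ g ρ e J) Pu PN τ y z al nu k b →
      ∀ (Vx w q X : ℕ), wl u J j ≤ w → w ≤ wl u J (j - 1) →
      ∀ (V H : ℕ), V = vl u w₀ v₀ v e J j → V + H = rl u w₀ g ρ e J j →
      V + x * J ≤ Vx → V + x * J ≤ Pu → V + x * J ≤ PN →
      w + V + x * J ≤ J →
      Pool.KAF.Pr (dbl (Pool.Agent.H49.Ent.cond F.p B True)
        (fun ω => (blk F τ w q V H X (fun ω => za V (z j ω)) (fun ω => zs H (z j ω))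
            (fun ω => zt V H (z j ω)) ω,
          ctx F τ w q V H (fun ω => za V (z j ω)) (fun ω => zs H (z j ω))
            (fun ω => zt V H (z j ω)) ω)))
        {p | |EE V (fun ω => za V (z j ω)) (fun ω => xa Vx (al ω)) p.1 -
            EE V (fun ω => za V (z j ω)) (fun ω => xa Vx (al ω)) p.2| <
          (2 : ℝ) ^ (-(x * J))} ≤ ε)

end Pool.S6N
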