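import Pool.Agent.H97.S6.Inp
import Pool.Agent.H97.S6.Lev

/-!
# The numbers of a window of the chain

Bounds for the mesh window, the precisions and the base velocity levels, and the number of bad
tiles of a row.
-/

set_option autoImplicit false

namespace Pool.S6N

open Finset Real
open Pool.Agent.H49.Ent Pool.Agent.H32.Dense Pool.STK Pool.KA Pool.KSAT Pool.K2S Pool.PB Pool.KS6
  Pool.S6C Pool.Sel51

/-- The numbers of a window `w` of the chain: mesh window `m`, precisions `V ≤ R`, base velocity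
level `q`. -/
structure Cell (u : ℕ → ℚ) (w₀ v₀ v g ρ P : ℝ) (J X M N₁ N Wt Pt dP w m V R q : ℕ) : Prop where
  m1 : 1 ≤ m
  mN : m ≤ N
  wm : wl u J m ≤ w
  mi : ∀ i < m, w < wl u J i
  wt : w < wl u J (m - 1)
  VR : V ≤ R
  qq : q + R + w = Pt + dP
  Vu : (V : ℝ) ≤ v₀ * J + v
  Vl : v₀ * J - (v * (N₁ * M + 3) + 1) * X ≤ V
  Ru : (R : ℝ) ≤ (g - w₀) * J + ρ
  Rl : (g - w₀) * J - (ρ * (N₁ * M + 3) + 1) * X ≤ R
  Hu : (R : ℝ) ≤ V + (g - w₀ - v₀) * J + ρ + 1
  Hl : V + (g - w₀ - v₀) * J - (ρ * (N₁ * M + 3) + 1) * X - v ≤ R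
  wu : (w : ℝ) ≤ w₀ * J
  wb : w₀ * J - (N₁ * M + 2) * X ≤ w
  uu : (u m : ℝ) * J ≤ w₀ * J + 1
  ub : w₀ * J - (N₁ * M + 3) * X ≤ u m * J
  Rw : (R : ℝ) + w ≤ g * J + ρ
  ql : (P - g) * J - 1 - ρ ≤ q
  qu : (q : ℝ) ≤ (P - g) * J + ((1 + ρ) * (N₁ * M + 2) + 3) * X + dP

section arc

variable {σ : ℝ → Row} {N : ℕ} {u : ℕ → ℚ} {w₀ v₀ v g ρ P ε l CZ : ℝ}
  {J X M N₁ N₂ Wt Pt : ℕ}

theorem Arc.cell (h : Arc σ N u w₀ v₀ v g ρ P ε l CZ J X M N₁ N₂ Wt Pt) {dw dP j w : ℕ}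
    (hdw : dw < X) (hj : j ≤ N₁) (hw : w = Wt - dw - j * (M * X)) :
    Cell u w₀ v₀ v g ρ P J X M N₁ N Wt Pt dP w (mix u J w) (vl u w₀ v₀ v (ε * l) J (mix u J w))
      (rl u w₀ g ρ (ε * l) J (mix u J w))
      (Pt + dP - rl u w₀ g ρ (ε * l) J (mix u J w) - w) := by
  obtain ⟨a1, a2, a3, a4, a5, a6, a7, a8, a9, a10, a11, a12⟩ := h.basic
  obtain ⟨b1, b2, b3⟩ := h.win hdw hj
  obtain ⟨p1, p2, p3, p4, p5, p6, p7, p8, p9, p10, p11, p12⟩ := h.lev dP hdw hj hw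
  obtain ⟨m1, m2, m3, m4, m5⟩ := mix_spec p1 p2
  rw [← hw] at b2
  have hv := h.zon.v0
  have hvρ := h.vρ
  have hX5 := h.X5
  have hdP0 : (0 : ℝ) ≤ dP := Nat.cast_nonneg _
  have hdw0 : (0 : ℝ) ≤ dw := Nat.cast_nonneg _
  have hMX : (0 : ℝ) ≤ j * (M * X) := by positivity
  have hNM : (0 : ℝ) ≤ N₁ * M := by positivity
  have hX0 : (0 : ℝ) ≤ X := Nat.cast_nonneg _
  have c0 : (w : ℝ) ≤ w₀ * J := by linarith only [a9, b2, hMX]
  have c1 : w₀ * J - (N₁ * M + 2) * X ≤ w := by linarith only [b2, b3]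
  -- the mesh window from below
  have d0 : (0 : ℝ) ≤ w + 1 - u (mix u J w) * J := by linarith only [p11]
  have d1 : ∀ x : ℝ, 0 ≤ x → x ≤ 1 + v + ρ →
      x * ((w : ℝ) + 1 - u (mix u J w) * J) ≤ ε * l * J := fun x _ hx =>
    (mul_le_mul_of_nonneg_right hx d0).trans p12
  have d2 := d1 1 zero_le_one (by linarith only [hv, hvρ])
  have c2 : w₀ * J - (N₁ * M + 3) * X ≤ u (mix u J w) * J := by
    have e1 : ((N₁ : ℝ) * M + 3) * X = (N₁ * M + 2) * X + X := by ring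
    rw [e1]
    linarith only [a7, b2, b3, hv, hvρ, hX5, d2]
  have hvl : ∀ x : ℝ, 0 ≤ x → x * (u (mix u J w) * J - w₀ * J) ≤ x := by
    intro x hx
    calc _ ≤ x * 1 := mul_le_mul_of_nonneg_left (by linarith only [a9, b2, p11, hMX]) hx
      _ = x := mul_one x
  have hvg : ∀ x : ℝ, 0 ≤ x → -(x * ((N₁ * M + 3) * X)) ≤ x * (u (mix u J w) * J - w₀ * J) := by
    intro x hx
    have : x * (-((N₁ * M + 3) * X)) ≤ x * (u (mix u J w) * J - w₀ * J) :=
      mul_le_mul_of_nonneg_left (by linarith only [a7, b2, b3, hv, hvρ, hX5, d2]) hx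
    linarith only [this]
  have eV : (v₀ + v * (u (mix u J w) - w₀) - 10 * (ε * l)) * J =
      v₀ * J + v * (u (mix u J w) * J - w₀ * J) - 10 * (ε * l * J) := by ring
  have eR : (g - w₀ + ρ * (u (mix u J w) - w₀) - 20 * (ε * l)) * J =
      (g - w₀) * J + ρ * (u (mix u J w) * J - w₀ * J) - 20 * (ε * l * J) := by ring
  have hel : 0 ≤ ε * l * J := mul_nonneg (mul_nonneg h.ε0.le h.l0.le) a6
  have f1 : v₀ * J + v * (u (mix u J w) * J - w₀ * J) - 10 * (ε * l * J) - 1 ≤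
      (vl u w₀ v₀ v (ε * l) J (mix u J w) : ℝ) := by
    rw [← eV]
    have := Nat.lt_floor_add_one ((v₀ + v * (u (mix u J w) - w₀) - 10 * (ε * l)) * (J : ℝ))
    show _ ≤ ((⌊_⌋₊ : ℕ) : ℝ)
    linarith only [this]
  have f2 : (g - w₀) * J + ρ * (u (mix u J w) * J - w₀ * J) - 20 * (ε * l * J) - 1 ≤
      (rl u w₀ g ρ (ε * l) J (mix u J w) : ℝ) := by
    rw [← eR]
    have := Nat.lt_floor_add_one ((g - w₀ + ρ * (u (mix u J w) - w₀) - 20 * (ε * l)) * (J : ℝ))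
    show _ ≤ ((⌊_⌋₊ : ℕ) : ℝ)
    linarith only [this]
  have f3 : (rl u w₀ g ρ (ε * l) J (mix u J w) : ℝ) ≤
      (g - w₀) * J + ρ * (u (mix u J w) * J - w₀ * J) - 20 * (ε * l * J) := by
    rw [← eR]
    exact Nat.floor_le p10
  have g1 := hvl (ρ - v) (by linarith only [hvρ])
  have g2 := hvg ρ a4
  have g3 := hvg v hv
  have g4 : (ρ - v) * (u (mix u J w) * J - w₀ * J) = ρ * (u (mix u J w) * J - w₀ * J) -
    v * (u (mix u J w) * J - w₀ * J) := by ring
  have i1 : (v * (N₁ * M + 3) + 1) * X = v * ((N₁ * M + 3) * X) + X := by ring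
  have i2 : (ρ * (N₁ * M + 3) + 1) * X = ρ * ((N₁ * M + 3) * X) + X := by ring
  have i3 : (g - w₀ - v₀) * J = (g - w₀) * J - v₀ * J := by ring
  have i4 : (P - g) * J = P * J - g * J := by ring
  have hq : ((Pt + dP - rl u w₀ g ρ (ε * l) J (mix u J w) - w : ℕ) : ℝ) =
      Pt + dP - rl u w₀ g ρ (ε * l) J (mix u J w) - w := by
    rw [Nat.sub_sub, Nat.cast_sub p4]
    push_cast
    ring
  exact {
    m1 := m1
    mN := m2
    wm := m3
    mi := m4
    wt := m5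
    VR := vl_le_rl h.zon J m2
    qq := by omega
    Vu := p8
    Vl := by rw [i1]; linarith only [a7, hv, hvρ, hX5, f1, g3]
    Ru := p7
    Rl := by rw [i2]; linarith only [a7, hv, hvρ, hX5, f2, g2]
    Hu := by rw [i3]; linarith only [p11, hv, d2, f1, f3, g1]
    Hl := by rw [i3, i2]; linarith only [a7, p8, hv, hvρ, hX5, f2, g2]
    wu := c0
    wb := c1
    uu := p9
    ub := c2
    Rw := p5
    ql := by rw [hq, i4]; linarith only [a12, p5]
    qu := by rw [hq, i4]; linarith only [a11, p6] }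

end arc

open Classical in
/-- **The bad tiles of a row.** -/
theorem bad_tiles {N₁ N₂ X Y n L : ℕ} {Bad : Finset (ℕ × ℕ)} {pl : ℕ × ℕ × ℕ → ℕ × ℕ}
    {lm θ a b : ℝ} (hX : 0 < X) (hY : 0 < Y)
    (h1 : (X * (Y * X)) *
        ((range N₁ ×ˢ range N₂ ×ˢ range (X / n)).filter fun i => pl i ∈ Bad).card ≤
      (N₁ * (N₂ * (X / n))) * Bad.card)
    (hB : (Bad.card : ℝ) ≤ θ * a * b) (hθ : 0 ≤ θ) (ha0 : 0 ≤ a) (hb0 : 0 ≤ b) {C C' : ℝ}
    (ha : a ≤ C * X) (hb : b ≤ C' * (Y * X))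
    (hN : N₁ * N₂ * θ * (C * C') ≤ lm / 2) (hL : (L : ℝ) ≤ lm / 4 * X)
    (hnX : (n : ℝ) ≤ lm / 4 * X) {j k : ℕ} (hj : j < N₁) (hk : k < N₂) :
    ((range (L / n + 1) ∪ (range (X / n)).filter fun r => pl (j, k, r) ∈ Bad).card : ℝ) * n ≤
      lm * X := by
  have hX' : (0 : ℝ) < X := by exact_mod_cast hX
  have hY' : (0 : ℝ) < Y := by exact_mod_cast hY
  have c1 : ((range (X / n)).filter fun r => pl (j, k, r) ∈ Bad).card ≤
      ((range N₁ ×ˢ range N₂ ×ˢ range (X / n)).filter fun i => pl i ∈ Bad).card := by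
    refine Finset.card_le_card_of_injOn (fun r => (j, k, r)) ?_ ?_
    · intro r hr
      have hr' := Finset.mem_filter.mp hr
      refine Finset.mem_coe.mpr (Finset.mem_filter.mpr ⟨?_, hr'.2⟩)
      simp only [Finset.mem_product, Finset.mem_range]
      exact ⟨hj, hk, Finset.mem_range.mp hr'.1⟩
    · intro r _ r' _ h
      simp only [Prod.mk.injEq, true_and] at h
      exact h
  have c2 : (X * (Y * X)) * ((range (X / n)).filter fun r => pl (j, k, r) ∈ Bad).card * n ≤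
      N₁ * N₂ * X * Bad.card := by
    have e1 : X / n * n ≤ X := Nat.div_mul_le_self X n
    calc _ ≤ (N₁ * (N₂ * (X / n))) * Bad.card * n :=
          Nat.mul_le_mul_right _ ((Nat.mul_le_mul_left _ c1).trans h1)
      _ = N₁ * N₂ * (X / n * n) * Bad.card := by ring
      _ ≤ N₁ * N₂ * X * Bad.card :=
          Nat.mul_le_mul_right _ (Nat.mul_le_mul_left _ e1)
  have c3 : (((range (X / n)).filter fun r => pl (j, k, r) ∈ Bad).card : ℝ) * n ≤
      lm / 2 * X := by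
    have e1 : ((X : ℝ) * (Y * X)) *
        ((range (X / n)).filter fun r => pl (j, k, r) ∈ Bad).card * n ≤
        N₁ * N₂ * X * Bad.card := by exact_mod_cast c2
    have e2 : (Bad.card : ℝ) ≤ θ * (C * X) * (C' * (Y * X)) := by
      refine hB.trans ?_
      have hC0 : 0 ≤ C * X := ha0.trans ha
      calc θ * a * b ≤ θ * (C * X) * b :=
            mul_le_mul_of_nonneg_right (mul_le_mul_of_nonneg_left ha hθ) hb0
        _ ≤ θ * (C * X) * (C' * (Y * X)) := mul_le_mul_of_nonneg_left hb (mul_nonneg hθ hC0)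
    have e3 : N₁ * N₂ * X * (Bad.card : ℝ) ≤ (X * (Y * X)) * (lm / 2 * X) := by
      calc _ ≤ (N₁ * N₂ * X : ℝ) * (θ * (C * X) * (C' * (Y * X))) :=
            mul_le_mul_of_nonneg_left e2 (by positivity)
        _ = (N₁ * N₂ * θ * (C * C')) * (X * (Y * X) * X) := by ring
        _ ≤ (lm / 2) * (X * (Y * X) * X) := mul_le_mul_of_nonneg_right hN (by positivity)
        _ = _ := by ring
    have e4 : ((X : ℝ) * (Y * X)) *
        ((((range (X / n)).filter fun r => pl (j, k, r) ∈ Bad).card : ℝ) * n) ≤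
        (X * (Y * X)) * (lm / 2 * X) := by
      rw [← mul_assoc]
      exact e1.trans e3
    exact le_of_mul_le_mul_left e4 (by positivity)
  have c4 : ((range (L / n + 1) ∪ (range (X / n)).filter fun r => pl (j, k, r) ∈ Bad).card : ℝ) ≤
      ((L / n + 1 : ℕ) : ℝ) + (((range (X / n)).filter fun r => pl (j, k, r) ∈ Bad).card : ℝ) := by
    have := Finset.card_union_le (range (L / n + 1))
      ((range (X / n)).filter fun r => pl (j, k, r) ∈ Bad)
    rw [Finset.card_range] at this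
    exact_mod_cast this
  have c5 : ((L / n + 1 : ℕ) : ℝ) * n ≤ lm / 2 * X := by
    have e1 : L / n * n ≤ L := Nat.div_mul_le_self L n
    have e2 : ((L / n : ℕ) : ℝ) * n ≤ L := by exact_mod_cast e1
    rw [Nat.cast_add, Nat.cast_one, add_mul, one_mul]
    linarith only [hL, hnX, e2]
  have hn' : (0 : ℝ) ≤ n := Nat.cast_nonneg n
  have c6 := mul_le_mul_of_nonneg_right c4 hn'
  rw [add_mul] at c6
  linarith only [c3, c5, c6]

section fam3

variable {J : ℕ} {F : Fam 3 J} {B : F.Ω → Prop} {i₀ iu iN : Fin 3} {N : ℕ} {w V R : ℕ → ℕ}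
  {y : F.Ω → Pln} {z : ℕ → F.Ω → Pln}

/-- A window determines the larger windows. -/
theorem slam_le {w w' : ℕ} (h : w ≤ w') {ω ω' : F.Ω}
    (hs : slam F w' ω = slam F w' ω') (hJ : w' ≤ J) : slam F w ω = slam F w ω' := by
  have h1 := Prod.ext_iff.mp hs
  have h2 := Prod.ext_iff.mp h1.2
  have h3 : F.l ω = F.l ω' := h1.1
  have h4 : F.Z ω = F.Z ω' := h2.1
  have h5 : F.T1 w' ω = F.T1 w' ω' := h2.2
  have key : ∀ ω : F.Ω, F.T1 w ω = F.T1 w' ω / 2 ^ (w' - w) := by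
    intro ω
    unfold Fam.T1
    rw [Nat.div_div_eq_div_mul, ← pow_add]
    congr 2
    omega
  unfold slam
  rw [h3, h4, key, key, h5]

theorem Frg.lift {A : F.Ω → Prop} {w w' V H : ℕ} {D : ℝ} {a s t a' s' t' : F.Ω → ℝ}
    (h : Frg F A w V H D a s t a' s' t') (hw : w ≤ w') (hJ : w' ≤ J) :
    Frg F A w' V H D a s t a' s' t' :=
  ⟨fun ω ω' hs => h.fn ω ω' (slam_le hw hs hJ), h.ga, h.gs, h.gt, h.ca, h.cs, h.ct⟩

/-- The frames are bounded. -/
theorem fr_bd (hX : FrX F B i₀ iu iN N w V R y z) {j : ℕ} (hj : j ≤ N) (Vj Hj : ℕ)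
    (σ : Fin 3 → Fin 3) {ω : F.Ω} (hω : B ω) (i l : Fin 3) :
    |fr σ (fun ω => za Vj (z j ω)) (fun ω => zs Hj (z j ω)) (fun ω => zt Vj Hj (z j ω)) ω i l| ≤
      64 := by
  obtain ⟨h1, h2, h3⟩ := hX.zb j hj ω hω
  have one : ∀ n : ℕ, (1 : ℝ) / 2 ^ n ≤ 1 := fun n => by
    rw [div_le_one (by positivity)]
    exact one_le_pow₀ (by norm_num)
  have a1 : |za Vj (z j ω)| ≤ 21 := by
    have b1 := (rd_near Vj (z j ω).e).trans (one Vj)
    unfold za
    rw [abs_le] at b1 h1 ⊢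
    constructor <;> linarith only [h1, b1, b1.1, b1.2, h1.1, h1.2]
  have a2' : |-(z j ω).s - zs Hj (z j ω)| ≤ 1 := by
    rw [abs_sub_comm]
    exact (rd_near Hj (-(z j ω).s)).trans (one Hj)
  have a2 : |zs Hj (z j ω)| ≤ 21 := by
    rw [abs_le] at a2' h3 ⊢
    constructor <;> linarith [a2'.1, a2'.2, h3.1, h3.2]
  have a3 : |zt Vj Hj (z j ω)| ≤ 42 := by
    have b1 := (rd_near (Vj + Hj) (-(z j ω).c + (-(z j ω).s - zs Hj (z j ω)) *
      za Vj (z j ω))).trans (one _)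
    have b2 : |(-(z j ω).s - zs Hj (z j ω)) * za Vj (z j ω)| ≤ 21 := by
      rw [abs_mul]
      calc _ ≤ 1 * 21 := mul_le_mul a2' a1 (abs_nonneg _) (by norm_num)
        _ = 21 := by norm_num
    unfold zt
    rw [abs_le] at b1 b2 h2 ⊢
    constructor <;> linarith only [h2, b1, b2, b1.1, b1.2, b2.1, b2.2, h2.1, h2.2]
  have b0 : ∀ (P : Prop) [Decidable P] (x : ℝ), |x * (if P then (1 : ℝ) else 0)| ≤ |x| := by
    intro P _ x
    split_ifs
    · rw [mul_one]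
    · rw [mul_zero, abs_zero]
      exact abs_nonneg x
  have b1 : ∀ (P : Prop) [Decidable P], |(if P then (1 : ℝ) else 0)| ≤ 1 := by
    intro P _
    split_ifs <;> simp
  unfold fr
  fin_cases i
  · show |(if l = σ 0 then (1 : ℝ) else 0)| ≤ 64
    exact (b1 _).trans (by norm_num)
  · show |(if l = σ 1 then (1 : ℝ) else 0) - za Vj (z j ω) * (if l = σ 0 then 1 else 0)| ≤ 64
    refine (abs_sub _ _).trans ?_
    have c1 := b1 (l = σ 1)
    have c2 := b0 (l = σ 0) (za Vj (z j ω))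
    linarith only [a1, c1, c2]
  · show |(if l = σ 2 then (1 : ℝ) else 0) - zs Hj (z j ω) * (if l = σ 1 then 1 else 0) -
      zt Vj Hj (z j ω) * (if l = σ 0 then 1 else 0)| ≤ 64
    refine (abs_sub _ _).trans ((add_le_add (abs_sub _ _) le_rfl).trans ?_)
    have c1 := b1 (l = σ 2)
    have c2 := b0 (l = σ 1) (zs Hj (z j ω))
    have c3 := b0 (l = σ 0) (zt Vj Hj (z j ω))
    linarith only [a2, a3, c1, c2, c3]

/-- The tube which is finer by `r` digits, from the box at the velocity level `q + r` with lag. -/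
theorem h3_conv {A : F.Ω → Prop} {σ : Fin 3 → Fin 3} {w q V H r n L : ℕ}
    {a s t a' s' t' : F.Ω → ℝ} (hQ : IsLaw (Pool.Agent.H49.Ent.cond F.p A True)) (hL : L ≤ r) :
    CH (Pool.Agent.H49.Ent.cond F.p A True) (pd2 F σ w (q + r) V n a s t)
        (fun ω => (ctx F σ w (q + r) V (H - L) a s t ω, gt F a' s' t' ω)) ≤
      CH (Pool.Agent.H49.Ent.cond F.p A True) (pd2 F σ w q V (r + n) a s t)
        (fun ω => (ctl F σ w q V H r a s t ω, gt F a' s' t' ω)) := by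
  have h0 := hQ.nonneg
  have e1 : pd2 F σ w (q + r) V n a s t = pd2 F σ w q V (r + n) a s t := by
    funext ω
    unfold pd2
    rw [show q + r + w + n = q + w + (r + n) by omega,
      show q + r + V + w + n = q + V + w + (r + n) by omega]
  rw [e1]
  refine CH_mono_cond h0 ?_
  intro ω ω' _ _ h
  obtain ⟨h1, h2⟩ := Prod.ext_iff.mp h
  refine Prod.ext ?_ h2
  have le : ∀ i, cl q V H r i ≤ cv (q + r) V (H - L) i := by
    intro i
    fin_cases i
    · exact le_rfl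
    · exact le_rfl
    · show q + (V + H) ≤ q + r + (V + (H - L))
      omega
  exact mlb_coarse F (fun i => Nat.add_le_add_right (le i) w) le h1

end fam3

end Pool.S6N
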