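import Pool.Agent.H51.S6.Loc
import Pool.Agent.H9.S6.H7R

/-!
# Frames at finitely many windows, and one exact plank

`y` is an exact plank at the window `u 0`, `z j` are the planks at the windows `u j`, all in one
normal form. The frame of `y` agrees with the frames of the `z j` up to the units of the natural
boxes at the windows `u j`.
-/

set_option autoImplicit false

namespace Pool.S6N

open Finset Real
open Pool.Agent.H49.Ent Pool.Agent.H32.Dense Pool.STK Pool.KA Pool.KSAT Pool.K2S Pool.PB Pool.KS6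
  Pool.S6C

/-- The exact plank and the frames. -/
structure FrX {J : ℕ} (F : Fam 3 J) (B : F.Ω → Prop) (i₀ iu iN : Fin 3) (N : ℕ) (w V R : ℕ → ℕ)
    (y : F.Ω → Pln) (z : ℕ → F.Ω → Pln) : Prop where
  hi : ∀ j : Fin 3, j = i₀ ∨ j = iu ∨ j = iN
  /-- the exact plank at the window `w 0` -/
  inc : ∀ ω, B ω → Inc i₀ iu iN (w 0) (V 0) (w 0 + R 0) 2 (y ω) (F.t ω) (F.x ω) (F.d ω)
  yp : ∃ φ : (Fin 3 → ℤ) × (ℕ × F.ζ) → Pln, ∀ ω, B ω → y ω = φ (ptq F J ω)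
  ys : ∃ ψ : ((Fin 3 → ℝ) × (Fin 3 → ℝ)) × F.ζ × ℕ → Pln, ∀ ω, B ω → y ω = ψ (slam F (w 0) ω)
  /-- the frames at the windows `w j` -/
  zs : ∀ j ≤ N, ∃ χ : ((Fin 3 → ℝ) × (Fin 3 → ℝ)) × F.ζ × ℕ → Pln,
    ∀ ω, z j ω = χ (slam F (w j) ω)
  zb : ∀ j ≤ N, ∀ ω, B ω → |(z j ω).e| ≤ 20 ∧ |(z j ω).c| ≤ 20 ∧ |(z j ω).s| ≤ 20
  nr : ∀ j ≤ N, ∀ ω, B ω → Nfr (V j) (R j - V j) (R j) 8 (y ω) (z j ω)

/-- **(FRX)** Near a window at which the numbers `rot` and `th` are affine up to `e`, frames exist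
with precisions which are affine up to `20 e`. -/
def FRXStmt : Prop :=
  ∀ (S : PCl 3) (a R h₁ : ℝ) (i₀ : Fin 3) (c s₂ : ℝ) (r : ℝ → ℝ) (D : Set ℝ) (σ : ℝ → Row),
    Cs S a R h₁ i₀ c s₂ r D σ → ∀ (N : ℕ) (u : ℕ → ℚ) (w₀ v₀ v g ρ e : ℝ), 0 ≤ v → v ≤ ρ → 0 < e →
    (∀ j < N, u (j + 1) < u j) → 0 < u N → u 0 < 1 →
    (∀ q : ℚ, u N ≤ q → q ≤ u 0 → |(σ 1).rot q - v₀ - v * (q - w₀)| ≤ e ∧
      |(σ 1).th q - g - (1 + ρ) * (q - w₀)| ≤ e ∧ (σ 1).rot q + 20 * e < (σ 1).pi ∧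
      (σ 1).th q < 1 ∧ v₀ + v * (q - w₀) + 40 * e < g - w₀ + ρ * (q - w₀)) →
    Clp S (fun J F A => ∃ B : F.Ω → Prop, Sub B A ∧ Pe F.p A ≤ 2 * Pe F.p B ∧
      ∃ (iu iN : Fin 3) (y : F.Ω → Pln) (z : ℕ → F.Ω → Pln),
      FrX F B i₀ iu iN N (fun j => ⌊(u j : ℝ) * J⌋₊)
        (fun j => ⌊(v₀ + v * (u j - w₀) - 10 * e) * J⌋₊)
        (fun j => ⌊(g - w₀ + ρ * (u j - w₀) - 20 * e) * J⌋₊) y z)

end Pool.S6N
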