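import Pool.Agent.H97.S6.Cell

/-!
# Sizes

The precisions of the exact frame, and the inequalities between the numbers of a window of the
chain and the sizes of the exact frame.
-/

set_option autoImplicit false

namespace Pool.S6N

open Finset Real
open Pool.Agent.H49.Ent Pool.Agent.H32.Dense Pool.STK Pool.KA Pool.KSAT Pool.K2S Pool.PB Pool.KS6
  Pool.S6C Pool.Sel51

/-- **Sizes.** `Vx`, `Hx`, `Rx` are the precisions of the exact frame. -/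
structure Szs (w₀ v₀ v g ρ P l x₀ C₂ : ℝ) (J X M N₁ N₂ E₁ Y Vx Hx Rx Pu PN : ℕ) : Prop where
  v0 : 0 ≤ v
  vρ : v ≤ ρ
  vp : 0 ≤ v₀
  gap : 0 ≤ g - w₀ - v₀
  Pg : 0 ≤ P - g
  lJ : (X : ℝ) ≤ l * J
  lJ' : l * J < X + 1
  X5 : 100 * (1 + ρ) ≤ X
  x0 : 0 < x₀
  E : x₀ + 2 * ρ + 5 ≤ E₁
  Yl : (1 + ρ) * (N₁ * M + 2) + N₂ + 10 ≤ Y
  C : (E₁ : ℝ) + 2 * Y + 10 ≤ C₂
  g1 : g * J + (x₀ + 1) * X ≤ J
  hV : Vx = ⌊v₀ * J⌋₊ + E₁ * X
  hH : Hx = ⌊(g - w₀ - v₀) * J⌋₊ + E₁ * X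
  hR : Rx = ⌊(g - w₀) * J⌋₊ + E₁ * X
  hu : Pu = ⌊(P - g + v₀ + C₂ * l) * J⌋₊
  hN : PN = ⌊(P - w₀ + C₂ * l) * J⌋₊

section szs

variable {w₀ v₀ v g ρ P l x₀ C₂ : ℝ} {J X M N₁ N₂ E₁ Y Vx Hx Rx Pu PN : ℕ}

theorem Szs.basic (h : Szs w₀ v₀ v g ρ P l x₀ C₂ J X M N₁ N₂ E₁ Y Vx Hx Rx Pu PN) :
    v₀ * J - 1 + E₁ * X ≤ Vx ∧ (Vx : ℝ) ≤ v₀ * J + E₁ * X ∧
    (g - w₀ - v₀) * J - 1 + E₁ * X ≤ Hx ∧ (Hx : ℝ) ≤ (g - w₀ - v₀) * J + E₁ * X ∧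
    (g - w₀) * J - 1 + E₁ * X ≤ Rx ∧ (Rx : ℝ) ≤ (g - w₀) * J + E₁ * X ∧
    (P - g) * J + v₀ * J + C₂ * X - 1 ≤ Pu ∧ (P - w₀) * J + C₂ * X - 1 ≤ PN ∧
    x₀ * l / 2 * J ≤ x₀ * X ∧ 100 ≤ (X : ℝ) ∧ 0 ≤ (P - g) * J ∧ 0 ≤ v₀ * J ∧
    0 ≤ (g - w₀ - v₀) * J := by
  have hJ : (0 : ℝ) ≤ J := Nat.cast_nonneg J
  have a1 := h.v0
  have a2 := h.vρ
  have a3 := h.X5
  have a4 := mul_nonneg h.vp hJ
  have a5 := mul_nonneg h.gap hJ
  have a6 := mul_nonneg h.Pg hJ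
  have a7 : (g - w₀) * J = (g - w₀ - v₀) * J + v₀ * J := by ring
  have hC0 : 0 ≤ C₂ := by
    refine le_trans ?_ h.C
    positivity
  have a8 : C₂ * X ≤ C₂ * (l * J) := mul_le_mul_of_nonneg_left h.lJ hC0
  have b1 := Nat.floor_le a4
  have b2 := Nat.lt_floor_add_one (v₀ * J)
  have b3 := Nat.floor_le a5
  have b4 := Nat.lt_floor_add_one ((g - w₀ - v₀) * J)
  have b5 : ((⌊(g - w₀) * J⌋₊ : ℕ) : ℝ) ≤ (g - w₀) * J := Nat.floor_le (by linarith)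
  have b6 := Nat.lt_floor_add_one ((g - w₀) * J)
  have b7 := Nat.lt_floor_add_one ((P - g + v₀ + C₂ * l) * J)
  have b8 := Nat.lt_floor_add_one ((P - w₀ + C₂ * l) * J)
  rw [← h.hu] at b7
  rw [← h.hN] at b8
  have c1 : (P - g + v₀ + C₂ * l) * J = (P - g) * J + v₀ * J + C₂ * (l * J) := by ring
  have c2 : (P - w₀ + C₂ * l) * J = (P - w₀) * J + C₂ * (l * J) := by ring
  have eV : (Vx : ℝ) = (⌊v₀ * J⌋₊ : ℕ) + E₁ * X := by rw [h.hV]; push_cast; ring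
  have eH : (Hx : ℝ) = (⌊(g - w₀ - v₀) * J⌋₊ : ℕ) + E₁ * X := by rw [h.hH]; push_cast; ring
  have eR : (Rx : ℝ) = (⌊(g - w₀) * J⌋₊ : ℕ) + E₁ * X := by rw [h.hR]; push_cast; ring
  have d1 : x₀ * l / 2 * J ≤ x₀ * X := by
    have e1 : x₀ * l / 2 * J = x₀ * (l * J / 2) := by ring
    rw [e1]
    refine mul_le_mul_of_nonneg_left ?_ h.x0.le
    have := h.lJ'
    linarith
  refine ⟨?_, ?_, ?_, ?_, ?_, ?_, ?_, ?_, d1, by linarith, a6, a4, a5⟩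
  · rw [eV]; linarith
  · rw [eV]; linarith
  · rw [eH]; linarith
  · rw [eH]; linarith
  · rw [eR]; linarith
  · rw [eR]; linarith
  · linarith
  · linarith

variable {u : ℕ → ℚ} {N Wt Pt dP w m V R q : ℕ}

/-- The precisions of the exact frame are larger than those of the window. -/
theorem Szs.prec (h : Szs w₀ v₀ v g ρ P l x₀ C₂ J X M N₁ N₂ E₁ Y Vx Hx Rx Pu PN)
    (hc : Cell u w₀ v₀ v g ρ P J X M N₁ N Wt Pt dP w m V R q) :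
    (V : ℝ) + x₀ * X ≤ Vx ∧ (R : ℝ) - V + x₀ * X ≤ Hx ∧ (R : ℝ) + x₀ * X ≤ Rx ∧
      (V : ℝ) + X ≤ Vx ∧ (R : ℝ) - V + X ≤ Hx ∧ (R : ℝ) + X ≤ Rx ∧
      (V : ℝ) + x₀ * X ≤ Pu ∧ (V : ℝ) + x₀ * X ≤ PN ∧ (R : ℝ) + x₀ * X ≤ PN ∧
      (w : ℝ) + R + x₀ * X ≤ J := by
  obtain ⟨a1, a2, a3, a4, a5, a6, a7, a8, a9, a10, a11, a12, a13⟩ := h.basic
  have hv := h.v0
  have hvρ := h.vρ
  have hX5 := h.X5
  have hX0 : (0 : ℝ) ≤ X := Nat.cast_nonneg _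
  have b1 : (x₀ + 2 * ρ + 5) * X ≤ E₁ * X := mul_le_mul_of_nonneg_right h.E hX0
  have b2 : (x₀ + 2 * ρ + 5) * X = x₀ * X + 2 * (ρ * X) + 5 * X := by ring
  have hρ : 0 ≤ ρ := hv.trans hvρ
  have b3 : 0 ≤ ρ * X := mul_nonneg hρ hX0
  have b4 : 0 ≤ x₀ * X := mul_nonneg h.x0.le hX0
  have b5 : ((E₁ : ℝ) + 2 * Y + 10) * X ≤ C₂ * X := mul_le_mul_of_nonneg_right h.C hX0
  have b6 : ((E₁ : ℝ) + 2 * Y + 10) * X = E₁ * X + 2 * (Y * X) + 10 * X := by ring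
  have b7 : (0 : ℝ) ≤ Y * X := by positivity
  have c1 := hc.Vu
  have c2 := hc.Ru
  have c3 := hc.Hu
  have c4 := hc.Rw
  have c5 := h.g1
  have c6 : (x₀ + 1) * X = x₀ * X + X := by ring
  have c7 : (g - w₀) * J = (g - w₀ - v₀) * J + v₀ * J := by ring
  have c8 : (P - w₀) * J = (P - g) * J + (g - w₀) * J := by ring
  refine ⟨?_, ?_, ?_, ?_, ?_, ?_, ?_, ?_, ?_, ?_⟩ <;> linarith

/-- The base velocity levels. -/
theorem Szs.vel (h : Szs w₀ v₀ v g ρ P l x₀ C₂ J X M N₁ N₂ E₁ Y Vx Hx Rx Pu PN)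
    (hc : Cell u w₀ v₀ v g ρ P J X M N₁ N Wt Pt dP w m V R q) (hPt : Pt = ⌊P * J⌋₊)
    (hP0 : 0 ≤ P * J) (hdP : dP < Y * X) {k y : ℕ} (hk : k < N₂) (hy : y ≤ X) :
    (q : ℝ) + k * X + V + X ≤ Pu ∧ (q : ℝ) + k * X + R + X ≤ PN ∧
      (P - g) * J - X ≤ (q : ℝ) + k * X + y ∧
      (q : ℝ) + k * X + y + 1 ≤ (P - g) * J + (2 * Y - 1) * X ∧
      |((q + k * X + R + w : ℕ) : ℝ) - P * J| ≤ 2 * Y * X := by
  obtain ⟨a1, a2, a3, a4, a5, a6, a7, a8, a9, a10, a11, a12, a13⟩ := h.basic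
  have hv := h.v0
  have hvρ := h.vρ
  have hX5 := h.X5
  have hX0 : (0 : ℝ) ≤ X := Nat.cast_nonneg _
  have hρ : 0 ≤ ρ := hv.trans hvρ
  have hk' : (k : ℝ) * X ≤ (N₂ - 1) * X := by
    refine mul_le_mul_of_nonneg_right ?_ hX0
    have : ((k + 1 : ℕ) : ℝ) ≤ N₂ := by exact_mod_cast hk
    push_cast at this
    linarith
  have hk0 : (0 : ℝ) ≤ k * X := by positivity
  have hy' : (y : ℝ) ≤ X := by exact_mod_cast hy
  have hy0 : (0 : ℝ) ≤ y := Nat.cast_nonneg _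
  have hd : (dP : ℝ) + 1 ≤ Y * X := by
    have : dP + 1 ≤ Y * X := hdP
    exact_mod_cast this
  have hd0 : (0 : ℝ) ≤ dP := Nat.cast_nonneg _
  have b3 : 0 ≤ ρ * X := mul_nonneg hρ hX0
  have b5 : ((E₁ : ℝ) + 2 * Y + 10) * X ≤ C₂ * X := mul_le_mul_of_nonneg_right h.C hX0
  have b6 : ((E₁ : ℝ) + 2 * Y + 10) * X = E₁ * X + 2 * (Y * X) + 10 * X := by ring
  have b7 : (0 : ℝ) ≤ Y * X := by positivity
  have b8 : (0 : ℝ) ≤ E₁ * X := by positivity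
  have b9 : ((1 + ρ) * (N₁ * M + 2) + N₂ + 10) * X ≤ Y * X := mul_le_mul_of_nonneg_right h.Yl hX0
  have b10 : ((1 + ρ) * (N₁ * M + 2) + N₂ + 10) * X =
    ((1 + ρ) * (N₁ * M + 2) + 3) * X + N₂ * X + 7 * X := by ring
  have b11 : ((N₂ : ℝ) - 1) * X = N₂ * X - X := by ring
  have b12 : (0 : ℝ) ≤ N₂ * X := by positivity
  have b13 : (0 : ℝ) ≤ ((1 + ρ) * (N₁ * M + 2) + 3) * X := by positivity
  have b14 : ((N₁ : ℝ) * M + 2) * X ≤ ((1 + ρ) * (N₁ * M + 2) + 3) * X := by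
    refine mul_le_mul_of_nonneg_right ?_ hX0
    have : (0 : ℝ) ≤ ρ * (N₁ * M + 2) := by positivity
    linarith
  have c1 := hc.Vu
  have c5 := hc.ql
  have c6 := hc.qu
  have c7 := hc.wb
  have c8 : ((q : ℝ) + R + w) = Pt + dP := by exact_mod_cast hc.qq
  have c9 := Nat.floor_le hP0
  have c10 := Nat.lt_floor_add_one (P * J)
  rw [← hPt] at c9 c10
  have c11 : (P - w₀) * J = P * J - w₀ * J := by ring
  have c12 : (2 * (Y : ℝ) - 1) * X = 2 * (Y * X) - X := by ring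
  have c13 : 2 * (Y : ℝ) * X = 2 * (Y * X) := by ring
  refine ⟨by linarith, by linarith, by linarith, by rw [c12]; linarith, ?_⟩
  rw [c13]
  push_cast
  rw [abs_le]
  constructor <;> linarith

/-- The number of digits of the exact frame. -/
theorem Szs.dig (h : Szs w₀ v₀ v g ρ P l x₀ C₂ J X M N₁ N₂ E₁ Y Vx Hx Rx Pu PN)
    (hc : Cell u w₀ v₀ v g ρ P J X M N₁ N Wt Pt dP w m V R q) :
    (((Vx - V : ℕ) : ℝ) + ((Hx - (R - V) : ℕ) : ℝ) + ((Rx - (V + (R - V)) : ℕ) : ℝ)) *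
        Real.log 2 + 3 * Real.log (2 * 64 + 1) ≤
      (3 * E₁ + (v + 2 * ρ) * (N₁ * M + 3) + 10 + 3 * Real.log 129) * X := by
  obtain ⟨a1, a2, a3, a4, a5, a6, a7, a8, a9, a10, a11, a12, a13⟩ := h.basic
  obtain ⟨p1, p2, p3, p4, p5, p6, p7, p8, p9, p10⟩ := h.prec hc
  have hv := h.v0
  have hvρ := h.vρ
  have hX5 := h.X5
  have hVR := hc.VR
  have hX0 : (0 : ℝ) ≤ X := Nat.cast_nonneg _
  have hρ : 0 ≤ ρ := hv.trans hvρ
  have e1 : V ≤ Vx := by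
    have : (V : ℝ) ≤ Vx := by linarith
    exact_mod_cast this
  have e2 : R - V ≤ Hx := by
    have : ((R - V : ℕ) : ℝ) ≤ Hx := by
      rw [Nat.cast_sub hVR]
      linarith
    exact_mod_cast this
  have e3 : R ≤ Rx := by
    have : (R : ℝ) ≤ Rx := by linarith
    exact_mod_cast this
  have e4 : V + (R - V) = R := by omega
  rw [e4, Nat.cast_sub e1, Nat.cast_sub e2, Nat.cast_sub e3, Nat.cast_sub hVR]
  have c1 := hc.Vl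
  have c2 := hc.Rl
  have c3 := hc.Hl
  have i1 : (v * (N₁ * M + 3) + 1) * X = v * ((N₁ * M + 3) * X) + X := by ring
  have i2 : (ρ * (N₁ * M + 3) + 1) * X = ρ * ((N₁ * M + 3) * X) + X := by ring
  have i3 : (3 * E₁ + (v + 2 * ρ) * (N₁ * M + 3) + 10 + 3 * Real.log 129) * X =
    3 * (E₁ * X) + v * ((N₁ * M + 3) * X) + 2 * (ρ * ((N₁ * M + 3) * X)) + 10 * X +
      3 * (Real.log 129 * X) := by ring
  have hl129 : 0 ≤ Real.log 129 := Real.log_nonneg (by norm_num)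
  have hl2 : Real.log 2 ≤ 1 := by
    have := Real.log_two_lt_d9
    linarith
  have hl2' : 0 ≤ Real.log 2 := Real.log_nonneg (by norm_num)
  have j1 : Real.log 129 ≤ Real.log 129 * X := by
    have := mul_le_mul_of_nonneg_left (a10.trans' (by norm_num : (1 : ℝ) ≤ 100)) hl129
    linarith
  have j2 : Real.log (2 * 64 + 1) = Real.log 129 := by norm_num
  have hs : 0 ≤ (Vx : ℝ) - V + (Hx - (R - V)) + (Rx - R) := by
    have f1 : (V : ℝ) ≤ Vx := by exact_mod_cast e1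
    have f2 : (R : ℝ) ≤ Rx := by exact_mod_cast e3
    have f3 : (R : ℝ) - V ≤ Hx := by
      have : ((R - V : ℕ) : ℝ) ≤ Hx := by exact_mod_cast e2
      rw [Nat.cast_sub hVR] at this
      exact this
    linarith
  have j3 : ((Vx : ℝ) - V + (Hx - (R - V)) + (Rx - R)) * Real.log 2 ≤
      (Vx : ℝ) - V + (Hx - (R - V)) + (Rx - R) := by
    have := mul_le_mul_of_nonneg_left hl2 hs
    linarith
  rw [i3, j2]
  linarith

end szs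

end Pool.S6N
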