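import Pool.Agent.H8.KS6.BoxT
import Pool.Agent.H97.OC.OCD

/-!
# Telescopes

The sum of the informations along a chain of nested contexts is at most one entropy. The contexts,
the blocks and the variables may all change along the chain; everything is given the generalised
time `T`.
-/

set_option autoImplicit false

namespace Pool.S6N

open Finset Real
open Pool.Agent.H49.Ent Pool.Agent.H32.Dense Pool.STK Pool.KA

variable {Ω α β γ δ τ ν : Type} [Fintype Ω]

/-- One step of a telescope. -/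
theorem tel_step {p : Ω → ℝ} (h0 : ∀ ω, 0 ≤ p ω) (n : Ω → ν) (n' : Ω → α) (V : Ω → γ) (b : Ω → β)
    (b' : Ω → δ) (T : Ω → τ) :
    CH p n' (fun ω => (b' ω, T ω)) ≤ CH p n (fun ω => (V ω, (b ω, T ω))) +
      CH p (fun ω => (V ω, b ω)) (fun ω => (b' ω, T ω)) +
      CH p n' (fun ω => (n ω, (b ω, (b' ω, T ω)))) := by
  have a1 := CH_le_add h0 n' (fun ω => (n ω, b ω)) (fun ω => (b' ω, T ω))
  have a2 := CH_le_add h0 (fun ω => (n ω, b ω)) (fun ω => (V ω, b ω)) (fun ω => (b' ω, T ω))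
  have a3 : CH p (fun ω => (n ω, b ω)) (fun ω => ((V ω, b ω), (b' ω, T ω))) ≤
      CH p n (fun ω => (V ω, (b ω, T ω))) := by
    refine (CH_mono_left h0 (X' := n) fun ω ω' _ _ h => ?_).trans
      (CH_mono_cond h0 fun ω ω' _ _ h => ?_)
    · simp only [Prod.mk.injEq] at h ⊢
      exact ⟨h.1, h.2.1.2⟩
    · simp only [Prod.mk.injEq] at h ⊢
      exact ⟨h.1.1, h.1.2, h.2.2⟩
  have a4 : CH p n' (fun ω => ((n ω, b ω), (b' ω, T ω))) ≤
      CH p n' (fun ω => (n ω, (b ω, (b' ω, T ω)))) := by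
    refine CH_mono_cond h0 fun ω ω' _ _ h => ?_
    simp only [Prod.mk.injEq] at h ⊢
    tauto
  linarith

/-- **Telescope.** `b j` are contexts, `V j` blocks, `n j` variables; the block and the context `j`
are known given the context `j + 1`, the variable `n (j + 1)` is known given `n j`, up to `C`. -/
theorem tel_chain {p : Ω → ℝ} (h0 : ∀ ω, 0 ≤ p ω) (n : ℕ → Ω → ν) (V : ℕ → Ω → γ)
    (b : ℕ → Ω → β) (T : Ω → τ) {N : ℕ} {C : ℝ}
    (h1 : ∀ j < N, CH p (fun ω => (V j ω, b j ω)) (fun ω => (b (j + 1) ω, T ω)) ≤ C)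
    (h2 : ∀ j < N, CH p (n (j + 1)) (fun ω => (n j ω, (b j ω, (b (j + 1) ω, T ω)))) ≤ C) :
    ∑ j ∈ range N, (CH p (n j) (fun ω => (b j ω, T ω)) -
      CH p (n j) (fun ω => (V j ω, (b j ω, T ω)))) ≤
      CH p (n 0) (fun ω => (b 0 ω, T ω)) - CH p (n N) (fun ω => (b N ω, T ω)) + 2 * C * N := by
  have key : ∀ M ≤ N, ∑ j ∈ range M, (CH p (n j) (fun ω => (b j ω, T ω)) -
      CH p (n j) (fun ω => (V j ω, (b j ω, T ω)))) ≤
      CH p (n 0) (fun ω => (b 0 ω, T ω)) - CH p (n M) (fun ω => (b M ω, T ω)) + 2 * C * M := by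
    intro M
    induction M with
    | zero => intro _; simp
    | succ M ih =>
      intro hM
      have e1 := ih (by omega)
      have e2 := tel_step h0 (n M) (n (M + 1)) (V M) (b M) (b (M + 1)) T
      have e3 := h1 M (by omega)
      have e4 := h2 M (by omega)
      rw [Finset.sum_range_succ]
      push_cast
      linarith
  exact key N le_rfl

/-- **Principle M**: a fixed variable and the blocks of a chain. -/
theorem tel_fix {p : Ω → ℝ} (h0 : ∀ ω, 0 ≤ p ω) (n : Ω → ν) (V : ℕ → Ω → γ)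
    (b : ℕ → Ω → β) (T : Ω → τ) {N : ℕ} {C : ℝ} (hC : 0 ≤ C)
    (h1 : ∀ j < N, CH p (fun ω => (V j ω, b j ω)) (fun ω => (b (j + 1) ω, T ω)) ≤ C) :
    ∑ j ∈ range N, (CH p n (fun ω => (b j ω, T ω)) -
      CH p n (fun ω => (V j ω, (b j ω, T ω)))) ≤
      CH p n (fun ω => (b 0 ω, T ω)) + 2 * C * N := by
  have h2 := tel_chain h0 (fun _ => n) V b T (N := N) (C := C) h1 (fun j _ => by
    refine (le_of_eq (CH_eq_zero h0 fun ω ω' _ _ h => ?_)).trans hC
    exact (Prod.ext_iff.mp h).1)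
  have h3 := CH_nonneg h0 n (fun ω => (b N ω, T ω))
  linarith

/-- The information with a pair. -/
theorem mi_pair {p : Ω → ℝ} (h0 : ∀ ω, 0 ≤ p ω) (T : Ω → τ) (v : Ω → ν) (L : Ω → γ)
    (b : Ω → β) :
    Pool.KVA.MI p (fun ω => (T ω, v ω)) L b =
      Pool.KVA.MI p T L b + (CH p v (fun ω => (b ω, T ω)) -
        CH p v (fun ω => (L ω, (b ω, T ω)))) := by
  unfold Pool.KVA.MI
  have a1 := CH_chain h0 v T b
  have a2 := CH_chain h0 v T (fun ω => (L ω, b ω))
  have a3 := CH_chain h0 T L b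
  have a4 := CH_chain h0 (fun ω => (T ω, v ω)) L b
  have c1 : CH p (fun ω => (T ω, v ω)) b = CH p (fun ω => (v ω, T ω)) b := by
    refine CH_congr h0 ?_ ?_ (fun _ _ _ _ h => h) (fun _ _ _ _ h => h)
    · intro ω ω' _ _ h
      simp only [Prod.mk.injEq] at h ⊢
      tauto
    · intro ω ω' _ _ h
      simp only [Prod.mk.injEq] at h ⊢
      tauto
  have c2 : CH p (fun ω => (T ω, v ω)) (fun ω => (L ω, b ω)) =
      CH p (fun ω => (v ω, T ω)) (fun ω => (L ω, b ω)) := by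
    refine CH_congr h0 ?_ ?_ (fun _ _ _ _ h => h) (fun _ _ _ _ h => h)
    · intro ω ω' _ _ h
      simp only [Prod.mk.injEq] at h ⊢
      tauto
    · intro ω ω' _ _ h
      simp only [Prod.mk.injEq] at h ⊢
      tauto
  have c3 : CH p v (fun ω => (T ω, b ω)) = CH p v (fun ω => (b ω, T ω)) := by
    refine CH_congr h0 ?_ ?_ ?_ ?_
    · intro ω ω' _ _ h
      exact (Prod.ext_iff.mp h).1
    · intro ω ω' _ _ h
      exact (Prod.ext_iff.mp h).1
    · intro ω ω' _ _ h
      simp only [Prod.mk.injEq] at h ⊢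
      tauto
    · intro ω ω' _ _ h
      simp only [Prod.mk.injEq] at h ⊢
      tauto
  have c4 : CH p v (fun ω => (T ω, (L ω, b ω))) = CH p v (fun ω => (L ω, (b ω, T ω))) := by
    refine CH_congr h0 ?_ ?_ ?_ ?_
    · intro ω ω' _ _ h
      exact (Prod.ext_iff.mp h).1
    · intro ω ω' _ _ h
      exact (Prod.ext_iff.mp h).1
    · intro ω ω' _ _ h
      simp only [Prod.mk.injEq] at h ⊢
      tauto
    · intro ω ω' _ _ h
      simp only [Prod.mk.injEq] at h ⊢
      tauto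
  linarith

/-- An average over a rectangle: if the rows and the columns have small sums, then there is a
place with small values. -/
theorem exists_place {N₁ N₂ : ℕ} (hN₁ : 0 < N₁) (hN₂ : 0 < N₂) (f g : ℕ → ℕ → ℝ)
    {A B ε : ℝ} (hε : 0 < ε) (hf0 : ∀ j < N₁, ∀ k < N₂, 0 ≤ f j k)
    (hg0 : ∀ j < N₁, ∀ k < N₂, 0 ≤ g j k)
    (hf : ∀ j < N₁, ∑ k ∈ range N₂, f j k ≤ A) (hg : ∀ k < N₂, ∑ j ∈ range N₁, g j k ≤ B)
    (hA : A * 4 ≤ ε * N₂) (hB : B * 4 ≤ ε * N₁) :
    ∃ j < N₁, ∃ k < N₂, f j k ≤ ε ∧ g j k ≤ ε := by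
  by_contra hcon
  push Not at hcon
  have h1 : ∀ j < N₁, ∀ k < N₂, ε < f j k + g j k := by
    intro j hj k hk
    by_cases h2 : f j k ≤ ε
    · have h3 := hcon j hj k hk h2
      have := hf0 j hj k hk
      linarith
    · have := hg0 j hj k hk
      linarith [not_le.mp h2]
  have h2 : ∑ j ∈ range N₁, ∑ k ∈ range N₂, (f j k + g j k) ≤ A * N₁ + B * N₂ := by
    have e1 : ∑ j ∈ range N₁, ∑ k ∈ range N₂, (f j k + g j k) =
        ∑ j ∈ range N₁, ∑ k ∈ range N₂, f j k + ∑ k ∈ range N₂, ∑ j ∈ range N₁, g j k := by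
      rw [Finset.sum_comm (s := range N₂), ← Finset.sum_add_distrib]
      exact Finset.sum_congr rfl fun j _ => Finset.sum_add_distrib
    rw [e1]
    have e2 : ∑ j ∈ range N₁, ∑ k ∈ range N₂, f j k ≤ A * N₁ := by
      refine (Finset.sum_le_sum fun j hj => hf j (Finset.mem_range.mp hj)).trans (le_of_eq ?_)
      rw [Finset.sum_const, Finset.card_range, nsmul_eq_mul]
      ring
    have e3 : ∑ k ∈ range N₂, ∑ j ∈ range N₁, g j k ≤ B * N₂ := by
      refine (Finset.sum_le_sum fun k hk => hg k (Finset.mem_range.mp hk)).trans (le_of_eq ?_)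
      rw [Finset.sum_const, Finset.card_range, nsmul_eq_mul]
      ring
    linarith
  have h3 : (N₁ : ℝ) * N₂ * ε ≤ ∑ j ∈ range N₁, ∑ k ∈ range N₂, (f j k + g j k) := by
    have e1 : ∀ j ∈ range N₁, (N₂ : ℝ) * ε ≤ ∑ k ∈ range N₂, (f j k + g j k) := by
      intro j hj
      have e2 : ∑ _k ∈ range N₂, ε ≤ ∑ k ∈ range N₂, (f j k + g j k) :=
        Finset.sum_le_sum fun k hk => (h1 j (Finset.mem_range.mp hj) k (Finset.mem_range.mp hk)).le
      rw [Finset.sum_const, Finset.card_range, nsmul_eq_mul] at e2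
      exact e2
    refine le_trans (le_of_eq ?_) (Finset.sum_le_sum e1)
    rw [Finset.sum_const, Finset.card_range, nsmul_eq_mul]
    ring
  have p1 : (0 : ℝ) < N₁ := by exact_mod_cast hN₁
  have p2 : (0 : ℝ) < N₂ := by exact_mod_cast hN₂
  have p3 : 0 < (N₁ : ℝ) * N₂ * ε := by positivity
  nlinarith

end Pool.S6N
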