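import Pool.Agent.H97.S6.Fin
import Pool.Agent.H65.S6.H3F
import Pool.Agent.H95.S6.H5C

/-!
# The rising case, from (NAT)
-/

set_option autoImplicit false

namespace Pool.S6N

open Pool.S6C

/-- **The rising case.** -/
theorem rise_nat (h : NATStmt) : RISEStmt := rise_from Pool.H3X.h3_thm (h5_rise h)

end Pool.S6N
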